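import Pool.Agent.QD.N4.Ord
import Pool.Agent.QD.N3.Basic

/-!
# QD-N4-Uu: the symbol `uK` and the symbol `uu` of HWR

`uK_eq`: `δ = m^2 x` integral, `m ≠ 0`.  PLAN: `ord v δ = 2 ord v m + ordK v x` (`ordK_int`,
`ordK_mul`), so the parities agree and `uu v δ = 0` iff `ordK v x` is odd (`ord_iff`, `uu_sq`).
Let `ord v δ = 2 j`.
If `LSq1 v x`, i.e. `x r^2 - 1` has valuation `≤ exp (-1)`: put `c = m / r`; then `δ / c^2 - 1 =
x r^2 - 1`, so `c` has valuation `exp (-j)` and `δ - c^2` has valuation `≤ exp (-(2j+1))`.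
Approximate `c` (valuation at most one) by `y : 𝓞 K` with
`v (c - y) ≤ exp (-(j+1))` (`HeightOneSpectrum.exists_valuation_sub_lt_of_integer`); then
`δ - y^2 = (δ - c^2) + (c - y)(c + y)` has valuation `≤ exp (-(2j+1))`, so it is in `v^(2j+1)`
(`intValuation_le_pow_iff_mem`) and `uu v δ = 1`.
Conversely, `y : 𝓞 K` with `δ - y^2 ∈ v^(2j+1)`: then `y ≠ 0` (as `δ ∉ v^(2j+1)`), `ord v y = j`,
and `r = m / y` works.
`uK_congr`: parity from `LSq_even`, `LSq1 v x ↔ LSq1 v y` from multiplication with the local square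
`x / y` (same computation as in `LSq_mul`).
-/

namespace Pool.Agent.QD.N4

open NumberField IsDedekindDomain Pool.Agent.HWR WithZero

variable {K : Type} [Field K] [NumberField K] (v : HeightOneSpectrum (𝓞 K))

private theorem mem_pow_iff_val (a : 𝓞 K) (n : ℕ) :
    a ∈ v.asIdeal ^ n ↔ v.valuation K (a : K) ≤ exp (-(n : ℤ)) := by
  have h : v.valuation K (a : K) = v.intValuation a := v.valuation_of_algebraMap a
  rw [h, v.intValuation_le_pow_iff_mem]

/-- the heart: squares to first order in `K` and in the ring of integers -/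
private theorem LSq1_iff {x m' δ' : Kˣ} {δ : 𝓞 K} {j : ℕ} (hδ' : (δ' : K) = (δ : K))
    (hx : (δ' : K) = (m' : K) ^ 2 * (x : K)) (hm : ∃ m : 𝓞 K, (m : K) = m')
    (hj : ordK v δ' = 2 * j) :
    LSq1 v x ↔ ∃ y : 𝓞 K, δ - y ^ 2 ∈ v.asIdeal ^ (2 * j + 1) := by
  obtain ⟨m, hm⟩ := hm
  have hδx : δ' = m' ^ 2 * x := by
    ext
    rw [hx]
    push_cast
    rfl
  constructor
  · rintro ⟨r, hr⟩
    have h1 : ordK v (x * r ^ 2) = 0 := by
      apply Pool.Agent.QD.ordK_of_closeOne v one_ne_zero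
      simpa using hr
    rw [Pool.Agent.QD.ordK_mul, Pool.Agent.QD.ordK_pow] at h1
    have h2 : ordK v δ' = 2 * ordK v m' + ordK v x := by
      rw [hδx, Pool.Agent.QD.ordK_mul, Pool.Agent.QD.ordK_pow]
      push_cast
      ring
    have hc : ordK v (m' / r) = j := by
      rw [Pool.Agent.QD.ordK_div]
      push_cast at h1
      linarith
    set c : Kˣ := m' / r with hcdef
    have hvc : v.valuation K (c : K) = exp (-(j : ℤ)) := by
      rw [Pool.Agent.QD.val_eq_exp, hc]
    have hvc1 : v.valuation K (c : K) ≤ 1 := by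
      rw [hvc, ← exp_zero, exp_le_exp]
      have : (0 : ℤ) ≤ j := by positivity
      linarith
    obtain ⟨y, hy⟩ := v.exists_valuation_sub_lt_of_integer hvc1
      (Units.mk0 (exp (-((j : ℤ) + 1))) exp_ne_zero)
    rw [Units.val_mk0] at hy
    refine ⟨y, ?_⟩
    rw [mem_pow_iff_val]
    have h3 : ((δ - y ^ 2 : 𝓞 K) : K) = ((δ' : K) - (c : K) ^ 2) +
        ((c : K) - (y : K)) * ((c : K) + (y : K)) := by
      rw [hδ']
      push_cast
      ring
    have h4 : (δ' : K) - (c : K) ^ 2 = (c : K) ^ 2 * ((x : K) * (r : K) ^ 2 - 1) := by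
      rw [hx, hcdef]
      push_cast
      have hr0 : (r : K) ≠ 0 := r.ne_zero
      field_simp
    have h5 : v.valuation K ((δ' : K) - (c : K) ^ 2) ≤ exp (-((2 * j + 1 : ℕ) : ℤ)) := by
      rw [h4, map_mul, map_pow, hvc]
      have h6 : exp (-((2 * j + 1 : ℕ) : ℤ)) = exp (-(j : ℤ)) ^ 2 * exp (-((1 : ℕ) : ℤ)) := by
        rw [sq, ← exp_add, ← exp_add]
        congr 1
        push_cast
        ring
      rw [h6]
      exact mul_le_mul' le_rfl hr
    have h7 : v.valuation K ((c : K) - (y : K)) ≤ exp (-((j : ℤ) + 1)) := by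
      rw [Valuation.map_sub_swap]
      exact hy.le
    have h8 : v.valuation K ((c : K) + (y : K)) ≤ exp (-(j : ℤ)) := by
      have h9 : (c : K) + (y : K) = ((y : K) - (c : K)) + ((c : K) + (c : K)) := by ring
      rw [h9]
      refine Valuation.map_add_le _ ?_ (Valuation.map_add_le _ hvc.le hvc.le)
      refine hy.le.trans ?_
      rw [exp_le_exp]
      linarith
    rw [h3]
    refine Valuation.map_add_le _ h5 ?_
    rw [map_mul]
    have h10 : exp (-((2 * j + 1 : ℕ) : ℤ)) = exp (-((j : ℤ) + 1)) * exp (-(j : ℤ)) := by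
      rw [← exp_add]
      congr 1
      push_cast
      ring
    rw [h10]
    exact mul_le_mul' h7 h8
  · rintro ⟨y, hy⟩
    rw [mem_pow_iff_val] at hy
    have hvδ : v.valuation K (δ : K) = exp (-(2 * j : ℤ)) := by
      rw [← hδ', Pool.Agent.QD.val_eq_exp, hj]
    have hlt : v.valuation K ((δ - y ^ 2 : 𝓞 K) : K) < v.valuation K (δ : K) := by
      refine lt_of_le_of_lt hy ?_
      rw [hvδ, exp_lt_exp]
      push_cast
      linarith
    have hy2 : v.valuation K ((y : K) ^ 2) = v.valuation K (δ : K) := by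
      have h1 : (y : K) ^ 2 = (δ : K) - ((δ - y ^ 2 : 𝓞 K) : K) := by
        push_cast
        ring
      rw [h1]
      rw [Valuation.map_sub_swap]
      exact Valuation.map_sub_eq_of_lt_right _ hlt
    have hy0 : (y : K) ≠ 0 := by
      intro h
      rw [h, hvδ, zero_pow two_ne_zero, map_zero] at hy2
      exact exp_ne_zero hy2.symm
    refine ⟨m' / Units.mk0 (y : K) hy0, ?_⟩
    unfold closeOne
    have h2 : (x : K) * ((m' / Units.mk0 (y : K) hy0 : Kˣ) : K) ^ 2 - 1 =
        ((δ - y ^ 2 : 𝓞 K) : K) / (y : K) ^ 2 := by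
      have h3 : ((δ - y ^ 2 : 𝓞 K) : K) = (m' : K) ^ 2 * (x : K) - (y : K) ^ 2 := by
        rw [← hx, hδ']
        push_cast
        ring
      rw [h3, Units.val_div_eq_div_val, Units.val_mk0]
      field_simp
    rw [h2, map_div₀, hy2, hvδ]
    have h3 : exp (-((1 : ℕ) : ℤ)) = exp (-((2 * j + 1 : ℕ) : ℤ)) / exp (-(2 * j : ℤ)) := by
      rw [← exp_sub]
      congr 1
      push_cast
      ring
    rw [h3]
    rw [div_eq_mul_inv, div_eq_mul_inv]
    exact mul_le_mul' hy le_rfl

theorem uK_eq (x : Kˣ) {m δ : 𝓞 K} (hm : m ≠ 0) (h : (δ : K) = (m : K) ^ 2 * (x : K)) :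
    ((uK v x : ℤ) : ℂ) = uu v δ := by
  classical
  have hm' : (m : K) ≠ 0 := by
    intro h0
    exact hm (by exact_mod_cast h0)
  have hδ0' : (δ : K) ≠ 0 := by
    rw [h]
    exact mul_ne_zero (pow_ne_zero 2 hm') x.ne_zero
  have hδ0 : δ ≠ 0 := by
    rintro rfl
    simp at hδ0'
  set M : Kˣ := Units.mk0 (m : K) hm' with hM
  set D : Kˣ := Units.mk0 (δ : K) hδ0' with hD
  have hDM : D = M ^ 2 * x := by
    ext
    push_cast
    exact h
  have hoD : ordK v D = (ord v δ : ℤ) := ordK_int v (x := D) (a := δ) rfl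
  have h2 : ordK v D = 2 * ordK v M + ordK v x := by
    rw [hDM, Pool.Agent.QD.ordK_mul, Pool.Agent.QD.ordK_pow]
    push_cast
    ring
  by_cases hodd : Odd (ordK v x)
  · have h3 : ¬ Even (ord v δ) := by
      intro he
      have h4 : Even (ordK v D) := by
        rw [hoD]
        exact_mod_cast he
      rw [h2] at h4
      have h5 : Even (ordK v x) := by
        have := h4.sub (even_two_mul (ordK v M))
        simpa using this
      exact (Int.not_even_iff_odd.2 hodd) h5
    have h4 := uu_sq (v := v) hδ0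
    rw [if_neg h3] at h4
    have h5 : uu v δ = 0 := by simpa using h4
    rw [h5, Pool.Agent.QD.uK_eq_zero_iff.2 hodd, Int.cast_zero]
  · have hev : Even (ordK v x) := Int.not_odd_iff_even.1 hodd
    have h3 : Even (ordK v D) := by
      rw [h2]
      exact (even_two_mul _).add hev
    rw [hoD] at h3
    have h4 : Even (ord v δ) := by exact_mod_cast h3
    obtain ⟨j, hj⟩ := h4
    have hj' : ordK v D = 2 * j := by
      rw [hoD, hj]
      push_cast
      ring
    have hiff := LSq1_iff v (x := x) (m' := M) (δ' := D) (δ := δ) (j := j) rfl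
      (by rw [hDM]; push_cast; rfl) ⟨m, rfl⟩ hj'
    have hmem : δ ∈ v.asIdeal ^ (2 * j) ∧ δ ∉ v.asIdeal ^ (2 * j + 1) := by
      rw [ord_iff hδ0, ord_iff hδ0]
      omega
    have hex : ∃ j : ℕ, δ ∈ v.asIdeal ^ (2 * j) ∧ δ ∉ v.asIdeal ^ (2 * j + 1) := ⟨j, hmem⟩
    have hinner : (∃ j : ℕ, δ ∈ v.asIdeal ^ (2 * j) ∧ δ ∉ v.asIdeal ^ (2 * j + 1) ∧
        ∃ x : 𝓞 K, δ - x ^ 2 ∈ v.asIdeal ^ (2 * j + 1)) ↔ LSq1 v x := by
      rw [hiff]
      constructor
      · rintro ⟨i, h5, h6, h7⟩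
        have h8 : i = j := by
          rw [ord_iff hδ0] at h5 h6
          omega
        rw [← h8]
        exact h7
      · intro h7
        exact ⟨j, hmem.1, hmem.2, h7⟩
    rw [uu, if_pos hex]
    unfold uK
    rw [if_neg hodd]
    by_cases h7 : LSq1 v x
    · rw [if_pos h7, if_pos (hinner.2 h7)]
      simp
    · rw [if_neg h7, if_neg (fun h8 => h7 (hinner.1 h8))]
      simp

theorem uK_congr {x y : Kˣ} (h : LSq v (x / y)) : uK v x = uK v y := by
  have h1 := Pool.Agent.QD.uK_mul_of_LSq1 (x := y) (Pool.Agent.QD.LSq1_of_LSq h)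
  rwa [mul_div_cancel] at h1

theorem uK_cases (x : Kˣ) : uK v x = 1 ∨ uK v x = -1 ∨ uK v x = 0 := by
  rcases Pool.Agent.QD.uK_cases v x with h | h | h
  · exact Or.inr (Or.inr h)
  · exact Or.inl h
  · exact Or.inr (Or.inl h)

/-- over a local square the symbol is one -/
theorem uK_one {x : Kˣ} (h : LSq v x) : uK v x = 1 := Pool.Agent.QD.uK_of_LSq h

end Pool.Agent.QD.N4
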