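import Pool.Agent.QD.ZDefs

/-!
# QD-N4-AlgIso: isomorphisms of `F ⊗ K(√x)` from a square root in `F ⊗ K`

`F` is a field of characteristic zero (used for `ℚ_p`).
`base`: the `ℚ`-algebra map `F ⊗ K → F ⊗ K'` induced by `K → K'` (`Algebra.TensorProduct.map`).
`iso_congr` PLAN: `x, y ≠ 0`, `ρ^2 = 1 ⊗ (x / y)` in `F ⊗ K`.  `ρ` is a unit.  In `R'' = F ⊗ K''` the
element `α = base ρ * (1 ⊗ θ')` satisfies `α^2 = 1 ⊗ x`.  `K' = K(θ)` with minimal polynomial
`T^2 - x` over `K` (`x` is not a square, degree 2), so there is a ring homomorphism (a `K`-algebra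
homomorphism for the `K`-structure of `R''` through `K → K'' → R''`; or
`IntermediateField.adjoin`/`AdjoinRoot.lift`, `minpoly` and `PowerBasis.lift`) `f : K' → R''` with
`f θ = α`; with `Algebra.TensorProduct.lift` an `F`-algebra homomorphism `g : F ⊗ K' → F ⊗ K''`, which
is surjective (the range contains `F`, the image of `K`, hence `base (F ⊗ K)`, hence `base ρ⁻¹`, hence
`1 ⊗ θ'`, and `K'' = K(θ')`); both sides have dimension `2 [K : ℚ]` over `F`
(`Module.finrank_baseChange`), so `g` is bijective (`LinearMap.injective_iff_surjective_of_finrank_eq_finrank`).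
`iso_prod` PLAN: `ρ^2 = 1 ⊗ x`, two maps `F ⊗ K' → F ⊗ K`, `θ ↦ ρ` and `θ ↦ -ρ`, which are the
identity on `F ⊗ K`; together `g : F ⊗ K' → (F ⊗ K) × (F ⊗ K)`; the range is a subalgebra containing
`(c, c)` for all `c` and `(ρ, -ρ)`, hence `(1, -1)` (multiply by `(ρ⁻¹, ρ⁻¹)`), hence everything
(`2` is invertible); dimensions agree.
-/

namespace Pool.Agent.QD.N4

open NumberField

open scoped TensorProduct

/-- coordinates with respect to `1, θ` -/
private theorem coord {K : Type} [Field K] (K' : Type) [Field K'] [Algebra K K']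
    (hdeg : Module.finrank K K' = 2) (x : Kˣ) (θ : K') (hθ : θ ^ 2 = algebraMap K K' (x : K))
    (hns : ¬ IsSquare x) : ∃ a b : K' → K,
      (∀ k, k = algebraMap K K' (a k) + algebraMap K K' (b k) * θ) ∧
      ∀ u v : K, a (algebraMap K K' u + algebraMap K K' v * θ) = u ∧
        b (algebraMap K K' u + algebraMap K K' v * θ) = v := by
  have hind : ∀ u v : K, algebraMap K K' u + algebraMap K K' v * θ = 0 → u = 0 ∧ v = 0 := by
    intro u v h
    by_cases hv : v = 0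
    · subst hv
      rw [map_zero, zero_mul, add_zero] at h
      exact ⟨(algebraMap K K').injective (by rw [h, map_zero]), rfl⟩
    · exfalso
      apply hns
      have hv' : algebraMap K K' v ≠ 0 := by
        rw [Ne, map_eq_zero]
        exact hv
      have h1 : θ = algebraMap K K' (-(u / v)) := by
        rw [map_neg, map_div₀, ← neg_div, eq_div_iff hv']
        linear_combination h
      have h2 : (x : K) = (u / v) * (u / v) := by
        apply (algebraMap K K').injective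
        rw [← hθ, h1, ← map_pow]
        congr 1
        ring
      have h3 : u / v ≠ 0 := by
        intro h0
        rw [h0, mul_zero] at h2
        exact x.ne_zero h2
      exact ⟨Units.mk0 (u / v) h3, Units.ext (by rw [h2]; simp)⟩
  have hli : LinearIndependent K ![(1 : K'), θ] := by
    rw [LinearIndependent.pair_iff]
    intro u v h
    refine hind u v ?_
    rw [Algebra.smul_def, Algebra.smul_def, mul_one] at h
    exact h
  set B := basisOfLinearIndependentOfCardEqFinrank hli (by simp [hdeg]) with hB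
  have hdec : ∀ k, k = algebraMap K K' (B.repr k 0) + algebraMap K K' (B.repr k 1) * θ := by
    intro k
    have h := B.sum_repr k
    rw [Fin.sum_univ_two, hB, coe_basisOfLinearIndependentOfCardEqFinrank, ← hB] at h
    simp only [Matrix.cons_val_zero, Matrix.cons_val_one, Algebra.smul_def, mul_one] at h
    exact h.symm
  refine ⟨fun k => B.repr k 0, fun k => B.repr k 1, hdec, fun u v => ?_⟩
  have h := hdec (algebraMap K K' u + algebraMap K K' v * θ)
  have h2 := hind (u - B.repr (algebraMap K K' u + algebraMap K K' v * θ) 0)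
    (v - B.repr (algebraMap K K' u + algebraMap K K' v * θ) 1) (by
      rw [map_sub, map_sub]
      linear_combination h)
  exact ⟨(sub_eq_zero.mp h2.1).symm, (sub_eq_zero.mp h2.2).symm⟩

/-- the universal property of `K' = K(√x)` -/
private theorem exists_ringHom {K : Type} [Field K] (K' : Type) [Field K'] [Algebra K K']
    (hdeg : Module.finrank K K' = 2) (x : Kˣ) (θ : K') (hθ : θ ^ 2 = algebraMap K K' (x : K))
    (hns : ¬ IsSquare x) {S : Type} [CommRing S] (ψ : K →+* S) (α : S)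
    (hα : α ^ 2 = ψ (x : K)) :
    ∃ f : K' →+* S, (∀ k, f (algebraMap K K' k) = ψ k) ∧ f θ = α := by
  obtain ⟨a, b, hdec, huniq⟩ := coord K' hdeg x θ hθ hns
  have hval : ∀ u v k, k = algebraMap K K' u + algebraMap K K' v * θ →
      ψ (a k) + ψ (b k) * α = ψ u + ψ v * α := by
    intro u v k hk
    rw [hk, (huniq u v).1, (huniq u v).2]
  refine ⟨{ toFun := fun k => ψ (a k) + ψ (b k) * α
            map_one' := ?_
            map_mul' := ?_
            map_zero' := ?_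
            map_add' := ?_ }, ?_, ?_⟩
  · rw [hval 1 0 1 (by simp)]
    simp
  · intro k l
    have h1 := hdec k
    have h2 := hdec l
    have h3 : k * l = (algebraMap K K' (a k) + algebraMap K K' (b k) * θ) *
        (algebraMap K K' (a l) + algebraMap K K' (b l) * θ) := by rw [← h1, ← h2]
    have hkl : k * l = algebraMap K K' (a k * a l + (x : K) * (b k * b l)) +
        algebraMap K K' (a k * b l + b k * a l) * θ := by
      simp only [map_add, map_mul]
      rw [h3]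
      linear_combination ((algebraMap K K' (b k)) * (algebraMap K K' (b l))) * hθ
    rw [hval _ _ _ hkl]
    simp only [map_add, map_mul]
    linear_combination (-(ψ (b k) * ψ (b l))) * hα
  · rw [hval 0 0 0 (by simp)]
    simp
  · intro k l
    have h1 := hdec k
    have h2 := hdec l
    have hkl : k + l = algebraMap K K' (a k + a l) + algebraMap K K' (b k + b l) * θ := by
      simp only [map_add]
      linear_combination h1 + h2
    rw [hval _ _ _ hkl]
    simp only [map_add]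
    ring
  · intro k
    show ψ (a (algebraMap K K' k)) + ψ (b (algebraMap K K' k)) * α = ψ k
    rw [hval k 0 (algebraMap K K' k) (by simp)]
    simp
  · show ψ (a θ) + ψ (b θ) * α = α
    rw [hval 0 1 θ (by simp)]
    simp

variable (F : Type) [Field F] [CharZero F] {K : Type} [Field K] [NumberField K]

private theorem exists_lift (K' : Type) [Field K'] [NumberField K'] [Algebra K K']
    (hdeg : Module.finrank K K' = 2) (x : Kˣ) (θ : K') (hθ : θ ^ 2 = algebraMap K K' (x : K))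
    (hns : ¬ IsSquare x) [Algebra ℚ F] {S : Type} [CommRing S] [Algebra F S] [Algebra ℚ S]
    [IsScalarTower ℚ F S] (φ : (F ⊗[ℚ] K) →ₐ[F] S) (α : S)
    (hα : α ^ 2 = φ ((1 : F) ⊗ₜ[ℚ] (x : K))) :
    ∃ g : (F ⊗[ℚ] K') →ₐ[F] S,
      (∀ k : K, g ((1 : F) ⊗ₜ[ℚ] (algebraMap K K' k)) = φ ((1 : F) ⊗ₜ[ℚ] k)) ∧
      g ((1 : F) ⊗ₜ[ℚ] θ) = α := by
  obtain ⟨f, hf1, hf2⟩ := exists_ringHom K' hdeg x θ hθ hns
    (φ.toRingHom.comp (Algebra.TensorProduct.includeRight : K →ₐ[ℚ] F ⊗[ℚ] K).toRingHom) α hα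
  refine ⟨Algebra.TensorProduct.lift (Algebra.ofId F S) (RingHom.toRatAlgHom f)
    (fun _ _ => Commute.all _ _), fun k => ?_, ?_⟩
  · rw [Algebra.TensorProduct.lift_tmul, map_one, one_mul]
    exact hf1 k
  · rw [Algebra.TensorProduct.lift_tmul, map_one, one_mul]
    exact hf2

/-- the map `F ⊗ K → F ⊗ K'` -/
private noncomputable def bs (K' : Type) [Field K'] [NumberField K'] [Algebra K K']
    [Algebra ℚ F] : (F ⊗[ℚ] K) →ₐ[F] (F ⊗[ℚ] K') :=
  Algebra.TensorProduct.map (AlgHom.id F F) (RingHom.toRatAlgHom (algebraMap K K'))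

private theorem bs_tmul (K' : Type) [Field K'] [NumberField K'] [Algebra K K']
    [Algebra ℚ F] (c : F) (k : K) :
    bs F K' (c ⊗ₜ[ℚ] k) = c ⊗ₜ[ℚ] (algebraMap K K' k) := by
  unfold bs
  rw [Algebra.TensorProduct.map_tmul]
  rfl

/-- every element of `F ⊗ K'` is `a + b θ` -/
private theorem exists_dec (K' : Type) [Field K'] [NumberField K'] [Algebra K K']
    (hdeg : Module.finrank K K' = 2) (x : Kˣ) (θ : K') (hθ : θ ^ 2 = algebraMap K K' (x : K))
    (hns : ¬ IsSquare x) [Algebra ℚ F] (t : F ⊗[ℚ] K') :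
    ∃ a b : F ⊗[ℚ] K, t = bs F K' a + bs F K' b * ((1 : F) ⊗ₜ[ℚ] θ) := by
  obtain ⟨a, b, hdec, -⟩ := coord K' hdeg x θ hθ hns
  induction t using TensorProduct.induction_on with
  | zero => exact ⟨0, 0, by simp⟩
  | tmul c k =>
    refine ⟨c ⊗ₜ[ℚ] (a k), c ⊗ₜ[ℚ] (b k), ?_⟩
    rw [bs_tmul, bs_tmul, Algebra.TensorProduct.tmul_mul_tmul, mul_one, ← TensorProduct.tmul_add,
      ← hdec k]
  | add t u ht hu =>
    obtain ⟨a1, b1, h1⟩ := ht
    obtain ⟨a2, b2, h2⟩ := hu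
    refine ⟨a1 + a2, b1 + b2, ?_⟩
    rw [map_add, map_add]
    nth_rewrite 1 [h1]
    nth_rewrite 1 [h2]
    ring

private theorem hom_bs (K' : Type) [Field K'] [NumberField K'] [Algebra K K'] [Algebra ℚ F]
    {S : Type} [CommRing S] [Algebra F S] (g : (F ⊗[ℚ] K') →ₐ[F] S) (φ : (F ⊗[ℚ] K) →ₐ[F] S)
    (h : ∀ k : K, g ((1 : F) ⊗ₜ[ℚ] (algebraMap K K' k)) = φ ((1 : F) ⊗ₜ[ℚ] k))
    (t : F ⊗[ℚ] K) : g (bs F K' t) = φ t := by
  induction t using TensorProduct.induction_on with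
  | zero => simp
  | tmul c k =>
    rw [bs_tmul]
    have h1 : c ⊗ₜ[ℚ] (algebraMap K K' k) = c • ((1 : F) ⊗ₜ[ℚ] (algebraMap K K' k)) := by
      rw [TensorProduct.smul_tmul', smul_eq_mul, mul_one]
    have h2 : c ⊗ₜ[ℚ] k = c • ((1 : F) ⊗ₜ[ℚ] k) := by
      rw [TensorProduct.smul_tmul', smul_eq_mul, mul_one]
    rw [h1, h2, map_smul, map_smul, h]
  | add t u ht hu => rw [map_add, map_add, map_add, ht, hu]

theorem iso_congr (K' : Type) [Field K'] [NumberField K'] [Algebra K K']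
    (hdeg : Module.finrank K K' = 2) (x : Kˣ) (θ : K') (hθ : θ ^ 2 = algebraMap K K' (x : K))
    (hns : ¬ IsSquare x)
    (K'' : Type) [Field K''] [NumberField K''] [Algebra K K''] (hdeg' : Module.finrank K K'' = 2)
    (y : Kˣ) (θ' : K'') (hθ' : θ' ^ 2 = algebraMap K K'' (y : K)) (hns' : ¬ IsSquare y)
    [Algebra ℚ F] (ρ : F ⊗[ℚ] K) (hρ : ρ ^ 2 = (1 : F) ⊗ₜ[ℚ] ((x / y : Kˣ) : K)) :
    Nonempty ((F ⊗[ℚ] K') ≃ₐ[F] (F ⊗[ℚ] K'')) := by
  -- the inverse of `ρ`
  set ρ' : F ⊗[ℚ] K := ρ * ((1 : F) ⊗ₜ[ℚ] ((y / x : Kˣ) : K)) with hρ'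
  have hxy : ((1 : F) ⊗ₜ[ℚ] ((x / y : Kˣ) : K)) * ((1 : F) ⊗ₜ[ℚ] ((y / x : Kˣ) : K)) =
      (1 : F ⊗[ℚ] K) := by
    rw [Algebra.TensorProduct.tmul_mul_tmul, mul_one, ← Units.val_mul, div_mul_div_cancel, div_self',
      Units.val_one]
    rfl
  have hinv : ρ * ρ' = 1 := by
    rw [hρ', ← mul_assoc, ← pow_two, hρ, hxy]
  have hρ'2 : ρ' ^ 2 = (1 : F) ⊗ₜ[ℚ] ((y / x : Kˣ) : K) := by
    calc ρ' ^ 2 = (ρ * ρ') * ((1 : F) ⊗ₜ[ℚ] ((y / x : Kˣ) : K)) := by
          rw [pow_two]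
          nth_rewrite 1 [hρ']
          ring
      _ = _ := by rw [hinv, one_mul]
  have hα : (bs F K'' ρ * ((1 : F) ⊗ₜ[ℚ] θ')) ^ 2 = bs F K'' ((1 : F) ⊗ₜ[ℚ] (x : K)) := by
    rw [mul_pow, ← map_pow, hρ, bs_tmul, bs_tmul, Algebra.TensorProduct.tmul_pow, one_pow, hθ',
      Algebra.TensorProduct.tmul_mul_tmul, mul_one, ← map_mul, ← Units.val_mul, div_mul_cancel]
  have hα' : (bs F K' ρ' * ((1 : F) ⊗ₜ[ℚ] θ)) ^ 2 = bs F K' ((1 : F) ⊗ₜ[ℚ] (y : K)) := by
    rw [mul_pow, ← map_pow, hρ'2, bs_tmul, bs_tmul, Algebra.TensorProduct.tmul_pow, one_pow, hθ,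
      Algebra.TensorProduct.tmul_mul_tmul, mul_one, ← map_mul, ← Units.val_mul, div_mul_cancel]
  obtain ⟨g, hg1, hg2⟩ := exists_lift F K' hdeg x θ hθ hns (bs F K'') _ hα
  obtain ⟨g', hg1', hg2'⟩ := exists_lift F K'' hdeg' y θ' hθ' hns' (bs F K') _ hα'
  have hb := hom_bs F K' g (bs F K'') hg1
  have hb' := hom_bs F K'' g' (bs F K') hg1'
  refine ⟨AlgEquiv.ofAlgHom g g' ?_ ?_⟩
  · refine AlgHom.ext fun t => ?_
    obtain ⟨a, b, rfl⟩ := exists_dec F K'' hdeg' y θ' hθ' hns' t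
    simp only [AlgHom.comp_apply, AlgHom.id_apply, map_add, map_mul, hb', hg2', hb, hg2]
    congr 2
    rw [← mul_assoc, ← map_mul, mul_comm ρ' ρ, hinv, map_one, one_mul]
  · refine AlgHom.ext fun t => ?_
    obtain ⟨a, b, rfl⟩ := exists_dec F K' hdeg x θ hθ hns t
    simp only [AlgHom.comp_apply, AlgHom.id_apply, map_add, map_mul, hb, hg2, hb', hg2']
    congr 2
    rw [← mul_assoc, ← map_mul, hinv, map_one, one_mul]

theorem iso_prod (K' : Type) [Field K'] [NumberField K'] [Algebra K K']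
    (hdeg : Module.finrank K K' = 2) (x : Kˣ) (θ : K') (hθ : θ ^ 2 = algebraMap K K' (x : K))
    (hns : ¬ IsSquare x)
    [Algebra ℚ F] (ρ : F ⊗[ℚ] K) (hρ : ρ ^ 2 = (1 : F) ⊗ₜ[ℚ] (x : K)) :
    Nonempty ((F ⊗[ℚ] K') ≃ₐ[F] ((F ⊗[ℚ] K) × (F ⊗[ℚ] K))) := by
  set ρ' : F ⊗[ℚ] K := ρ * ((1 : F) ⊗ₜ[ℚ] ((x⁻¹ : Kˣ) : K)) with hρ'
  have hinv : ρ * ρ' = 1 := by
    rw [hρ', ← mul_assoc, ← pow_two, hρ, Algebra.TensorProduct.tmul_mul_tmul, mul_one,
      ← Units.val_mul, mul_inv_cancel, Units.val_one]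
    rfl
  set φ : (F ⊗[ℚ] K) →ₐ[F] ((F ⊗[ℚ] K) × (F ⊗[ℚ] K)) :=
    AlgHom.prod (AlgHom.id F _) (AlgHom.id F _) with hφ
  have hφa : ∀ c, φ c = (c, c) := fun c => rfl
  have hα : ((ρ, -ρ) : (F ⊗[ℚ] K) × (F ⊗[ℚ] K)) ^ 2 = φ ((1 : F) ⊗ₜ[ℚ] (x : K)) := by
    rw [hφa, Prod.pow_mk, neg_sq, hρ]
  obtain ⟨g, hg1, hg2⟩ := exists_lift F K' hdeg x θ hθ hns φ _ hα
  have hb := hom_bs F K' g φ hg1
  have hval : ∀ a b : F ⊗[ℚ] K, g (bs F K' a + bs F K' b * ((1 : F) ⊗ₜ[ℚ] θ)) =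
      (a + b * ρ, a - b * ρ) := by
    intro a b
    rw [map_add, map_mul, hb, hb, hg2, hφa, hφa, Prod.mk_mul_mk, Prod.mk_add_mk, mul_neg,
      ← sub_eq_add_neg]
  have h2 : (2 : F) ≠ 0 := two_ne_zero
  refine ⟨AlgEquiv.ofBijective g ⟨?_, ?_⟩⟩
  · rw [injective_iff_map_eq_zero]
    intro t ht
    obtain ⟨a, b, rfl⟩ := exists_dec F K' hdeg x θ hθ hns t
    rw [hval, Prod.mk_eq_zero] at ht
    obtain ⟨h3, h4⟩ := ht
    have ha : (2 : F) • a = 0 := by
      rw [two_smul]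
      linear_combination h3 + h4
    have hb2 : (2 : F) • b = 0 := by
      rw [two_smul]
      linear_combination (h3 - h4) * ρ' - 2 * b * hinv
    rw [(smul_eq_zero_iff_right h2).mp ha, (smul_eq_zero_iff_right h2).mp hb2]
    simp
  · rintro ⟨c, d⟩
    refine ⟨bs F K' ((2 : F)⁻¹ • (c + d)) +
      bs F K' ((2 : F)⁻¹ • ((c - d) * ρ')) * ((1 : F) ⊗ₜ[ℚ] θ), ?_⟩
    rw [hval, smul_mul_assoc, mul_assoc, mul_comm ρ' ρ, hinv, mul_one, ← smul_add, ← smul_sub]
    have e1 : c + d + (c - d) = (2 : F) • c := by rw [two_smul]; ring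
    have e2 : c + d - (c - d) = (2 : F) • d := by rw [two_smul]; ring
    rw [e1, e2, inv_smul_smul₀ h2, inv_smul_smul₀ h2]

end Pool.Agent.QD.N4
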