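import Pool.Agent.QD.ZDefs

/-!
# QD-N4-Real: real places of `K(√x)`

PLAN. `card_real`: the real places of a number field `F` correspond to the ring homomorphisms
`F →+* ℝ`: `InfinitePlace.mkReal` (equivalence between real embeddings into `ℂ` and real places),
`ComplexEmbedding.IsReal.embedding`, and `F →+* ℝ` composed with `ℝ → ℂ` gives exactly the real
embeddings.
`real_places'`: restriction `ψ ↦ ψ ∘ algebraMap K K'` maps `K' →+* ℝ` to `K →+* ℝ`.  If
`ψ θ = t` then `φ x = t^2 > 0` (`x ≠ 0`).  Given `φ` with `φ x > 0`, `ψ` is determined by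
`ψ θ = ± √(φ x)` (`K' = K(θ)`, every element is `a + b θ`) and both signs occur: `T^2 - x` is the
minimal polynomial of `θ` over `K` (`x` is not a square in `K`, degree `2`); `AdjoinRoot`/`PowerBasis.lift`
or an `AlgHom` from `IntermediateField.adjoin`.  So the fibre over `φ` has two elements if
`φ x > 0` and is empty otherwise.
-/

namespace Pool.Agent.QD.N4

open NumberField

theorem card_real (F : Type) [Field F] [NumberField F] :
    InfinitePlace.nrRealPlaces F = Nat.card (F →+* ℝ) := by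
  classical
  have h1 : InfinitePlace.nrRealPlaces F = Nat.card {w : InfinitePlace F // w.IsReal} := by
    rw [Nat.card_eq_fintype_card]
  rw [h1, ← Nat.card_congr (InfinitePlace.mkReal (K := F))]
  refine Nat.card_congr
    { toFun := fun φ => φ.2.embedding
      invFun := fun ψ => ⟨Complex.ofRealHom.comp ψ, ?_⟩
      left_inv := ?_
      right_inv := ?_ }
  · rw [ComplexEmbedding.isReal_iff]
    ext a
    simp [ComplexEmbedding.conjugate_coe_eq]
  · intro φ
    apply Subtype.ext
    ext a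
    exact ComplexEmbedding.IsReal.coe_embedding_apply φ.2 a
  · intro ψ
    ext a
    apply Complex.ofReal_injective
    exact ComplexEmbedding.IsReal.coe_embedding_apply _ a

variable {K : Type} [Field K] [NumberField K]

open Polynomial in
private theorem rl_minpoly {K' : Type} [Field K'] [Algebra K K'] (x : Kˣ) (θ : K')
    (hθ : θ ^ 2 = algebraMap K K' (x : K)) (hns : ¬ IsSquare x) :
    minpoly K θ = X ^ 2 - C (x : K) := by
  symm
  apply minpoly.eq_of_irreducible_of_monic
  · refine X_pow_sub_C_irreducible_of_prime Nat.prime_two fun b hb => hns ?_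
    have hb0 : b ≠ 0 := by
      rintro rfl
      have h2 : (x : K) = 0 := by
        rw [← hb]
        norm_num
      exact x.ne_zero h2
    refine ⟨Units.mk0 b hb0, Units.ext ?_⟩
    rw [Units.val_mul, Units.val_mk0, ← hb, sq]
  · simp [hθ]
  · exact monic_X_pow_sub_C _ two_ne_zero

private theorem rl_adjoin {K' : Type} [Field K'] [Algebra K K'] (hdeg : Module.finrank K K' = 2)
    (x : Kˣ) (θ : K') (hθ : θ ^ 2 = algebraMap K K' (x : K)) (hns : ¬ IsSquare x) :
    Algebra.adjoin K {θ} = (⊤ : Subalgebra K K') := by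
  haveI : FiniteDimensional K K' := Module.finite_of_finrank_pos (by omega)
  have h1 := (Field.primitive_element_iff_minpoly_natDegree_eq K θ).2 (by
    rw [rl_minpoly x θ hθ hns, hdeg, Polynomial.natDegree_X_pow_sub_C])
  rw [← IntermediateField.adjoin_simple_toSubalgebra_of_isAlgebraic
    (IsIntegral.of_finite K θ).isAlgebraic, h1, IntermediateField.top_toSubalgebra]

private noncomputable def rl_pb {K' : Type} [Field K'] [Algebra K K']
    (hdeg : Module.finrank K K' = 2) (x : Kˣ) (θ : K') (hθ : θ ^ 2 = algebraMap K K' (x : K))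
    (hns : ¬ IsSquare x) : PowerBasis K K' :=
  haveI : FiniteDimensional K K' := Module.finite_of_finrank_pos (by omega)
  PowerBasis.ofAdjoinEqTop (IsIntegral.of_finite K θ) (rl_adjoin hdeg x θ hθ hns)

private theorem rl_ex {K' : Type} [Field K'] [Algebra K K'] (hdeg : Module.finrank K K' = 2)
    (x : Kˣ) (θ : K') (hθ : θ ^ 2 = algebraMap K K' (x : K)) (hns : ¬ IsSquare x)
    (φ : K →+* ℝ) (t : ℝ) (ht : t ^ 2 = φ (x : K)) :
    ∃ ψ : K' →+* ℝ, ψ.comp (algebraMap K K') = φ ∧ ψ θ = t := by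
  letI : Algebra K ℝ := φ.toAlgebra
  have hgen : (rl_pb hdeg x θ hθ hns).gen = θ := rfl
  have h1 : Polynomial.aeval t (minpoly K (rl_pb hdeg x θ hθ hns).gen) = 0 := by
    rw [hgen, rl_minpoly x θ hθ hns]
    simp only [map_sub, map_pow, Polynomial.aeval_X, Polynomial.aeval_C]
    rw [ht]
    exact sub_self _
  refine ⟨((rl_pb hdeg x θ hθ hns).lift t h1).toRingHom, ?_, ?_⟩
  · ext a
    exact ((rl_pb hdeg x θ hθ hns).lift t h1).commutes a
  · exact (rl_pb hdeg x θ hθ hns).lift_gen t h1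

private theorem rl_uniq {K' : Type} [Field K'] [Algebra K K'] (hdeg : Module.finrank K K' = 2)
    (x : Kˣ) (θ : K') (hθ : θ ^ 2 = algebraMap K K' (x : K)) (hns : ¬ IsSquare x)
    (ψ ψ' : K' →+* ℝ) (h : ψ.comp (algebraMap K K') = ψ'.comp (algebraMap K K'))
    (ht : ψ θ = ψ' θ) : ψ = ψ' := by
  letI : Algebra K ℝ := (ψ.comp (algebraMap K K')).toAlgebra
  have hgen : (rl_pb hdeg x θ hθ hns).gen = θ := rfl
  let f : K' →ₐ[K] ℝ := { ψ with commutes' := fun r => rfl }
  let f' : K' →ₐ[K] ℝ := { ψ' with commutes' := fun r => (RingHom.congr_fun h r).symm }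
  have hff : f = f' := (rl_pb hdeg x θ hθ hns).algHom_ext (by rw [hgen]; exact ht)
  ext a
  exact AlgHom.congr_fun hff a

theorem real_places' (K' : Type) [Field K'] [NumberField K'] [Algebra K K']
    (hdeg : Module.finrank K K' = 2) (x : Kˣ) (θ : K') (hθ : θ ^ 2 = algebraMap K K' (x : K))
    (hns : ¬ IsSquare x) : InfinitePlace.nrRealPlaces K' =
    2 * Nat.card {φ : K →+* ℝ // 0 < φ (x : K)} := by
  have hθ0 : θ ≠ 0 := by
    rintro rfl
    have h1 : algebraMap K K' (x : K) = 0 := by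
      rw [← hθ]
      norm_num
    exact x.ne_zero ((map_eq_zero (algebraMap K K')).1 h1)
  have hsq : ∀ ψ : K' →+* ℝ, (ψ θ) ^ 2 = ψ.comp (algebraMap K K') (x : K) := by
    intro ψ
    rw [RingHom.comp_apply, ← hθ, map_pow]
  have hpos : ∀ ψ : K' →+* ℝ, 0 < ψ.comp (algebraMap K K') (x : K) := by
    intro ψ
    rw [← hsq]
    exact sq_pos_of_ne_zero ((map_ne_zero ψ).2 hθ0)
  rw [card_real, ← Nat.card_congr (Equiv.ofBijective
    (fun ψ : K' →+* ℝ => ((⟨ψ.comp (algebraMap K K'), hpos ψ⟩, decide (0 < ψ θ)) :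
      {φ : K →+* ℝ // 0 < φ (x : K)} × Bool)) ⟨?_, ?_⟩).symm, Nat.card_prod]
  · have h2 : Nat.card Bool = 2 := by simp
    rw [h2, mul_comm]
  · intro ψ ψ' h
    rw [Prod.mk.injEq, Subtype.mk.injEq] at h
    obtain ⟨h1, h2⟩ := h
    refine rl_uniq hdeg x θ hθ hns ψ ψ' h1 ?_
    have h3 : (ψ θ) ^ 2 = (ψ' θ) ^ 2 := by rw [hsq, hsq, h1]
    rcases sq_eq_sq_iff_eq_or_eq_neg.1 h3 with h4 | h4
    · exact h4
    · exfalso
      have h5 : ψ' θ ≠ 0 := (map_ne_zero ψ').2 hθ0
      rw [decide_eq_decide, h4] at h2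
      rcases lt_or_gt_of_ne h5 with h6 | h6
      · have h7 := h2.1 (by linarith)
        linarith
      · have h7 := h2.2 h6
        linarith
  · rintro ⟨⟨φ, hφ⟩, b⟩
    have hs : 0 < Real.sqrt (φ (x : K)) := Real.sqrt_pos.2 hφ
    cases b with
    | true =>
      obtain ⟨ψ, h1, h2⟩ := rl_ex hdeg x θ hθ hns φ (Real.sqrt (φ (x : K))) (Real.sq_sqrt hφ.le)
      refine ⟨ψ, ?_⟩
      rw [Prod.mk.injEq, Subtype.mk.injEq]
      refine ⟨h1, ?_⟩
      rw [h2, decide_eq_true hs]
    | false =>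
      obtain ⟨ψ, h1, h2⟩ := rl_ex hdeg x θ hθ hns φ (-Real.sqrt (φ (x : K)))
        (by rw [neg_sq, Real.sq_sqrt hφ.le])
      refine ⟨ψ, ?_⟩
      rw [Prod.mk.injEq, Subtype.mk.injEq]
      refine ⟨h1, ?_⟩
      rw [h2, decide_eq_false (by linarith)]

end Pool.Agent.QD.N4
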