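import Pool.Agent.QD.N4Defs
import Pool.Agent.HWR.LTExtA
import Pool.Agent.HWR.Quad

/-!
# QD-N4-Regroup: Euler products over `K'` regrouped over `K`

`regroup` PLAN: as in HWR/LTExtA.lean (`LT_ext`): the places of `K'` are the pairs (place `v` of
`K`, place over `v`) (`HeightOneSpectrum.under`), `Multipliable.tprod_sigma` (or the version used
there) over the fibres, each fibre finite, `tprod = finprod`.
`zeta_mul`: for `1 < Re w` the product of `(1 - N v ^ (-w))⁻¹` converges: `summable_nrm`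
(HWR/SumNrm.lean) and `‖(1 - z)⁻¹ - 1‖ ≤ 2 ‖z‖` for `‖z‖ ≤ 1/2` (`nrm v ≥ 2`), `multipliable` from
summability of norms of `f - 1` (as in `LT_ext`).
`ZP_quad'`: `regroup` with `G q = (1 - q^(-w))⁻¹`, `quad_types` and the definition of `ty`:
two primes of norm `q`: `ty = 1`; one prime of norm `q`: `ty = 0` (`q ≠ q^2`); one prime of norm
`q^2`: `ty = -1` and `(1 - (q^2)^(-w))⁻¹ = (1 - q^(-w))⁻¹ (1 + q^(-w))⁻¹`.
`LT_quad''`: the same from `LT_ext`.
-/

namespace Pool.Agent.QD.N4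

open NumberField IsDedekindDomain Pool.Agent.HWR

variable (K : Type) [Field K] [NumberField K]

theorem zeta_mul {w : ℂ} (hw : 1 < w.re) :
    Multipliable fun v : HeightOneSpectrum (𝓞 K) => (1 - (nrm v : ℂ) ^ (-w))⁻¹ := by
  have h1 : Summable fun v : HeightOneSpectrum (𝓞 K) => ‖(1 - (nrm v : ℂ) ^ (-w))⁻¹ - 1‖ := by
    refine Summable.of_nonneg_of_le (fun _ => norm_nonneg _) (fun v => ?_)
      ((summable_nrm K hw).mul_left 2)
    have hq0 : nrm v ≠ 0 := nrm_ne_zero v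
    have hq1 : nrm v ≠ 1 := nrm_ne_one v
    have hq : (2 : ℝ) ≤ (nrm v : ℝ) := by
      have : 2 ≤ nrm v := by omega
      exact_mod_cast this
    have hn : ‖(nrm v : ℂ) ^ (-w)‖ = (nrm v : ℝ) ^ (-w.re) := by
      rw [Complex.norm_natCast_cpow_of_pos (Nat.pos_of_ne_zero hq0), Complex.neg_re]
    have hle : (nrm v : ℝ) ^ (-w.re) ≤ 1 / 2 := by
      calc (nrm v : ℝ) ^ (-w.re) ≤ (nrm v : ℝ) ^ (-1 : ℝ) :=
            Real.rpow_le_rpow_of_exponent_le (by linarith) (by linarith)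
        _ = (nrm v : ℝ)⁻¹ := Real.rpow_neg_one _
        _ ≤ 1 / 2 := by
            rw [one_div]
            exact inv_anti₀ (by norm_num) hq
    set z : ℂ := (nrm v : ℂ) ^ (-w) with hz
    have hz1 : 1 / 2 ≤ ‖1 - z‖ := by
      have h2 := norm_sub_norm_le (1 : ℂ) z
      rw [norm_one, hn] at h2
      linarith
    have hne : (1 - z) ≠ 0 := by
      intro h0
      rw [h0, norm_zero] at hz1
      norm_num at hz1
    have h3 : (1 - z)⁻¹ - 1 = z * (1 - z)⁻¹ := by
      field_simp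
      ring
    rw [h3, norm_mul, norm_inv, hn, mul_comm]
    apply mul_le_mul_of_nonneg_right _ (by positivity)
    calc ‖1 - z‖⁻¹ ≤ (1 / 2 : ℝ)⁻¹ := inv_anti₀ (by norm_num) hz1
      _ = 2 := by norm_num
  have h4 := multipliable_one_add_of_summable h1
  simpa using h4

variable (K' : Type) [Field K'] [NumberField K'] [Algebra K K']

theorem regroup (G : ℕ → ℂ)
    (hG : Multipliable fun w : HeightOneSpectrum (𝓞 K') => G (nrm w)) :
    ∏' w : HeightOneSpectrum (𝓞 K'), G (nrm w) = ∏' v : HeightOneSpectrum (𝓞 K),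
      ∏ᶠ w ∈ v.asIdeal.primesOver (𝓞 K'), G (Ideal.absNorm w) := by
  let π : HeightOneSpectrum (𝓞 K') → HeightOneSpectrum (𝓞 K) :=
    fun w => HeightOneSpectrum.under (𝓞 K) w
  let f : ∀ v : HeightOneSpectrum (𝓞 K),
      {w : HeightOneSpectrum (𝓞 K') // π w = v} →
        v.asIdeal.primesOver (𝓞 K') := fun v w =>
    ⟨w.1.asIdeal, w.1.isPrime, ⟨(congrArg (fun x => x.asIdeal) w.2).symm⟩⟩
  have hf : ∀ v, Function.Bijective (f v) := by
    intro v
    constructor
    · intro w1 w2 h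
      have h1 : w1.1.asIdeal = w2.1.asIdeal := congrArg Subtype.val h
      exact Subtype.ext (HeightOneSpectrum.ext h1)
    · rintro ⟨P, hP⟩
      have hPb : P ≠ ⊥ := Ideal.ne_bot_of_mem_primesOver v.ne_bot hP
      have hu : HeightOneSpectrum.under (𝓞 K) (⟨P, hP.1, hPb⟩ : HeightOneSpectrum (𝓞 K')) = v := by
        apply HeightOneSpectrum.ext
        rw [HeightOneSpectrum.under_asIdeal]
        exact hP.2.over.symm
      exact ⟨⟨⟨P, hP.1, hPb⟩, hu⟩, rfl⟩
  have hfinS : ∀ v : HeightOneSpectrum (𝓞 K),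
      (v.asIdeal.primesOver (𝓞 K')).Finite := fun v =>
    have := v.isPrime.isMaximal v.ne_bot
    IsDedekindDomain.primesOver_finite v.asIdeal (𝓞 K')
  have hfin : ∀ v : HeightOneSpectrum (𝓞 K),
      Finite {w : HeightOneSpectrum (𝓞 K') // π w = v} := by
    intro v
    have := (hfinS v).to_subtype
    exact Finite.of_injective (f v) (hf v).1
  rw [← (Equiv.sigmaFiberEquiv π).tprod_eq]
  rw [Multipliable.tprod_sigma']
  · refine tprod_congr fun v => ?_
    have := (hfinS v).to_subtype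
    rw [← finprod_set_coe_eq_finprod_mem, ← tprod_eq_finprod
      (L := SummationFilter.unconditional (v.asIdeal.primesOver (𝓞 K'))) (Set.toFinite _),
      ← (Equiv.ofBijective (f v) (hf v)).tprod_eq]
    rfl
  · intro v
    have := hfin v
    exact multipliable_of_hasFiniteMulSupport (Set.toFinite _)
  · exact (Equiv.sigmaFiberEquiv π).multipliable_iff.2 hG

/-- the product over the places above `v`, by type -/
private theorem local_prod (G : ℕ → ℂ) (hdeg : Module.finrank K K' = 2)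
    (v : HeightOneSpectrum (𝓞 K)) :
    (ty K K' v = 1 ∧
      ∏ᶠ w ∈ v.asIdeal.primesOver (𝓞 K'), G (Ideal.absNorm w) = G (nrm v) * G (nrm v)) ∨
    (ty K K' v = -1 ∧
      ∏ᶠ w ∈ v.asIdeal.primesOver (𝓞 K'), G (Ideal.absNorm w) = G (nrm v ^ 2)) ∨
    (ty K K' v = 0 ∧
      ∏ᶠ w ∈ v.asIdeal.primesOver (𝓞 K'), G (Ideal.absNorm w) = G (nrm v)) := by
  rcases quad_types K K' hdeg v with ⟨hsp, hw⟩ | ⟨w, hw, hw2⟩
  · left
    refine ⟨by unfold ty; rw [if_pos hsp], ?_⟩
    obtain ⟨x, y, hxy, hS⟩ := Set.ncard_eq_two.mp hsp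
    have hx : Ideal.absNorm x = nrm v := hw x (by rw [hS]; simp)
    have hy : Ideal.absNorm y = nrm v := hw y (by rw [hS]; simp)
    rw [hS, finprod_mem_pair hxy, hx, hy]
  · have hns : ¬ Splits K K' v := by
      unfold Splits
      rw [hw, Set.ncard_singleton]
      norm_num
    right
    rcases hw2 with ⟨-, hn⟩ | ⟨-, hn⟩
    · right
      constructor
      · unfold ty
        rw [if_neg hns, if_neg]
        rintro ⟨w', hw', hn'⟩
        have h1 : w = w' := Set.singleton_injective (hw.symm.trans hw')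
        rw [← h1, hn] at hn'
        have h2 := nrm_ne_zero v
        have h3 := nrm_ne_one v
        have h4 : nrm v * 1 = nrm v * nrm v := by rw [mul_one, ← sq]; exact hn'
        exact h3 (Nat.eq_of_mul_eq_mul_left (Nat.pos_of_ne_zero h2) h4).symm
      · rw [hw, finprod_mem_singleton, hn]
    · left
      constructor
      · unfold ty
        rw [if_neg hns, if_pos ⟨w, hw, hn⟩]
      · rw [hw, finprod_mem_singleton, hn]

theorem ZP_quad' (hdeg : Module.finrank K K' = 2) {w : ℂ} (hw : 1 < w.re) :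
    ZP K' w = ∏' v : HeightOneSpectrum (𝓞 K), zf (nrm v) (ty K K' v) w := by
  unfold ZP
  rw [regroup K K' (fun q => (1 - (q : ℂ) ^ (-w))⁻¹) (zeta_mul K' hw)]
  refine tprod_congr fun v => ?_
  unfold zf
  rcases local_prod K K' (fun q => (1 - (q : ℂ) ^ (-w))⁻¹) hdeg v with ⟨h1, h2⟩ | ⟨h1, h2⟩ | ⟨h1, h2⟩
  · rw [h1, h2, Int.cast_one, one_mul]
  · rw [h1, h2]
    have h3 : ((nrm v ^ 2 : ℕ) : ℂ) ^ (-w) = (nrm v : ℂ) ^ (-w) * (nrm v : ℂ) ^ (-w) := by
      rw [Nat.cast_pow, sq, Complex.natCast_mul_natCast_cpow]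
    rw [h3, ← mul_inv]
    congr 1
    push_cast
    ring
  · rw [h1, h2, Int.cast_zero, zero_mul, sub_zero, inv_one, mul_one]

theorem LT_quad'' (hdeg : Module.finrank K K' = 2) {a : ℕ → ℝ}
    (ha : ∀ q : ℕ, |a q| ≤ 2 * Real.sqrt q) (T : Finset ℕ)
    (hT : ∀ p : ℕ, p.Prime → p < 101 → p ∈ T) {s : ℂ} (hs : 3 / 2 < s.re) :
    LT K' a T s = ∏' v : {v : HeightOneSpectrum (𝓞 K) // Away K T v},
      FF a (nrm v.1) (ty K K' v.1) s := by
  rw [LT_ext K K' ha T hT hs]
  refine tprod_congr fun v => ?_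
  rcases local_prod K K' (fun q => efac a q s) hdeg v.1 with ⟨h1, h2⟩ | ⟨h1, h2⟩ | ⟨h1, h2⟩
  · rw [h1, h2]
    unfold FF F1
    rw [if_pos (by norm_num), sq]
  · rw [h1, h2]
    unfold FF Fm
    rw [if_neg (by norm_num), if_pos (by norm_num)]
  · rw [h1, h2]
    unfold FF
    rw [if_neg (by norm_num), if_neg (by norm_num)]

end Pool.Agent.QD.N4
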