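import Mathlib

/-!
# QD-N4-Hensel: a quadratic Hensel lemma in `ℤ_p ⊗ 𝓞`

PLAN. `R = ℤ_[p] ⊗[ℤ] A` is a commutative ring, finite and free as a `ℤ_[p]`-module (base change of
a finite free `ℤ`-module).  Either show `IsAdicComplete (Ideal.span {(p : R)}) R` (from
`IsAdicComplete (maximalIdeal ℤ_[p]) ℤ_[p]` and a basis) and use Mathlib's
`IsAdicComplete.henselianRing` with the polynomial `T^2 + T - p c`, root `0`, derivative `1`; or by
hand: the sequence `t_0 = 0`, `t_(n+1) = p c - t_n^2` satisfies `t_n ∈ p R`,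
`t_(n+1) - t_n ∈ p^(n+1) R`; in coordinates with respect to a `ℤ_[p]`-basis it is a Cauchy sequence in
`ℤ_[p]^n`; its limit `t` satisfies `t + t^2 = p c` because `R` is `p`-adically separated
(multiplication is continuous in coordinates: `t = t_n + p^n s_n`).
-/

namespace Pool.Agent.QD.N4

open scoped TensorProduct

/-- Membership in `(l) ^ n` in terms of coordinates. -/
private theorem hm_mem_span_pow_iff_coord (l : ℕ) [Fact l.Prime] (O : Type) [CommRing O] [Algebra ℤ_[l] O]
    {ι : Type} [Fintype ι] (b : Module.Basis ι ℤ_[l] O) (n : ℕ) (x : O) :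
    x ∈ (Ideal.span {(l : O)} ^ n • ⊤ : Ideal O) ↔
      ∀ i, b.repr x i ∈ (IsLocalRing.maximalIdeal ℤ_[l] ^ n • ⊤ : Ideal ℤ_[l]) := by
  have e1 : (Ideal.span {(l : O)} ^ n • ⊤ : Ideal O) = Ideal.span {(l : O) ^ n} := by
    rw [Ideal.span_singleton_pow, smul_eq_mul, Ideal.mul_top]
  have e2 : (IsLocalRing.maximalIdeal ℤ_[l] ^ n • ⊤ : Ideal ℤ_[l])
      = Ideal.span {(l : ℤ_[l]) ^ n} := by
    rw [PadicInt.maximalIdeal_eq_span_p, Ideal.span_singleton_pow, smul_eq_mul, Ideal.mul_top]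
  rw [e1, e2]
  simp only [Ideal.mem_span_singleton]
  have e3 : ∀ y : O, (l : O) ^ n * y = ((l : ℤ_[l]) ^ n) • y := by
    intro y
    rw [Algebra.smul_def, map_pow, map_natCast]
  constructor
  · rintro ⟨y, rfl⟩ i
    rw [e3, map_smul, Finsupp.smul_apply, smul_eq_mul]
    exact dvd_mul_right _ _
  · intro h
    choose c hc using h
    refine ⟨∑ i, c i • b i, ?_⟩
    rw [e3]
    apply b.repr.injective
    ext i
    rw [map_smul, Finsupp.smul_apply, smul_eq_mul, hc i]
    congr 1
    rw [Module.Basis.repr_sum_self]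

private theorem hm_isAdicComplete_of_basis (l : ℕ) [Fact l.Prime] (O : Type) [CommRing O] [Algebra ℤ_[l] O]
    {ι : Type} [Fintype ι] (b : Module.Basis ι ℤ_[l] O) :
    IsAdicComplete (Ideal.span {(l : O)}) O := by
  have hZ : IsAdicComplete (IsLocalRing.maximalIdeal ℤ_[l]) ℤ_[l] := inferInstance
  refine { haus' := ?_, prec' := ?_ }
  · intro x hx
    apply b.repr.injective
    ext i
    rw [map_zero, Finsupp.zero_apply]
    apply hZ.haus'
    intro n
    have h1 := hx n
    rw [SModEq.zero] at h1 ⊢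
    exact (hm_mem_span_pow_iff_coord l O b n x).1 h1 i
  · intro f hf
    have h2 : ∀ i, ∃ L : ℤ_[l], ∀ n, b.repr (f n) i ≡ L
        [SMOD (IsLocalRing.maximalIdeal ℤ_[l] ^ n • ⊤ : Submodule ℤ_[l] ℤ_[l])] := by
      intro i
      apply hZ.prec'
      intro m n hmn
      have h1 := hf hmn
      rw [SModEq.sub_mem] at h1 ⊢
      have h3 := (hm_mem_span_pow_iff_coord l O b m _).1 h1 i
      rwa [map_sub, Finsupp.sub_apply] at h3
    choose L hL using h2
    refine ⟨∑ i, L i • b i, ?_⟩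
    intro n
    rw [SModEq.sub_mem]
    apply (hm_mem_span_pow_iff_coord l O b n _).2
    intro i
    have h4 := hL i n
    rw [SModEq.sub_mem] at h4
    rw [map_sub, Finsupp.sub_apply, Module.Basis.repr_sum_self]
    exact h4

open Polynomial in
private theorem hm_root (R : Type) [CommRing R] (π c : R)
    [H : HenselianRing R (Ideal.span {π})] : ∃ t : R, t ^ 2 + t = π * c := by
  by_cases hnt : Nontrivial R
  swap
  · rw [not_nontrivial_iff_subsingleton] at hnt
    exact ⟨0, Subsingleton.elim _ _⟩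
  obtain ⟨t, ht, -⟩ := H.is_henselian (X ^ 2 - (-X + C (π * c)) : R[X])
    ((Polynomial.monic_X_pow 2).sub_of_left (by
      rw [Polynomial.degree_X_pow]
      apply lt_of_le_of_lt (Polynomial.degree_add_le _ _)
      apply max_lt
      · rw [Polynomial.degree_neg, Polynomial.degree_X]
        norm_num
      · apply lt_of_le_of_lt Polynomial.degree_C_le
        norm_num)) 0 (by
      simp only [eval_sub, eval_add, eval_pow, eval_X, eval_C, eval_neg]
      rw [Ideal.mem_span_singleton]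
      exact ⟨-c, by ring⟩) (by
      simp only [derivative_sub, derivative_add, derivative_X_pow, derivative_neg, derivative_X,
        derivative_C, eval_sub, eval_add, eval_mul, eval_C, eval_pow, eval_X, eval_neg, eval_one]
      have : ((2 : ℕ) : R) * 0 ^ (2 - 1) - (-1 + eval 0 (0 : R[X])) = 1 := by simp
      rw [this, map_one]
      exact isUnit_one)
  refine ⟨t, ?_⟩
  rw [IsRoot.def] at ht
  simp only [eval_sub, eval_add, eval_pow, eval_X, eval_C, eval_neg] at ht
  linear_combination ht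

theorem hensel (p : ℕ) [Fact p.Prime] (A : Type) [CommRing A] [Module.Free ℤ A]
    [Module.Finite ℤ A] (c : ℤ_[p] ⊗[ℤ] A) : ∃ t : ℤ_[p] ⊗[ℤ] A, t ^ 2 + t = (p : ℤ_[p] ⊗[ℤ] A) * c := by
  have hc : IsAdicComplete (Ideal.span {(p : ℤ_[p] ⊗[ℤ] A)}) (ℤ_[p] ⊗[ℤ] A) :=
    hm_isAdicComplete_of_basis p (ℤ_[p] ⊗[ℤ] A)
      (Module.Free.chooseBasis ℤ_[p] (ℤ_[p] ⊗[ℤ] A))
  exact hm_root _ _ _

end Pool.Agent.QD.N4
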