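import Pool.Agent.QD.N4.Close
import Pool.Agent.QD.N4.Hensel

/-!
# QD-N4-Sqrt: local squares at all places over `p` are squares in `ℚ_p ⊗ K`
-/

namespace Pool.Agent.QD.N4

open NumberField IsDedekindDomain Pool.Agent.HWR

open scoped TensorProduct

variable {K : Type} [Field K] [NumberField K]

private theorem sq_finite (p : ℕ) (hp : p ≠ 0) :
    {v : HeightOneSpectrum (𝓞 K) | ((p : ℕ) : 𝓞 K) ∈ v.asIdeal}.Finite := by
  have h0 : Ideal.span {((p : ℕ) : 𝓞 K)} ≠ 0 := by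
    rw [Ne, Ideal.zero_eq_bot, Ideal.span_singleton_eq_bot]
    exact_mod_cast hp
  refine (Ideal.finite_factors h0).subset fun v hv => ?_
  change v.asIdeal ∣ _
  rw [Ideal.dvd_span_singleton]
  exact hv

private theorem sq_bound (v : HeightOneSpectrum (𝓞 K)) (x : K) (hx : x ≠ 0) :
    ∃ k : ℕ, ∀ M : ℕ, k ≤ M → (WithZero.exp (-(M : ℤ)) : WithZero (Multiplicative ℤ)) ≤
      v.valuation K x := by
  have h0 : v.valuation K x ≠ 0 := (Valuation.ne_zero_iff _).2 hx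
  refine ⟨(-WithZero.log (v.valuation K x)).toNat, fun M hM => ?_⟩
  rw [← WithZero.exp_log h0, WithZero.exp_le_exp]
  have := Int.toNat_le.1 hM
  linarith

/-- ring homomorphisms out of `A ⊗ B` -/
private theorem sq_lift (A B C : Type) [CommRing A] [CommRing B] [CommRing C] (f : A →+* C)
    (g : B →+* C) : ∃ J : A ⊗[ℤ] B →+* C, ∀ (x : A) (a : B), J (x ⊗ₜ[ℤ] a) = f x * g a :=
  ⟨(Algebra.TensorProduct.lift (f.toIntAlgHom) (g.toIntAlgHom)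
    (fun _ _ => Commute.all _ _)).toRingHom, fun _ _ => rfl⟩

/-- the map `ℤ_p ⊗ 𝓞 K → ℚ_p ⊗ K` -/
private theorem exists_sqJ (K : Type) [Field K] [NumberField K] (p : ℕ) [Fact p.Prime] :
    ∃ J : ℤ_[p] ⊗[ℤ] (𝓞 K) →+* ℚ_[p] ⊗[ℚ] K, ∀ (x : ℤ_[p]) (a : 𝓞 K),
      J (x ⊗ₜ[ℤ] a) = (x : ℚ_[p]) ⊗ₜ[ℚ] (a : K) := by
  obtain ⟨J, hJ⟩ := sq_lift ℤ_[p] (𝓞 K) (ℚ_[p] ⊗[ℚ] K)
    ((algebraMap ℚ_[p] (ℚ_[p] ⊗[ℚ] K)).comp (PadicInt.Coe.ringHom (p := p)))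
    ((Algebra.TensorProduct.includeRight (R := ℚ) (A := ℚ_[p]) (B := K)).toRingHom.comp
        (algebraMap (𝓞 K) K))
  refine ⟨J, fun x a => ?_⟩
  rw [hJ]
  change ((x : ℚ_[p]) ⊗ₜ[ℚ] (1 : K)) * ((1 : ℚ_[p]) ⊗ₜ[ℚ] (a : K)) = _
  rw [Algebra.TensorProduct.tmul_mul_tmul, mul_one, one_mul]

theorem exists_sqrt (p : ℕ) [Fact p.Prime] (z : Kˣ)
    (hz : ∀ v : HeightOneSpectrum (𝓞 K), ((p : ℕ) : 𝓞 K) ∈ v.asIdeal → LSq v z) :
    ∃ ρ : ℚ_[p] ⊗[ℚ] K, ρ ^ 2 = (1 : ℚ_[p]) ⊗ₜ[ℚ] (z : K) := by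
  classical
  have hp : p.Prime := Fact.out
  have hfin := sq_finite (K := K) p hp.ne_zero
  have hpK : (p : K) ≠ 0 := by exact_mod_cast hp.ne_zero
  have h4p : (4 * (p : K)) ≠ 0 := mul_ne_zero (by norm_num) hpK
  obtain ⟨J, hJt⟩ := exists_sqJ K p
  choose k hk using fun v : HeightOneSpectrum (𝓞 K) => sq_bound v (4 * (p : K)) h4p
  obtain ⟨ρ0, hρ0⟩ := close_simul hfin.toFinset z (fun v hv => hz v (by simpa using hv))
    (hfin.toFinset.sup k)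
  obtain ⟨u, hu⟩ : ∃ u : K, u = ((z : K) * (ρ0 : K) ^ 2 - 1) / (4 * (p : K)) := ⟨_, rfl⟩
  have hu1 : (z : K) * (ρ0 : K) ^ 2 = 1 + 4 * (p : K) * u := by
    rw [hu]
    field_simp
    ring
  obtain ⟨m, c, hm, hc⟩ := int_at_p p hp u (fun v hv => by
    have hv' : v ∈ hfin.toFinset := by simpa using hv
    have h1 := hρ0 v hv'
    unfold closeOne at h1
    have h2 := h1.trans (hk v _ (Finset.le_sup hv'))
    rw [hu, map_div₀]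
    exact div_le_one_of_le₀ h2 zero_le')
  -- the unit `m`
  obtain ⟨μ, hμ⟩ : ∃ μ : ℤ_[p], μ * (m : ℤ_[p]) = 1 := by
    have h1 : IsUnit (m : ℤ_[p]) := by
      rw [PadicInt.isUnit_iff]
      by_contra hne
      have h2 : ‖((m : ℤ) : ℤ_[p])‖ < 1 := by
        have := PadicInt.norm_le_one (m : ℤ_[p])
        rw [Int.cast_natCast]
        exact lt_of_le_of_ne this hne
      rw [PadicInt.norm_int_lt_one_iff_dvd] at h2
      exact hm (by exact_mod_cast h2)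
    obtain ⟨w, hw⟩ := h1
    exact ⟨(w⁻¹ : (ℤ_[p])ˣ), by rw [← hw]; exact w.inv_mul⟩
  obtain ⟨t, ht⟩ := hensel p (𝓞 K) (μ ⊗ₜ[ℤ] c)
  have hJ : (J (1 + 2 * t)) ^ 2 = (1 : ℚ_[p]) ⊗ₜ[ℚ] ((z : K) * (ρ0 : K) ^ 2) := by
    have h1 : (1 + 2 * t) ^ 2 = 1 + 4 * ((p : ℤ_[p] ⊗[ℤ] 𝓞 K) * (μ ⊗ₜ[ℤ] c)) := by
      rw [← ht]
      ring
    have h2 : ((μ : ℤ_[p]) : ℚ_[p]) * (m : ℚ_[p]) = 1 := by
      have := congrArg (fun x : ℤ_[p] => (x : ℚ_[p])) hμ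
      simpa using this
    have h3 : ((μ : ℤ_[p]) : ℚ_[p]) ⊗ₜ[ℚ] (c : K) = (1 : ℚ_[p]) ⊗ₜ[ℚ] u := by
      rw [← hc, ← h2]
      have : (m : K) * u = (m : ℚ) • u := by
        rw [Algebra.smul_def]
        simp
      rw [this, TensorProduct.tmul_smul, TensorProduct.smul_tmul']
      congr 1
      rw [Algebra.smul_def]
      simp [mul_comm]
    rw [← map_pow, h1, map_add, map_one, map_mul, map_mul, hJt, h3, map_ofNat, map_natCast,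
      hu1, TensorProduct.tmul_add, ← Algebra.TensorProduct.one_def]
    congr 1
    have h5 : (1 : ℚ_[p]) ⊗ₜ[ℚ] (4 * (p : K) * u) =
        ((1 : ℚ_[p]) ⊗ₜ[ℚ] (4 * (p : K))) * ((1 : ℚ_[p]) ⊗ₜ[ℚ] u) := by
      rw [Algebra.TensorProduct.tmul_mul_tmul, one_mul]
    have h6 : (1 : ℚ_[p]) ⊗ₜ[ℚ] (4 * (p : K)) = (4 : ℚ_[p] ⊗[ℚ] K) * (p : ℚ_[p] ⊗[ℚ] K) := by
      have : (Algebra.TensorProduct.includeRight (R := ℚ) (A := ℚ_[p]) (B := K)) (4 * (p : K)) =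
        (4 : ℚ_[p] ⊗[ℚ] K) * (p : ℚ_[p] ⊗[ℚ] K) := by
        rw [map_mul, map_ofNat, map_natCast]
      exact this
    rw [h5, h6]
    ring
  refine ⟨J (1 + 2 * t) * ((1 : ℚ_[p]) ⊗ₜ[ℚ] ((ρ0 : K)⁻¹)), ?_⟩
  rw [mul_pow, hJ, Algebra.TensorProduct.tmul_pow, Algebra.TensorProduct.tmul_mul_tmul, one_pow,
    one_mul]
  congr 1
  have : (ρ0 : K) ≠ 0 := ρ0.ne_zero
  field_simp

end Pool.Agent.QD.N4
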