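import Pool.Agent.QD.N4.Val
import Pool.Agent.HWR.Quad

/-!
# QD-N4-SplitSq: over a local square the place splits

PLAN. By `quad_types` it is enough to exclude one prime `w` over `v` (`W` the height one prime).
Let `e = 1` or `2`, `v 𝓞 K' = W^e`.  Let `E` be the order of `4` at `v`
(`v.valuation K 4 = exp (-E)`); take `r` with `x r^2 - 1` of valuation `≤ exp (-(E+1))`, and
`z = r θ - 1`, `z' = - r θ - 1 = τ z` (`exists_tau`).  `z z' = 1 - x r^2` has `W`-valuation
`≤ (exp (-(E+1)))^e` (`val_over`) and `|z| = |z'|` (`val_tau`), so `|z|^2 ≤ exp (-(E+1) e)`; as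
`z + z' = -2`, `|2|_W ≤ |z|`, so `|4|_W ≤ |z|^2 ≤ exp (-(E+1) e)`, but `|4|_W = exp (-E e)`.
-/

namespace Pool.Agent.QD.N4

open NumberField IsDedekindDomain Pool.Agent.HWR

variable {K : Type} [Field K] [NumberField K] (K' : Type) [Field K'] [NumberField K']
  [Algebra K K'] (hdeg : Module.finrank K K' = 2)
  (x : Kˣ) (θ : K') (hθ : θ ^ 2 = algebraMap K K' (x : K)) (hns : ¬ IsSquare x)

include hdeg hθ hns

theorem splits_of_LSq (v : HeightOneSpectrum (𝓞 K)) (hx : LSq v x) : Splits K K' v := by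
  have h40 : (4 : K) ≠ 0 := by norm_num
  have key : ∀ w : Ideal (𝓞 K'), v.asIdeal.primesOver (𝓞 K') = {w} → ∀ e : ℕ, 1 ≤ e →
      v.asIdeal.map (algebraMap (𝓞 K) (𝓞 K')) = w ^ e → False := by
    intro w hw e he hmap
    have hwP : w ∈ v.asIdeal.primesOver (𝓞 K') := by
      rw [hw]
      rfl
    let W : HeightOneSpectrum (𝓞 K') := ⟨w, hwP.1, qa_ne_bot hwP⟩
    have hmap' : v.asIdeal.map (algebraMap (𝓞 K) (𝓞 K')) = W.asIdeal ^ e * 1 := by
      rw [mul_one]
      exact hmap
    have hJ : ¬ W.asIdeal ∣ 1 := by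
      intro h
      rw [Ideal.dvd_iff_le, Ideal.one_eq_top, top_le_iff] at h
      exact W.isPrime.ne_top h
    have hW : v.asIdeal.primesOver (𝓞 K') = {W.asIdeal} := hw
    have hov := val_over he hmap' hJ
    obtain ⟨τ, hτ⟩ := exists_tau hdeg hθ hns
    obtain ⟨k, hk⟩ : ∃ k : ℕ, ordK v (Units.mk0 (4 : K) h40) < k :=
      ⟨(ordK v (Units.mk0 (4 : K) h40)).toNat + 1, by omega⟩
    obtain ⟨r, hr⟩ := hx k
    unfold closeOne at hr
    set z : K' := algebraMap K K' (r : K) * θ - 1 with hz
    have hτz : τ z = - (algebraMap K K' (r : K) * θ) - 1 := by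
      rw [hz, map_sub, map_mul, map_one, hτ, AlgEquiv.commutes]
      ring
    have h1 : W.valuation K' z ^ 2 ≤ WithZero.exp (-(k : ℤ)) ^ e := by
      have h2 : z * τ z = algebraMap K K' (-((x : K) * (r : K) ^ 2 - 1)) := by
        rw [hτz, hz, map_neg, map_sub, map_mul, map_pow, map_one, ← hθ]
        ring
      have h3 : W.valuation K' z ^ 2 = W.valuation K' (z * τ z) := by
        rw [map_mul, val_tau hW, sq]
      rw [h3, h2, hov, Valuation.map_neg]
      exact pow_le_pow_left' hr e
    have h4 : W.valuation K' (2 : K') ≤ W.valuation K' z := by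
      have h5 : (2 : K') = -(z + τ z) := by
        rw [hτz, hz]
        ring
      rw [h5, Valuation.map_neg]
      exact (W.valuation K').map_add_le le_rfl (by rw [val_tau hW])
    have h6 : W.valuation K' (4 : K') ≤ WithZero.exp (-(k : ℤ)) ^ e := by
      have h5 : (4 : K') = 2 * 2 := by norm_num
      rw [h5, map_mul, ← sq]
      exact (pow_le_pow_left' h4 2).trans h1
    have h7 : W.valuation K' (4 : K') = v.valuation K 4 ^ e := by
      rw [← hov, map_ofNat (algebraMap K K') 4]
    rw [h7] at h6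
    have h8 : WithZero.exp (-(k : ℤ)) < v.valuation K 4 := by
      by_contra hlt
      rw [not_lt] at hlt
      have := (val_le_iff v (Units.mk0 (4 : K) h40) k).1 hlt
      omega
    exact absurd h6 (not_le.2 (pow_lt_pow_left₀ h8 zero_le (by omega)))
  rcases quad_types K K' hdeg v with h | ⟨w, hw, h | h⟩
  · exact h.1
  · exact (key w hw 2 (by omega) h.1).elim
  · exact (key w hw 1 le_rfl (by rw [pow_one]; exact h.1)).elim

end Pool.Agent.QD.N4
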