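import Pool.Agent.QD.N4.Val
import Pool.Agent.HWR.Quad

/-!
# QD-N4-SqSplit: at a place which splits `x` is a local square

PLAN. Let `W` be one of the two primes over `v`; `N W = N v` (`quad_types`), `v 𝓞 K' = W J` with
`W ∤ J` (the other prime `J`; norms: `N(v 𝓞 K') = N v ^ 2`, compare `split_not_dvd` in
HWR/Discr.lean).  So `|y|_W = |y|_v` for `y : K` (`val_over`, `e = 1`).
Density: for every `z : K'` with `|z|_W ≤ 1` and every `k` there is `y : 𝓞 K` with
`|z - y|_W ≤ exp (-k)`: the map `𝓞 K / v^k → 𝓞 K' / W^k` is injective (`W^k ∩ 𝓞 K = v^k` by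
`val_over`) and both sides have `(N v)^k` elements (`Ideal.absNorm` is multiplicative,
`absNorm = card of the quotient`), so it is surjective; and `z` is approximated by elements of
`𝓞 K'` (`HeightOneSpectrum.exists_valuation_sub_lt_of_integer`).
Now given `k`: let `|θ|_W = exp (-j)` (`j : ℤ`, `θ ≠ 0`), choose `c : Kˣ` with `|c|_v = exp j`
(power of a uniformizer, `valuation_exists_uniformizer`); `c θ` is a unit at `W`; take `y : 𝓞 K`
with `|c θ - y|_W ≤ exp (-(k + 1))`, so `|y|_W = 1`, `y ≠ 0`; then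
`|c^2 x - y^2|_v = |c θ - y|_W |c θ + y|_W ≤ exp (-k)`, and `r = c / y` works.
-/

namespace Pool.Agent.QD.N4

open NumberField IsDedekindDomain Pool.Agent.HWR

variable {K : Type} [Field K] [NumberField K] (K' : Type) [Field K'] [NumberField K']
  [Algebra K K'] (hdeg : Module.finrank K K' = 2)
  (x : Kˣ) (θ : K') (hθ : θ ^ 2 = algebraMap K K' (x : K))

include hdeg in
private theorem split_data (v : HeightOneSpectrum (𝓞 K)) (hs : Splits K K' v) :
    ∃ (W : HeightOneSpectrum (𝓞 K')) (J : Ideal (𝓞 K')),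
      v.asIdeal.map (algebraMap (𝓞 K) (𝓞 K')) = W.asIdeal ^ 1 * J ∧ ¬ W.asIdeal ∣ J ∧
      W.asIdeal.comap (algebraMap (𝓞 K) (𝓞 K')) = v.asIdeal ∧
      Ideal.absNorm W.asIdeal = Ideal.absNorm v.asIdeal := by
  classical
  have hnorm : ∀ w ∈ v.asIdeal.primesOver (𝓞 K'), Ideal.absNorm w = nrm v := by
    rcases quad_types K K' hdeg v with h | ⟨w, hw, _⟩
    · exact h.2
    · exfalso
      unfold Splits at hs
      rw [hw, Set.ncard_singleton] at hs
      omega
  obtain ⟨P, Q, hne, he⟩ := Set.ncard_eq_two.1 hs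
  have hP : P ∈ v.asIdeal.primesOver (𝓞 K') := by rw [he]; simp
  have hQ : Q ∈ v.asIdeal.primesOver (𝓞 K') := by rw [he]; simp
  have hvm : v.asIdeal.IsMaximal := v.isMaximal
  have hmax : ∀ R ∈ v.asIdeal.primesOver (𝓞 K'), R.IsMaximal := by
    intro R hR
    obtain ⟨h1, h2⟩ := hR
    exact Ideal.IsMaximal.of_liesOver_isMaximal R v.asIdeal
  have hdvd : ∀ R ∈ v.asIdeal.primesOver (𝓞 K'),
      R ∣ v.asIdeal.map (algebraMap (𝓞 K) (𝓞 K')) := by
    intro R hR
    obtain ⟨h1, h2⟩ := hR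
    rw [Ideal.dvd_iff_le, Ideal.map_le_iff_le_comap]
    exact h2.over.le
  have hPm := hmax P hP
  have hQm := hmax Q hQ
  have hc : IsCoprime P Q := Ideal.isCoprime_of_isMaximal hne
  obtain ⟨J, hJ⟩ := hc.mul_dvd (hdvd P hP) (hdvd Q hQ)
  have hrank : Module.finrank (𝓞 K) (𝓞 K') = 2 := by
    rw [← hdeg, IsFractionRing.finrank_eq (𝓞 K) K (𝓞 K') K']
  have hn : Ideal.absNorm (v.asIdeal.map (algebraMap (𝓞 K) (𝓞 K'))) = nrm v ^ 2 := by
    rw [Ideal.absNorm_algebraMap, hrank, nrm]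
  rw [hJ, map_mul, map_mul, hnorm P hP, hnorm Q hQ, ← pow_two] at hn
  have hpos : 0 < nrm v := by
    unfold nrm
    rw [Nat.pos_iff_ne_zero, Ideal.absNorm_ne_zero_iff]
    exact Ring.HasFiniteQuotients.finiteQuotient v.ne_bot
  have hJ1 : Ideal.absNorm J = 1 :=
    Nat.eq_of_mul_eq_mul_left (pow_pos hpos 2) (by rw [hn, mul_one])
  have hJ2 : J = ⊤ := Ideal.absNorm_eq_one_iff.1 hJ1
  rw [hJ2, Ideal.mul_top] at hJ
  have hP0 : P ≠ ⊥ := Ideal.ne_bot_of_mem_primesOver v.ne_bot hP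
  refine ⟨⟨P, hP.1, hP0⟩, Q, ?_, ?_, ?_, hnorm P hP⟩
  · rw [hJ, pow_one]
  · intro h
    have h1 : Q ≤ P := Ideal.dvd_iff_le.1 h
    exact hne (hQm.eq_of_le hPm.ne_top h1).symm
  · exact hP.2.over.symm

include hdeg in
private theorem approx_step (v : HeightOneSpectrum (𝓞 K)) (W : HeightOneSpectrum (𝓞 K'))
    (hcom : W.asIdeal.comap (algebraMap (𝓞 K) (𝓞 K')) = v.asIdeal)
    (hno : Ideal.absNorm W.asIdeal = Ideal.absNorm v.asIdeal) (z : K')
    (hz : W.valuation K' z ≤ 1) :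
    ∃ y : 𝓞 K, W.valuation K' (z - algebraMap K K' (algebraMap (𝓞 K) K y)) ≤
      WithZero.exp (-((1 : ℕ) : ℤ)) := by
  classical
  obtain ⟨a, ha⟩ := W.exists_valuation_sub_lt_of_integer hz
    (γ := Units.mk0 (WithZero.exp (-((1 : ℕ) : ℤ))) (by simp))
  let f : 𝓞 K ⧸ v.asIdeal →+* 𝓞 K' ⧸ W.asIdeal :=
    Ideal.quotientMap W.asIdeal (algebraMap (𝓞 K) (𝓞 K')) hcom.ge
  have hinj : Function.Injective f := Ideal.quotientMap_injective' hcom.le
  have hfin1 : Finite (𝓞 K' ⧸ W.asIdeal) := Ring.HasFiniteQuotients.finiteQuotient W.ne_bot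
  have hcard : Nat.card (𝓞 K' ⧸ W.asIdeal) ≤ Nat.card (𝓞 K ⧸ v.asIdeal) := by
    rw [Ideal.absNorm_apply, Ideal.absNorm_apply, Submodule.cardQuot_apply,
      Submodule.cardQuot_apply] at hno
    exact hno.le
  have hbij := hinj.bijective_of_nat_card_le hcard
  obtain ⟨q, hq⟩ := hbij.2 (Ideal.Quotient.mk _ a)
  obtain ⟨y, rfl⟩ := Ideal.Quotient.mk_surjective q
  refine ⟨y, ?_⟩
  have h1 : a - algebraMap (𝓞 K) (𝓞 K') y ∈ W.asIdeal ^ 1 := by
    rw [pow_one, ← Ideal.Quotient.eq_zero_iff_mem, map_sub, sub_eq_zero, ← hq]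
    simp [f]
  have h2 := (W.intValuation_le_pow_iff_mem _ 1).2 h1
  rw [← W.valuation_of_algebraMap (K := K')] at h2
  have h3 : z - algebraMap K K' (algebraMap (𝓞 K) K y) =
      -(algebraMap (𝓞 K') K' a - z) + algebraMap (𝓞 K') K' (a - algebraMap (𝓞 K) (𝓞 K') y) := by
    have h4 : algebraMap (𝓞 K') K' (algebraMap (𝓞 K) (𝓞 K') y) =
        algebraMap K K' (algebraMap (𝓞 K) K y) := by
      rw [← IsScalarTower.algebraMap_apply, ← IsScalarTower.algebraMap_apply]
    rw [map_sub, h4]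
    ring
  rw [h3]
  refine Valuation.map_add_le _ ?_ h2
  rw [Valuation.map_neg]
  exact ha.le

include hdeg in
private theorem approx_all (v : HeightOneSpectrum (𝓞 K)) (W : HeightOneSpectrum (𝓞 K'))
    (hcom : W.asIdeal.comap (algebraMap (𝓞 K) (𝓞 K')) = v.asIdeal)
    (hno : Ideal.absNorm W.asIdeal = Ideal.absNorm v.asIdeal)
    (hval : ∀ y : K, W.valuation K' (algebraMap K K' y) = v.valuation K y) (k : ℕ) :
    ∀ z : K', W.valuation K' z ≤ 1 →
      ∃ y : 𝓞 K, W.valuation K' (z - algebraMap K K' (algebraMap (𝓞 K) K y)) ≤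
        WithZero.exp (-(k : ℤ)) := by
  induction k with
  | zero =>
    intro z hz
    exact ⟨0, by simpa using hz⟩
  | succ k ih =>
    intro z hz
    obtain ⟨y0, hy0⟩ := approx_step K' hdeg v W hcom hno z hz
    obtain ⟨π, hπ⟩ := v.intValuation_exists_uniformizer
    have hπv : W.valuation K' (algebraMap K K' (algebraMap (𝓞 K) K π)) =
        WithZero.exp (-1 : ℤ) := by
      rw [hval, v.valuation_of_algebraMap, hπ]
    have hπ0 : algebraMap K K' (algebraMap (𝓞 K) K π) ≠ 0 := by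
      intro h
      rw [h, map_zero] at hπv
      exact absurd hπv.symm (by simp)
    obtain ⟨y1, hy1⟩ := ih ((z - algebraMap K K' (algebraMap (𝓞 K) K y0)) /
      algebraMap K K' (algebraMap (𝓞 K) K π)) (by
        rw [map_div₀, hπv]
        exact (div_le_one₀ (by simp)).2 (by simpa using hy0))
    refine ⟨y0 + π * y1, ?_⟩
    have h1 : z - algebraMap K K' (algebraMap (𝓞 K) K (y0 + π * y1)) =
        algebraMap K K' (algebraMap (𝓞 K) K π) *
        ((z - algebraMap K K' (algebraMap (𝓞 K) K y0)) /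
          algebraMap K K' (algebraMap (𝓞 K) K π) - algebraMap K K' (algebraMap (𝓞 K) K y1)) := by
      rw [map_add, map_mul, map_add, map_mul]
      field_simp
      ring
    rw [h1, map_mul, hπv]
    calc WithZero.exp (-1 : ℤ) * _ ≤ WithZero.exp (-1 : ℤ) * WithZero.exp (-(k : ℤ)) :=
          mul_le_mul' le_rfl hy1
      _ = WithZero.exp (-((k + 1 : ℕ) : ℤ)) := by
          rw [← WithZero.exp_add]
          congr 1
          push_cast
          ring

include hdeg hθ

theorem LSq_of_splits (v : HeightOneSpectrum (𝓞 K)) (hs : Splits K K' v) : LSq v x := by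
  classical
  obtain ⟨W, J, hmap, hJ, hcom, hno⟩ := split_data K' hdeg v hs
  have hval : ∀ y : K, W.valuation K' (algebraMap K K' y) = v.valuation K y := by
    intro y
    rw [val_over le_rfl hmap hJ y, pow_one]
  intro k
  have hθ0 : θ ≠ 0 := by
    rintro rfl
    have : algebraMap K K' (x : K) = 0 := by rw [← hθ]; ring
    exact x.ne_zero ((map_eq_zero _).1 this)
  have hvθ : W.valuation K' θ ≠ 0 := (Valuation.ne_zero_iff _).2 hθ0
  obtain ⟨c, hc⟩ := v.valuation_surjective K (W.valuation K' θ)⁻¹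
  have hc0 : c ≠ 0 := by
    rintro rfl
    rw [map_zero] at hc
    exact inv_ne_zero hvθ hc.symm
  have hcθ : W.valuation K' (algebraMap K K' c * θ) = 1 := by
    rw [map_mul, hval, hc, inv_mul_cancel₀ hvθ]
  obtain ⟨y, hy⟩ := approx_all K' hdeg v W hcom hno hval (k + 1) _ hcθ.le
  have hlt : W.valuation K' (algebraMap K K' c * θ - algebraMap K K' (algebraMap (𝓞 K) K y)) <
      1 := by
    refine hy.trans_lt ?_
    rw [← WithZero.exp_zero, WithZero.exp_lt_exp]
    push_cast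
    omega
  have hyv : v.valuation K (algebraMap (𝓞 K) K y) = 1 := by
    rw [← hval]
    have h1 : algebraMap K K' (algebraMap (𝓞 K) K y) = algebraMap K K' c * θ -
        (algebraMap K K' c * θ - algebraMap K K' (algebraMap (𝓞 K) K y)) := by ring
    rw [h1, Valuation.map_sub_eq_of_lt_left _ (by rw [hcθ]; exact hlt), hcθ]
  have hy0 : algebraMap (𝓞 K) K y ≠ 0 := by
    intro h
    rw [h, map_zero] at hyv
    exact zero_ne_one hyv
  refine ⟨Units.mk0 (c / algebraMap (𝓞 K) K y) (div_ne_zero hc0 hy0), ?_⟩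
  show v.valuation K ((x : K) * (c / algebraMap (𝓞 K) K y) ^ 2 - 1) ≤ WithZero.exp (-(k : ℤ))
  have h2 : (x : K) * (c / algebraMap (𝓞 K) K y) ^ 2 - 1 =
      (c ^ 2 * (x : K) - (algebraMap (𝓞 K) K y) ^ 2) / (algebraMap (𝓞 K) K y) ^ 2 := by
    field_simp
  rw [h2, map_div₀, map_pow, hyv, one_pow, div_one, ← hval]
  have h3 : algebraMap K K' (c ^ 2 * (x : K) - (algebraMap (𝓞 K) K y) ^ 2) =
      (algebraMap K K' c * θ - algebraMap K K' (algebraMap (𝓞 K) K y)) *
      (algebraMap K K' c * θ + algebraMap K K' (algebraMap (𝓞 K) K y)) := by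
    rw [map_sub, map_mul, map_pow, map_pow, ← hθ]
    ring
  have h4 : W.valuation K' (algebraMap K K' c * θ + algebraMap K K' (algebraMap (𝓞 K) K y)) ≤
      1 := by
    refine Valuation.map_add_le _ hcθ.le ?_
    rw [hval, hyv]
  rw [h3, map_mul]
  calc _ ≤ WithZero.exp (-((k + 1 : ℕ) : ℤ)) * 1 := mul_le_mul' hy h4
    _ ≤ WithZero.exp (-(k : ℤ)) := by
        rw [mul_one, WithZero.exp_le_exp]
        push_cast
        omega

end Pool.Agent.QD.N4
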