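import Pool.Agent.QD.N4.Uu
import Pool.Agent.HWR.Types
import Pool.Agent.QD.N4Defs

/-!
# QD-N4-Odd: the type of a place not over `2`

PLAN. `int_rep`: `δ = m^2 x` integral, `θ1 = m θ` is integral over `𝓞 K` (root of `T^2 - δ`), so an
element of `𝓞 K'` with `θ1^2 = δ`; `δ` is not a square in `K` (otherwise `x` is one, a square of a
unit).  Then `uK_eq` and the three cases of `uu` (`uK_cases`): `type_split`, `type_inert`, and for
`uK v x = 0` (`ordK v x` odd, so `ord v δ` odd: `ordK_int`, `ordK_mul`) `type_ram`: one prime of norm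
`nrm v ≠ nrm v ^ 2` (`nrm v ≥ 2`).  In the last two cases `Splits` fails because `primesOver` is a
singleton (`Set.ncard_singleton`).
-/

namespace Pool.Agent.QD.N4

open NumberField IsDedekindDomain Pool.Agent.HWR

variable {K : Type} [Field K] [NumberField K] (K' : Type) [Field K'] [NumberField K']
  [Algebra K K'] (hdeg : Module.finrank K K' = 2)
  (x : Kˣ) (θ : K') (hθ : θ ^ 2 = algebraMap K K' (x : K)) (hns : ¬ IsSquare x)

include hdeg hθ hns

theorem ty_odd' (v : HeightOneSpectrum (𝓞 K)) (h2 : (2 : 𝓞 K) ∉ v.asIdeal) :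
    ty K K' v = uK v x := by
  classical
  obtain ⟨m, δ, hm, hδ, hδm⟩ := int_rep x
  have hsq : (algebraMap K K' (m : K) * θ) ^ 2 = algebraMap K K' (δ : K) := by
    rw [mul_pow, hθ, hδm, map_mul, map_pow]
  have hint : IsIntegral ℤ (algebraMap K K' (m : K) * θ) := by
    refine IsIntegral.of_pow two_pos ?_
    rw [hsq]
    exact (RingOfIntegers.isIntegral_coe δ).algebraMap
  obtain ⟨t, ht⟩ : ∃ t : 𝓞 K', (t : K') = algebraMap K K' (m : K) * θ := ⟨⟨_, hint⟩, rfl⟩
  have hθ' : t ^ 2 = algebraMap (𝓞 K) (𝓞 K') δ := by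
    apply RingOfIntegers.ext
    change (t : K') ^ 2 = algebraMap K K' (δ : K)
    rw [ht, hsq]
  have hm0 : (m : K) ≠ 0 := RingOfIntegers.coe_ne_zero_iff.2 hm
  have hδ0 : (δ : K) ≠ 0 := RingOfIntegers.coe_ne_zero_iff.2 hδ
  have hns' : ∀ y : K, y ^ 2 ≠ (δ : K) := by
    intro y hy
    have hy0 : y ≠ 0 := by
      rintro rfl
      apply hδ0
      rw [← hy]
      ring
    apply hns
    refine ⟨Units.mk0 (y / m) (div_ne_zero hy0 hm0), Units.ext ?_⟩
    rw [Units.val_mul, Units.val_mk0]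
    rw [hδm] at hy
    field_simp
    rw [hy]
    ring
  have hu := uK_eq v x hm hδm
  have hone : Ideal.absNorm v.asIdeal ≠ 1 := by
    rw [Ne, Ideal.absNorm_eq_one_iff]
    exact v.isPrime.ne_top
  have hzero : Ideal.absNorm v.asIdeal ≠ 0 := by
    rw [Ne, Ideal.absNorm_eq_zero_iff]
    exact v.ne_bot
  have hnsp : ∀ w : Ideal (𝓞 K'), v.asIdeal.primesOver (𝓞 K') = {w} → ¬ Splits K K' v := by
    intro w hw hs
    unfold Splits at hs
    rw [hw, Set.ncard_singleton] at hs
    omega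
  rcases uK_cases v x with h | h | h
  · rw [h, Int.cast_one] at hu
    have h1 := type_split K K' hdeg δ t hθ' hδ hns' v h2 hu.symm
    unfold ty
    rw [if_pos h1, h]
  · rw [h] at hu
    push_cast at hu
    obtain ⟨w, h1, -, h3⟩ := type_inert K K' hdeg δ t hθ' hδ hns' v h2 hu.symm
    unfold ty
    rw [if_neg (hnsp w h1), if_pos ⟨w, h1, h3⟩, h]
  · rw [h, Int.cast_zero] at hu
    have hodd : Odd (ord v δ) := by
      have h3 := uu_sq v hδ
      rw [← hu] at h3
      by_contra h4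
      rw [Nat.not_odd_iff_even] at h4
      rw [if_pos h4] at h3
      norm_num at h3
    obtain ⟨w, h1, -, h3⟩ := type_ram K K' hdeg δ t hθ' hδ hns' v hodd
    unfold ty
    rw [if_neg (hnsp w h1), if_neg, h]
    rintro ⟨w', h4, h5⟩
    rw [h1, Set.singleton_eq_singleton_iff] at h4
    subst h4
    rw [h3] at h5
    unfold nrm at h5
    rw [pow_two] at h5
    have h6 : Ideal.absNorm v.asIdeal * 1 = Ideal.absNorm v.asIdeal * Ideal.absNorm v.asIdeal := by
      rw [mul_one]
      exact h5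
    exact hone (Nat.eq_of_mul_eq_mul_left (Nat.pos_of_ne_zero hzero) h6).symm

end Pool.Agent.QD.N4
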