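import Pool.Agent.QD.N4.Ord

/-!
# QD-N4-Close: simultaneous approximation; elements integral at `p`

`close_simul` PLAN: for each `v` in `S` take `ρ_v` with `z ρ_v^2` close to one (`LSq`, `k = M`).
Common denominator: `ρ_v = a_v / b` with `a_v, b : 𝓞 K` nonzero.  CRT
(`IsDedekindDomain.exists_forall_sub_mem_ideal`): `a : 𝓞 K` with `a - a_v ∈ v^n` for all `v ∈ S`,
`n` large; `ρ = a / b`.  `z ρ^2 - 1 = (z ρ_v^2 - 1) + z (ρ - ρ_v)(ρ + ρ_v)`.  If `S` is empty take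
`ρ = 1`; otherwise `a ≠ 0` when `n` exceeds the order of `a_v`.
`int_at_p` PLAN: `u = a / b`.  `I = {d : 𝓞 K | d u ∈ 𝓞 K}` is an ideal; no prime `v` over `p`
contains `I` (`exists_primeCompl_mul_eq_of_integer` with `v.valuation K u ≤ 1`).
`m = absNorm I` lies in `I` (`Ideal.absNorm_mem`), `m ≠ 0` (`b ∈ I`), and `p ∤ m`: otherwise `I` and
`(p)` are not coprime: some maximal ideal contains `I` and `p` (if `I + (p) = ⊤` then `p` is a unit
modulo `I`, so `p` is prime to the cardinality `m` of `𝓞 K / I`).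
-/

namespace Pool.Agent.QD.N4

open NumberField IsDedekindDomain Pool.Agent.HWR

variable {K : Type} [Field K] [NumberField K]

private theorem weak_approx (S : Finset (HeightOneSpectrum (𝓞 K)))
    (x : HeightOneSpectrum (𝓞 K) → K) (N : HeightOneSpectrum (𝓞 K) → ℕ) :
    ∃ ρ : K, ∀ v ∈ S, v.valuation K (ρ - x v) ≤ WithZero.exp (-(N v : ℤ)) := by
  classical
  obtain ⟨b, hb⟩ := IsLocalization.exist_integer_multiples (nonZeroDivisors (𝓞 K)) S x
  have hb0 : (b : 𝓞 K) ≠ 0 := nonZeroDivisors.coe_ne_zero b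
  have hbK : algebraMap (𝓞 K) K (b : 𝓞 K) ≠ 0 := by
    rwa [Ne, FaithfulSMul.algebraMap_eq_zero_iff]
  choose a ha using fun v : S => hb v.1 v.2
  let cnt : HeightOneSpectrum (𝓞 K) → ℕ := fun v =>
    (Associates.mk v.asIdeal).count (Associates.mk (Ideal.span {(b : 𝓞 K)})).factors
  obtain ⟨y, hy⟩ := IsDedekindDomain.exists_forall_sub_mem_ideal (s := S)
    (fun v : HeightOneSpectrum (𝓞 K) => v.asIdeal) (fun v => N v + cnt v)
    (fun v _ => v.prime) (fun v _ w _ hvw h => hvw (HeightOneSpectrum.ext h)) a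
  refine ⟨algebraMap (𝓞 K) K y / algebraMap (𝓞 K) K (b : 𝓞 K), fun v hv => ?_⟩
  have h1 : algebraMap (𝓞 K) K (a ⟨v, hv⟩) = algebraMap (𝓞 K) K (b : 𝓞 K) * x v := by
    rw [ha ⟨v, hv⟩, Algebra.smul_def]
  have h2 : algebraMap (𝓞 K) K y / algebraMap (𝓞 K) K (b : 𝓞 K) - x v =
      algebraMap (𝓞 K) K (y - a ⟨v, hv⟩) / algebraMap (𝓞 K) K (b : 𝓞 K) := by
    rw [map_sub, h1]
    field_simp
  have h3 : v.valuation K (algebraMap (𝓞 K) K (b : 𝓞 K)) = WithZero.exp (-(cnt v : ℤ)) := by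
    rw [v.valuation_of_algebraMap, v.intValuation_if_neg hb0]
  have h4 : v.valuation K (algebraMap (𝓞 K) K (y - a ⟨v, hv⟩)) ≤
      WithZero.exp (-((N v + cnt v : ℕ) : ℤ)) := by
    rw [v.valuation_of_algebraMap]
    exact (v.intValuation_le_pow_iff_mem _ _).2 (hy v hv)
  rw [h2, map_div₀, h3, div_le_iff₀ (by simp), ← WithZero.exp_add]
  refine h4.trans ?_
  rw [WithZero.exp_le_exp]
  push_cast
  linarith

theorem close_simul (S : Finset (HeightOneSpectrum (𝓞 K))) (z : Kˣ) (hz : ∀ v ∈ S, LSq v z)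
    (M : ℕ) : ∃ ρ : Kˣ, ∀ v ∈ S, closeOne v M ((z : K) * (ρ : K) ^ 2) := by
  classical
  by_cases hS : S.Nonempty
  swap
  · rw [Finset.not_nonempty_iff_eq_empty] at hS
    subst hS
    exact ⟨1, by simp⟩
  have hex : ∀ v : HeightOneSpectrum (𝓞 K), ∃ r : Kˣ, v ∈ S →
      closeOne v M ((z : K) * (r : K) ^ 2) := by
    intro v
    by_cases hv : v ∈ S
    · obtain ⟨r, hr⟩ := hz v hv M
      exact ⟨r, fun _ => hr⟩
    · exact ⟨1, fun h => absurd h hv⟩
  choose r hr using hex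
  let α : HeightOneSpectrum (𝓞 K) → ℤ := fun v => WithZero.log (v.valuation K (r v : K))
  let β : HeightOneSpectrum (𝓞 K) → ℤ := fun v => WithZero.log (v.valuation K (z : K))
  have hα : ∀ v, v.valuation K (r v : K) = WithZero.exp (α v) := fun v =>
    (WithZero.exp_log ((Valuation.ne_zero_iff _).2 (r v).ne_zero)).symm
  have hβ : ∀ v, v.valuation K (z : K) = WithZero.exp (β v) := fun v =>
    (WithZero.exp_log ((Valuation.ne_zero_iff _).2 z.ne_zero)).symm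
  obtain ⟨ρ, hρ⟩ := weak_approx S (fun v => (r v : K))
    (fun v => ((-α v) + 1).toNat + (α v + β v + M).toNat)
  have hlt : ∀ v ∈ S, v.valuation K (ρ - (r v : K)) < WithZero.exp (α v) := by
    intro v hv
    refine (hρ v hv).trans_lt ?_
    rw [WithZero.exp_lt_exp]
    push_cast
    omega
  have hρ0 : ρ ≠ 0 := by
    rintro rfl
    obtain ⟨v, hv⟩ := hS
    have h1 := hlt v hv
    rw [zero_sub, Valuation.map_neg, hα v] at h1
    exact lt_irrefl _ h1
  refine ⟨Units.mk0 ρ hρ0, fun v hv => ?_⟩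
  have h1 : v.valuation K (ρ + (r v : K)) ≤ WithZero.exp (α v) := by
    have : ρ + (r v : K) = (ρ - (r v : K)) + ((r v : K) + (r v : K)) := by ring
    rw [this]
    exact Valuation.map_add_le _ (hlt v hv).le (Valuation.map_add_le _ (hα v).le (hα v).le)
  have h2 : (z : K) * ρ ^ 2 - 1 =
      ((z : K) * (r v : K) ^ 2 - 1) + (z : K) * (ρ - (r v : K)) * (ρ + (r v : K)) := by ring
  show v.valuation K ((z : K) * ρ ^ 2 - 1) ≤ WithZero.exp (-(M : ℤ))
  rw [h2]
  refine Valuation.map_add_le _ (hr v hv) ?_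
  rw [map_mul, map_mul, hβ v]
  calc WithZero.exp (β v) * v.valuation K (ρ - (r v : K)) * v.valuation K (ρ + (r v : K))
      ≤ WithZero.exp (β v) *
        WithZero.exp (-(((((-α v) + 1).toNat + (α v + β v + M).toNat : ℕ)) : ℤ)) *
        WithZero.exp (α v) :=
        mul_le_mul' (mul_le_mul' le_rfl (hρ v hv)) h1
    _ ≤ WithZero.exp (-(M : ℤ)) := by
        rw [← WithZero.exp_add, ← WithZero.exp_add, WithZero.exp_le_exp]
        push_cast
        omega

theorem int_at_p (p : ℕ) (hp : p.Prime) (u : K)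
    (hu : ∀ v : HeightOneSpectrum (𝓞 K), ((p : ℕ) : 𝓞 K) ∈ v.asIdeal → v.valuation K u ≤ 1) :
    ∃ (m : ℕ) (c : 𝓞 K), ¬ p ∣ m ∧ (m : K) * u = (c : K) := by
  classical
  have hp' : Fact p.Prime := ⟨hp⟩
  let I : Ideal (𝓞 K) :=
    { carrier := {d | ∃ c : 𝓞 K, algebraMap (𝓞 K) K d * u = algebraMap (𝓞 K) K c}
      add_mem' := by
        rintro d e ⟨c, hc⟩ ⟨c', hc'⟩
        refine ⟨c + c', ?_⟩
        rw [map_add, map_add, add_mul, hc, hc']
      zero_mem' := ⟨0, by simp⟩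
      smul_mem' := by
        rintro a d ⟨c, hc⟩
        refine ⟨a * c, ?_⟩
        rw [smul_eq_mul, map_mul, map_mul, mul_assoc, hc] }
  obtain ⟨b, hb⟩ := IsLocalization.exist_integer_multiples (nonZeroDivisors (𝓞 K))
    (Finset.univ : Finset (Fin 1)) (fun _ => u)
  have hb0 : (b : 𝓞 K) ≠ 0 := nonZeroDivisors.coe_ne_zero b
  have hbI : (b : 𝓞 K) ∈ I := by
    obtain ⟨c, hc⟩ := hb 0 (Finset.mem_univ 0)
    refine ⟨c, ?_⟩
    rw [hc, Algebra.smul_def]
  have hI0 : I ≠ ⊥ := by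
    intro h
    rw [h] at hbI
    exact hb0 hbI
  have hm : ((Ideal.absNorm I : ℕ) : 𝓞 K) ∈ I := Ideal.absNorm_mem I
  obtain ⟨c, hc⟩ := hm
  rw [map_natCast] at hc
  refine ⟨Ideal.absNorm I, c, ?_, hc⟩
  intro hdvd
  have htop : I ⊔ Ideal.span {((p : ℕ) : 𝓞 K)} ≠ ⊤ := by
    intro htop
    have h1 : (1 : 𝓞 K) ∈ I ⊔ Ideal.span {((p : ℕ) : 𝓞 K)} := by rw [htop]; trivial
    obtain ⟨i, hi, q, hq, hiq⟩ := Submodule.mem_sup.1 h1
    obtain ⟨a, ha⟩ := Ideal.mem_span_singleton'.1 hq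
    have hfin : Finite (𝓞 K ⧸ I) := Ideal.finiteQuotientOfFreeOfNeBot I hI0
    have hcard : p ∣ Nat.card (𝓞 K ⧸ I) := by
      rw [Ideal.absNorm_apply, Submodule.cardQuot_apply] at hdvd
      exact hdvd
    obtain ⟨x, hx⟩ := exists_prime_addOrderOf_dvd_card' p hcard
    have hpx : (p : 𝓞 K ⧸ I) * x = 0 := by
      rw [← nsmul_eq_mul, ← hx]
      exact addOrderOf_nsmul_eq_zero x
    have hone : (Ideal.Quotient.mk I a) * (p : 𝓞 K ⧸ I) = 1 := by
      have h2 : (Ideal.Quotient.mk I) (i + q) = 1 := by rw [hiq, map_one]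
      rw [map_add, Ideal.Quotient.eq_zero_iff_mem.2 hi, zero_add, ← ha, map_mul, map_natCast] at h2
      exact h2
    have hx0 : x = 0 := by
      calc x = ((Ideal.Quotient.mk I a) * (p : 𝓞 K ⧸ I)) * x := by rw [hone, one_mul]
        _ = 0 := by rw [mul_assoc, hpx, mul_zero]
    rw [hx0, addOrderOf_zero] at hx
    exact hp.one_lt.ne hx
  obtain ⟨P, hPmax, hP⟩ := Ideal.exists_le_maximal _ htop
  have hpP : ((p : ℕ) : 𝓞 K) ∈ P :=
    hP (Submodule.mem_sup_right (Ideal.mem_span_singleton_self _))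
  have hP0 : P ≠ ⊥ := by
    rintro rfl
    have : ((p : ℕ) : 𝓞 K) = 0 := hpP
    exact hp.ne_zero (by exact_mod_cast this)
  obtain ⟨n, d, hnd⟩ := HeightOneSpectrum.exists_primeCompl_mul_eq_of_integer
    (K := K) ⟨P, hPmax.isPrime, hP0⟩ u (hu ⟨P, hPmax.isPrime, hP0⟩ hpP)
  apply d.2
  apply hP
  apply Submodule.mem_sup_left
  exact ⟨n, by rw [mul_comm]; exact hnd⟩

end Pool.Agent.QD.N4
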