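import Pool.Agent.QD.N4Defs
import Pool.Agent.HWR.Quad
import Pool.Agent.HWR.Discr

/-!
# QD-N4-DiffA: the different of a quadratic extension, place by place

`dN K K' v` is the product of `N w ^ (order of w in the different)` over the primes `w` over `v`.

`discr_dN` PLAN: `natAbs_discr_eq_absNorm_differentIdeal_mul_natAbs_discr_pow` (as at the end of
HWR/Discr.lean) and the factorisation of the nonzero ideal `differentIdeal` into primes
(`Ideal.finprod_heightOneSpectrum_factorization` or `normalizedFactors`), `absNorm` multiplicative,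
regrouped over the places `v` of `K` (`w ↦ w ∩ 𝓞 K`; `finprod_mem`/`Finset.prod_fiberwise`; only
finitely many `w` divide the different).
`dN_unram` PLAN: `w ∤ 𝔇`: split case as `split_not_dvd` in HWR/Discr.lean (copy it, it is private);
inert case (`v 𝓞 K' = w`): an element `η` of `𝓞 K'` with trace not in `v`
(`not_dvd_differentIdeal_of_intTrace_not_mem (𝓞 K) (p := v.asIdeal) w ⊤`), or directly Mathlib's
`not_dvd_differentIdeal_iff` / `dvd_differentIdeal_iff` (unramified with separable residue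
extension; residue fields are finite, so perfect; ramification index one).
Then all multiplicities are `0`.
`dN_odd` PLAN: `v` not over `2`, `v 𝓞 K' = w^2`: `w ∣ 𝔇`, `w^2 ∤ 𝔇` (see `exists_w` and
`map_not_dvd` in HWR/Discr.lean), so the multiplicity is `1`.
-/

namespace Pool.Agent.QD.N4

open NumberField IsDedekindDomain Pool.Agent.HWR

set_option linter.unusedSectionVars false

attribute [local instance] FractionRing.liftAlgebra

section aux

variable {K : Type} [Field K] [NumberField K] {K' : Type} [Field K'] [NumberField K']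
    [Algebra K K']

private lemma finrank_ring (hdeg : Module.finrank K K' = 2) :
    Module.finrank (𝓞 K) (𝓞 K') = 2 := by
  rw [← hdeg, IsFractionRing.finrank_eq (𝓞 K) K (𝓞 K') K']

private lemma absNorm_map (hdeg : Module.finrank K K' = 2) (v : HeightOneSpectrum (𝓞 K)) :
    Ideal.absNorm (v.asIdeal.map (algebraMap (𝓞 K) (𝓞 K'))) = nrm v ^ 2 := by
  rw [Ideal.absNorm_algebraMap, finrank_ring hdeg, nrm]

private lemma nrm_pos (v : HeightOneSpectrum (𝓞 K)) : 0 < nrm v := by
  unfold nrm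
  rw [Nat.pos_iff_ne_zero, Ideal.absNorm_ne_zero_iff]
  exact Ring.HasFiniteQuotients.finiteQuotient v.ne_bot

private lemma map_le {v : HeightOneSpectrum (𝓞 K)} {P : Ideal (𝓞 K')}
    (hP : P ∈ v.asIdeal.primesOver (𝓞 K')) :
    P ∣ v.asIdeal.map (algebraMap (𝓞 K) (𝓞 K')) := by
  obtain ⟨h1, h2⟩ := hP
  rw [Ideal.dvd_iff_le, Ideal.map_le_iff_le_comap]
  exact h2.over.le

private lemma max_of_over {v : HeightOneSpectrum (𝓞 K)} {P : Ideal (𝓞 K')}
    (hP : P ∈ v.asIdeal.primesOver (𝓞 K')) : P.IsMaximal := by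
  obtain ⟨h1, h2⟩ := hP
  have : v.asIdeal.IsMaximal := v.isMaximal
  exact Ideal.IsMaximal.of_liesOver_isMaximal P v.asIdeal

/-- places which split are unramified -/
private lemma split_not_dvd (hdeg : Module.finrank K K' = 2) (v : HeightOneSpectrum (𝓞 K))
    (hs : Splits K K' v) {P : Ideal (𝓞 K')} (hP : P ∈ v.asIdeal.primesOver (𝓞 K')) :
    ¬ P ∣ differentIdeal (𝓞 K) (𝓞 K') := by
  have hnorm : ∀ w ∈ v.asIdeal.primesOver (𝓞 K'), Ideal.absNorm w = nrm v := by
    rcases quad_types K K' hdeg v with h | ⟨w, hw, _⟩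
    · exact h.2
    · exfalso
      unfold Splits at hs
      rw [hw, Set.ncard_singleton] at hs
      omega
  obtain ⟨Q, hQ, hne⟩ : ∃ Q ∈ v.asIdeal.primesOver (𝓞 K'), P ≠ Q := by
    unfold Splits at hs
    obtain ⟨x, y, hxy, he⟩ := Set.ncard_eq_two.1 hs
    rw [he] at hP ⊢
    rcases hP with rfl | hP
    · exact ⟨y, by simp, hxy⟩
    · rw [Set.mem_singleton_iff] at hP
      subst hP
      exact ⟨x, by simp, hxy.symm⟩
  have hPm := max_of_over hP
  have hQm := max_of_over hQ
  have hvm : v.asIdeal.IsMaximal := v.isMaximal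
  have hc : IsCoprime P Q := Ideal.isCoprime_of_isMaximal hne
  obtain ⟨J, hJ⟩ := hc.mul_dvd (map_le hP) (map_le hQ)
  have hn := absNorm_map hdeg v
  rw [hJ, map_mul, map_mul, hnorm P hP, hnorm Q hQ, ← pow_two] at hn
  have hJ1 : Ideal.absNorm J = 1 := by
    have := nrm_pos v
    exact Nat.eq_of_mul_eq_mul_left (pow_pos this 2) (by rw [hn, mul_one])
  have hJ2 : J = ⊤ := Ideal.absNorm_eq_one_iff.1 hJ1
  have hfin : Finite (𝓞 K ⧸ v.asIdeal) := Ring.HasFiniteQuotients.finiteQuotient v.ne_bot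
  refine not_dvd_differentIdeal_of_isCoprime (𝓞 K) (p := v.asIdeal) P Q hc ?_
  rw [hJ, hJ2, Ideal.mul_top]

/-- inert places are unramified -/
private lemma inert_not_dvd (v : HeightOneSpectrum (𝓞 K)) {w : Ideal (𝓞 K')}
    (hw : w ∈ v.asIdeal.primesOver (𝓞 K'))
    (hm : v.asIdeal.map (algebraMap (𝓞 K) (𝓞 K')) = w) :
    ¬ w ∣ differentIdeal (𝓞 K) (𝓞 K') := by
  have hPm := max_of_over hw
  have hvm : v.asIdeal.IsMaximal := v.isMaximal
  have hfin : Finite (𝓞 K ⧸ v.asIdeal) := Ring.HasFiniteQuotients.finiteQuotient v.ne_bot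
  refine not_dvd_differentIdeal_of_isCoprime (𝓞 K) (p := v.asIdeal) w ⊤ ?_ ?_
  · rw [Ideal.isCoprime_iff_sup_eq]
    exact sup_top_eq w
  · rw [hm, Ideal.mul_top]

/-- places not above two: the full preimage does not divide the different -/
private lemma map_not_dvd (hdeg : Module.finrank K K' = 2) (v : HeightOneSpectrum (𝓞 K))
    (h2 : (2 : 𝓞 K) ∉ v.asIdeal) :
    ¬ v.asIdeal.map (algebraMap (𝓞 K) (𝓞 K')) ∣ differentIdeal (𝓞 K) (𝓞 K') := by
  refine not_dvd_differentIdeal_of_intTrace_not_mem (𝓞 K) (p := v.asIdeal) _ ⊤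
    (Ideal.mul_top _) 1 trivial ?_
  have h : Algebra.intTrace (𝓞 K) (𝓞 K') 1 = 2 := by
    apply FaithfulSMul.algebraMap_injective (𝓞 K) K
    rw [Algebra.algebraMap_intTrace (A := 𝓞 K) (K := K) (L := K') (B := 𝓞 K')]
    have h1 : algebraMap (𝓞 K') K' 1 = algebraMap K K' 1 := by simp
    rw [h1, Algebra.trace_algebraMap, hdeg]
    simp
    exact (map_ofNat _ 2).symm
  rwa [h]

/-- the primes dividing the different -/
private lemma exists_T : ∃ T : Finset (Ideal (𝓞 K')), (∀ w ∈ T, w.IsPrime ∧ w ≠ ⊥) ∧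
    (∀ w : Ideal (𝓞 K'), w.IsPrime → w ≠ ⊥ → w ∉ T →
      multiplicity w (differentIdeal (𝓞 K) (𝓞 K')) = 0) ∧
    Ideal.absNorm (differentIdeal (𝓞 K) (𝓞 K')) =
      ∏ w ∈ T, Ideal.absNorm w ^ multiplicity w (differentIdeal (𝓞 K) (𝓞 K')) := by
  classical
  set D := differentIdeal (𝓞 K) (𝓞 K') with hD
  have hD0 : D ≠ ⊥ := differentIdeal_ne_bot
  set m := UniqueFactorizationMonoid.normalizedFactors D with hm
  have hprime : ∀ w ∈ m, Prime w := fun w hw =>
    UniqueFactorizationMonoid.prime_of_normalized_factor w hw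
  have hcount : ∀ w : Ideal (𝓞 K'), Prime w → multiplicity w D = m.count w := by
    intro w hw
    have h1 := UniqueFactorizationMonoid.emultiplicity_eq_count_normalizedFactors
      hw.irreducible hD0
    rw [normalize_eq] at h1
    exact multiplicity_eq_of_emultiplicity_eq_some h1
  refine ⟨m.toFinset, ?_, ?_, ?_⟩
  · intro w hw
    have h1 := hprime w (Multiset.mem_toFinset.1 hw)
    exact ⟨Ideal.isPrime_of_prime h1, h1.ne_zero⟩
  · intro w hw hw0 hwT
    rw [hcount w (Ideal.prime_of_isPrime hw0 hw), Multiset.count_eq_zero]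
    rwa [Multiset.mem_toFinset] at hwT
  · have h1 : m.prod = D := Ideal.prod_normalizedFactors_eq_self hD0
    have h2 : D = ∏ w ∈ m.toFinset, w ^ m.count w := by
      rw [← Finset.prod_multiset_count, h1]
    have h3 : Ideal.absNorm D = ∏ w ∈ m.toFinset, Ideal.absNorm w ^ m.count w := by
      conv_lhs => rw [h2]
      rw [map_prod]
      exact Finset.prod_congr rfl fun w _ => map_pow _ _ _
    rw [h3]
    refine Finset.prod_congr rfl fun w hw => ?_
    rw [hcount w (hprime w (Multiset.mem_toFinset.1 hw))]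

private lemma over_unique {v v' : HeightOneSpectrum (𝓞 K)} {w : Ideal (𝓞 K')}
    (h : w ∈ v.asIdeal.primesOver (𝓞 K')) (h' : w ∈ v'.asIdeal.primesOver (𝓞 K')) : v = v' := by
  apply HeightOneSpectrum.ext
  rw [h.2.over, h'.2.over]

private lemma ne_bot_of_over {v : HeightOneSpectrum (𝓞 K)} {w : Ideal (𝓞 K')}
    (h : w ∈ v.asIdeal.primesOver (𝓞 K')) : w ≠ ⊥ :=
  Ideal.ne_bot_of_mem_primesOver v.ne_bot h

private lemma exists_over {w : Ideal (𝓞 K')} (hw : w.IsPrime) (h0 : w ≠ ⊥) :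
    ∃ v : HeightOneSpectrum (𝓞 K), w ∈ v.asIdeal.primesOver (𝓞 K') := by
  have hpm : (w.comap (algebraMap (𝓞 K) (𝓞 K'))).IsPrime := Ideal.comap_isPrime _ _
  have hpb : w.comap (algebraMap (𝓞 K) (𝓞 K')) ≠ ⊥ := Ideal.under_ne_bot (𝓞 K) h0
  exact ⟨⟨w.comap (algebraMap (𝓞 K) (𝓞 K')), hpm, hpb⟩, hw, ⟨rfl⟩⟩

end aux

variable (K : Type) [Field K] [NumberField K] (K' : Type) [Field K'] [NumberField K']
  [Algebra K K']

/-- local factor of the norm of the different -/
noncomputable def dN (v : HeightOneSpectrum (𝓞 K)) : ℕ :=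
  ∏ᶠ w ∈ v.asIdeal.primesOver (𝓞 K'),
    Ideal.absNorm w ^ multiplicity w (differentIdeal (𝓞 K) (𝓞 K'))

open Classical in
/-- the local factors as finite products, and the total product -/
private theorem main : ∃ (T : Finset (Ideal (𝓞 K'))) (S : Finset (HeightOneSpectrum (𝓞 K))),
    (∀ w ∈ T, w.IsPrime ∧ w ≠ ⊥) ∧
    (∀ v, dN K K' v = ∏ w ∈ T with w ∈ v.asIdeal.primesOver (𝓞 K'),
      Ideal.absNorm w ^ multiplicity w (differentIdeal (𝓞 K) (𝓞 K'))) ∧
    (∀ v, v ∉ S → dN K K' v = 1) ∧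
    Ideal.absNorm (differentIdeal (𝓞 K) (𝓞 K')) = ∏ v ∈ S, dN K K' v := by
  obtain ⟨T, hT1, hT2, hT3⟩ := exists_T (K := K) (K' := K')
  have hex : ∀ w ∈ T, ∃ v : HeightOneSpectrum (𝓞 K), w ∈ v.asIdeal.primesOver (𝓞 K') :=
    fun w hw => exists_over (hT1 w hw).1 (hT1 w hw).2
  choose π hπ using hex
  have hdN : ∀ v, dN K K' v = ∏ w ∈ T with w ∈ v.asIdeal.primesOver (𝓞 K'),
      Ideal.absNorm w ^ multiplicity w (differentIdeal (𝓞 K) (𝓞 K')) := by
    intro v
    unfold dN
    refine finprod_mem_eq_prod_of_inter_mulSupport_eq _ ?_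
    ext w
    simp only [Set.mem_inter_iff, Function.mem_mulSupport, Finset.coe_filter, Set.mem_ofPred_eq]
    constructor
    · rintro ⟨h1, h2⟩
      refine ⟨⟨?_, h1⟩, h2⟩
      by_contra hc
      apply h2
      rw [hT2 w h1.1 (ne_bot_of_over h1) hc, pow_zero]
    · rintro ⟨⟨_, h1⟩, h2⟩
      exact ⟨h1, h2⟩
  refine ⟨T, T.attach.image fun w => π w.1 w.2, hT1, hdN, ?_, ?_⟩
  · intro v hv
    rw [hdN v]
    refine Finset.prod_eq_one fun w hw => ?_
    exfalso
    rw [Finset.mem_filter] at hw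
    apply hv
    rw [Finset.mem_image]
    exact ⟨⟨w, hw.1⟩, Finset.mem_attach _ _, over_unique (hπ w hw.1) hw.2⟩
  · rw [hT3]
    simp only [hdN]
    rw [← Finset.prod_biUnion]
    · refine Finset.prod_congr ?_ fun _ _ => rfl
      ext w
      simp only [Finset.mem_biUnion, Finset.mem_filter, Finset.mem_image, Finset.mem_attach,
        true_and]
      constructor
      · intro hw
        exact ⟨π w hw, ⟨⟨w, hw⟩, rfl⟩, hw, hπ w hw⟩
      · rintro ⟨_, _, hw, _⟩
        exact hw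
    · intro v _ v' _ hne
      rw [Function.onFun, Finset.disjoint_left]
      intro w hw hw'
      rw [Finset.mem_filter] at hw hw'
      exact hne (over_unique hw.2 hw'.2)

variable (hdeg : Module.finrank K K' = 2)
include hdeg

theorem discr_dN : (NumberField.discr K').natAbs =
    (NumberField.discr K).natAbs ^ 2 * ∏ᶠ v : HeightOneSpectrum (𝓞 K), dN K K' v := by
  classical
  obtain ⟨T, S, _, _, hS, hN⟩ := main K K'
  have h1 : ∏ᶠ v : HeightOneSpectrum (𝓞 K), dN K K' v = ∏ v ∈ S, dN K K' v := by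
    refine finprod_eq_prod_of_mulSupport_subset _ ?_
    intro v hv
    rw [Function.mem_mulSupport] at hv
    rw [Finset.mem_coe]
    by_contra hc
    exact hv (hS v hc)
  have hmain := natAbs_discr_eq_absNorm_differentIdeal_mul_natAbs_discr_pow K (𝓞 K) K' (𝓞 K')
  rw [hmain, hdeg, h1, hN, mul_comm]

omit hdeg in
private theorem dN_finite_aux : {v : HeightOneSpectrum (𝓞 K) | dN K K' v ≠ 1}.Finite := by
  classical
  obtain ⟨T, S, _, _, hS, hN⟩ := main K K'
  refine S.finite_toSet.subset fun v hv => ?_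
  by_contra hc
  exact hv (hS v hc)

theorem dN_finite : {v : HeightOneSpectrum (𝓞 K) | dN K K' v ≠ 1}.Finite :=
  dN_finite_aux K K'

theorem dN_pos (v : HeightOneSpectrum (𝓞 K)) : 0 < dN K K' v := by
  classical
  obtain ⟨T, S, hT, hv, _, _⟩ := main K K'
  rw [hv v]
  refine Finset.prod_pos fun w hw => pow_pos ?_ _
  rw [Finset.mem_filter] at hw
  rw [Nat.pos_iff_ne_zero]
  intro h
  exact (hT w hw.1).2 (Ideal.absNorm_eq_zero_iff.1 h)

theorem dN_unram (v : HeightOneSpectrum (𝓞 K))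
    (h : ¬ ∃ w : Ideal (𝓞 K'), v.asIdeal.primesOver (𝓞 K') = {w} ∧
      v.asIdeal.map (algebraMap (𝓞 K) (𝓞 K')) = w ^ 2) : dN K K' v = 1 := by
  have key : ∀ w ∈ v.asIdeal.primesOver (𝓞 K'), ¬ w ∣ differentIdeal (𝓞 K) (𝓞 K') := by
    rcases quad_types K K' hdeg v with hs | ⟨w, hw, hw2 | hw2⟩
    · intro w hw
      exact split_not_dvd hdeg v hs.1 hw
    · exact absurd ⟨w, hw, hw2.1⟩ h
    · intro w' hw'
      rw [hw, Set.mem_singleton_iff] at hw'
      subst hw'
      exact inert_not_dvd v (by rw [hw]; exact Set.mem_singleton _) hw2.1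
  unfold dN
  refine finprod_mem_of_eqOn_one fun w hw => ?_
  simp only [Pi.one_apply]
  rw [multiplicity_eq_zero.2 (key w hw), pow_zero]

theorem dN_odd (v : HeightOneSpectrum (𝓞 K)) (h2 : (2 : 𝓞 K) ∉ v.asIdeal)
    (h : ∃ w : Ideal (𝓞 K'), v.asIdeal.primesOver (𝓞 K') = {w} ∧
      v.asIdeal.map (algebraMap (𝓞 K) (𝓞 K')) = w ^ 2) : dN K K' v = nrm v := by
  obtain ⟨w, hw, hm⟩ := h
  have hvm : v.asIdeal.IsMaximal := v.isMaximal
  have hn : Ideal.absNorm w = nrm v := by
    have h1 := absNorm_map (K' := K') hdeg v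
    rw [hm, map_pow] at h1
    exact Nat.pow_left_injective (n := 2) (by norm_num) h1
  have hd1 : w ∣ differentIdeal (𝓞 K) (𝓞 K') := by
    have := pow_sub_one_dvd_differentIdeal (𝓞 K) (p := v.asIdeal) w 2 v.ne_bot
      (by rw [hm])
    simpa using this
  have hd2 : ¬ w ^ 2 ∣ differentIdeal (𝓞 K) (𝓞 K') := by
    rw [← hm]
    exact map_not_dvd hdeg v h2
  unfold dN
  rw [hw, finprod_mem_singleton, hn]
  have : multiplicity w (differentIdeal (𝓞 K) (𝓞 K')) = 1 :=
    multiplicity_eq_of_dvd_of_not_dvd (by rwa [pow_one]) hd2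
  rw [this, pow_one]

end Pool.Agent.QD.N4
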