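import Pool.Agent.QD.N4.SplitSq
import Pool.Agent.QD.N4.SqSplit

/-!
# QD-N4-Unr: unramified places over `2`

`Ur v x`: some `x r^2` is `1` modulo `4` at `v`.  For `2 ∈ v` the place `v` is ramified in
`K(√x)` iff `Ur v x` fails.

`ur_of_unram` PLAN: by `quad_types` there are two cases.  Split: `LSq_of_splits` with
`k` = order of `4`.  Inert: `v 𝓞 K' = w` prime.  Choose `η : 𝓞 K'` with trace a unit at `v`:
otherwise the trace of every element of `𝓞 K'` lies in `v`, i.e.
`v 𝓞 K'` divides the different (Mathlib: `not_dvd_differentIdeal_of_intTrace_not_mem`,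
`Algebra.trace_mem...`, or `dvd_differentIdeal_iff` and the fact that `w / v` is unramified with
separable residue extension; or by hand: `κ' = 𝓞 K' / w` is the quadratic extension of the finite
field `κ = 𝓞 K / v`, the nontrivial automorphism `τ` of `K' / K` acts on `κ'` and `η + τ η` is in
`κ`; if `η + τ η = 0` in `κ'` for all `η` then (characteristic two) `τ` acts trivially on `κ'`, so
for `η` whose class generates `κ'` over `κ` the polynomial `T^2 - (η + τη) T + η τη` over `𝓞 K`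
reduces to `(T - η)^2`, so the class of `η` is purely inseparable over the finite field `κ`,
contradiction).
Then `η = a + b θ` (`exists_ab`), trace `t = 2 a`, norm `n = a^2 - b^2 x` in `𝓞 K`, and
`4 b^2 x = t^2 - 4 n`, so `x (2 b / t)^2 - 1 = - 4 n / t^2`.

`unram_of_ur` PLAN: suppose `primesOver = {w}`, `v 𝓞 K' = w^2`; `N w = N v` (`quad_types`).
`η = (1 + r θ) / 2`: `η (η - 1) = (x r^2 - 1) / 4` has valuation `≤ 1` at `v`, so `|η|_W ≤ 1`.
Residue fields agree (`N w = N v`): there is `a : 𝓞 K` with `|η - a|_W < 1` (approximate `η` by an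
element of `𝓞 K'`, `exists_valuation_sub_lt_of_integer`, and `𝓞 K / v → 𝓞 K' / w` is injective
between sets of the same finite size).  Apply `τ` (`val_tau`, `τ η = 1 - η`):
`|1 - η - a|_W < 1`; the sum: `|1 - 2 a|_W < 1`, so `|1|_W < 1`.
-/

namespace Pool.Agent.QD.N4

open NumberField IsDedekindDomain Pool.Agent.HWR

/-- `x` is `1` modulo `4` at `v` up to squares -/
def Ur {K : Type} [Field K] [NumberField K] (v : HeightOneSpectrum (𝓞 K)) (x : Kˣ) : Prop :=
  ∃ r : Kˣ, v.valuation K ((x : K) * (r : K) ^ 2 - 1) ≤ v.valuation K (4 : K)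

variable {K : Type} [Field K] [NumberField K] (K' : Type) [Field K'] [NumberField K']
  [Algebra K K'] (hdeg : Module.finrank K K' = 2)
  (x : Kˣ) (θ : K') (hθ : θ ^ 2 = algebraMap K K' (x : K)) (hns : ¬ IsSquare x)


/-- residue fields of degree one -/
private theorem un_res_surj {K' : Type} [Field K'] [NumberField K'] [Algebra K K']
    {v : HeightOneSpectrum (𝓞 K)} {w : Ideal (𝓞 K')}
    (hw : w ∈ v.asIdeal.primesOver (𝓞 K')) (hN : Ideal.absNorm w = nrm v) (y : 𝓞 K') :
    ∃ a : 𝓞 K, y - algebraMap (𝓞 K) (𝓞 K') a ∈ w := by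
  have hle : v.asIdeal ≤ w.comap (algebraMap (𝓞 K) (𝓞 K')) := (qa_comap hw).ge
  set f : 𝓞 K ⧸ v.asIdeal →+* 𝓞 K' ⧸ w := Ideal.quotientMap w (algebraMap (𝓞 K) (𝓞 K')) hle with hf
  have hinj : Function.Injective f := by
    apply Ideal.quotientMap_injective'
    exact (qa_comap hw).le
  have hfin : Finite (𝓞 K' ⧸ w) := Ideal.finiteQuotientOfFreeOfNeBot w (qa_ne_bot hw)
  have hcard : Nat.card (𝓞 K' ⧸ w) = Nat.card (𝓞 K ⧸ v.asIdeal) := by
    have h1 := hN
    unfold nrm at h1
    rwa [Ideal.absNorm_apply, Ideal.absNorm_apply, Submodule.cardQuot_apply,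
      Submodule.cardQuot_apply] at h1
  have hbij : Function.Bijective f := hinj.bijective_of_nat_card_le hcard.le
  obtain ⟨b, hb⟩ := hbij.2 (Ideal.Quotient.mk w y)
  obtain ⟨a, rfl⟩ := Ideal.Quotient.mk_surjective b
  refine ⟨a, ?_⟩
  rw [hf, Ideal.quotientMap_mk] at hb
  rw [← Ideal.Quotient.eq]
  exact hb.symm

/-- trace and norm of an integral element -/
private theorem un_tr_nm {K' : Type} [Field K'] [NumberField K'] [Algebra K K']
    (hdeg : Module.finrank K K' = 2)
    {x : Kˣ} {θ : K'} (hθ : θ ^ 2 = algebraMap K K' (x : K)) (hns : ¬ IsSquare x)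
    (η : 𝓞 K') : ∃ (a b : K) (t n : 𝓞 K),
      (η : K') = algebraMap K K' a + algebraMap K K' b * θ ∧ (t : K) = 2 * a ∧
      (n : K) = a ^ 2 - b ^ 2 * (x : K) ∧
      η ^ 2 - algebraMap (𝓞 K) (𝓞 K') t * η + algebraMap (𝓞 K) (𝓞 K') n = 0 := by
  obtain ⟨τ, hτ⟩ := exists_tau hdeg hθ hns
  obtain ⟨a, b, hab⟩ := exists_ab hdeg hθ hns (η : K')
  have hint : IsIntegral ℤ (η : K') := RingOfIntegers.isIntegral_coe η
  have hintτ : IsIntegral ℤ (τ (η : K')) := hint.map τ
  have hτη : τ (η : K') = algebraMap K K' a - algebraMap K K' b * θ := by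
    rw [hab, map_add, map_mul, hτ, AlgEquiv.commutes, AlgEquiv.commutes]
    ring
  have h1 : IsIntegral ℤ (algebraMap K K' (2 * a)) := by
    have e : algebraMap K K' (2 * a) = (η : K') + τ (η : K') := by
      rw [hτη, hab, map_mul, map_ofNat]
      ring
    rw [e]
    exact hint.add hintτ
  have h2 : IsIntegral ℤ (algebraMap K K' (a ^ 2 - b ^ 2 * (x : K))) := by
    have e : algebraMap K K' (a ^ 2 - b ^ 2 * (x : K)) = (η : K') * τ (η : K') := by
      rw [hτη, hab, map_sub, map_mul, map_pow, map_pow, ← hθ]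
      ring
    rw [e]
    exact hint.mul hintτ
  have h1' : IsIntegral ℤ (2 * a) :=
    (isIntegral_algebraMap_iff (algebraMap K K').injective).1 h1
  have h2' : IsIntegral ℤ (a ^ 2 - b ^ 2 * (x : K)) :=
    (isIntegral_algebraMap_iff (algebraMap K K').injective).1 h2
  refine ⟨a, b, ⟨2 * a, h1'⟩, ⟨a ^ 2 - b ^ 2 * (x : K), h2'⟩, hab, rfl, rfl, ?_⟩
  apply RingOfIntegers.ext
  show ((η : K') ^ 2 - algebraMap K K' (2 * a) * (η : K') +
    algebraMap K K' (a ^ 2 - b ^ 2 * (x : K))) = 0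
  rw [hab, map_sub, map_mul, map_mul, map_pow, map_pow, map_ofNat, ← hθ]
  ring

include hdeg hθ hns

/-- an integral element whose trace is a unit at `v` -/
private theorem un_exists_eta (v : HeightOneSpectrum (𝓞 K)) (h2 : (2 : 𝓞 K) ∈ v.asIdeal)
    {w : Ideal (𝓞 K')} (hw : v.asIdeal.primesOver (𝓞 K') = {w})
    (hN : Ideal.absNorm w = nrm v ^ 2) :
    ∃ (a b : K) (t n : 𝓞 K), t ∉ v.asIdeal ∧ (t : K) = 2 * a ∧
      (n : K) = a ^ 2 - b ^ 2 * (x : K) := by
  by_contra hcon
  push Not at hcon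
  have hwm : w ∈ v.asIdeal.primesOver (𝓞 K') := by rw [hw]; exact Set.mem_singleton _
  have hwp : w.IsPrime := hwm.1
  have hle : v.asIdeal ≤ w.comap (algebraMap (𝓞 K) (𝓞 K')) := (qa_comap hwm).ge
  set f : 𝓞 K ⧸ v.asIdeal →+* 𝓞 K' ⧸ w := Ideal.quotientMap w (algebraMap (𝓞 K) (𝓞 K')) hle with hf
  have hfinw : Finite (𝓞 K' ⧸ w) := Ideal.finiteQuotientOfFreeOfNeBot w (qa_ne_bot hwm)
  have hfinv : Finite (𝓞 K ⧸ v.asIdeal) := Ideal.finiteQuotientOfFreeOfNeBot _ v.ne_bot
  have key : ∀ α : 𝓞 K' ⧸ w, ∃ β : 𝓞 K ⧸ v.asIdeal, f β = α ^ 2 := by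
    intro α
    obtain ⟨η, rfl⟩ := Ideal.Quotient.mk_surjective α
    obtain ⟨a, b, t, n, -, ht, hn, hrel⟩ := un_tr_nm hdeg hθ hns η
    have htv : t ∈ v.asIdeal := by
      by_contra htv
      exact hcon a b t n htv ht hn
    refine ⟨Ideal.Quotient.mk _ (-n), ?_⟩
    rw [hf, Ideal.quotientMap_mk, ← map_pow, Ideal.Quotient.eq]
    have h3 : algebraMap (𝓞 K) (𝓞 K') t ∈ w := (qa_mem_iff hwm t).2 htv
    have h4 : algebraMap (𝓞 K) (𝓞 K') (-n) - η ^ 2 = -(algebraMap (𝓞 K) (𝓞 K') t * η) := by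
      rw [map_neg]
      linear_combination (-1 : 𝓞 K') * hrel
    rw [h4]
    exact w.neg_mem (w.mul_mem_right _ h3)
  choose g hg using key
  have h2w : (2 : 𝓞 K' ⧸ w) = 0 := by
    have h3 : algebraMap (𝓞 K) (𝓞 K') 2 ∈ w := (qa_mem_iff hwm 2).2 h2
    rw [map_ofNat] at h3
    have h4 := (Ideal.Quotient.eq_zero_iff_mem).2 h3
    rwa [map_ofNat] at h4
  have hginj : Function.Injective g := by
    intro α α' h
    have h3 : α ^ 2 = α' ^ 2 := by rw [← hg, ← hg, h]
    have h4 : (α - α') ^ 2 = 0 := by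
      have : (α - α') ^ 2 = α ^ 2 - α' ^ 2 - 2 * (α * α' - α' ^ 2) := by ring
      rw [this, h3, h2w]
      ring
    exact sub_eq_zero.1 (pow_eq_zero_iff (by norm_num) |>.1 h4)
  have hcard : Nat.card (𝓞 K' ⧸ w) ≤ Nat.card (𝓞 K ⧸ v.asIdeal) :=
    Nat.card_le_card_of_injective g hginj
  have hNw : Ideal.absNorm w = Nat.card (𝓞 K' ⧸ w) := by
    rw [Ideal.absNorm_apply, Submodule.cardQuot_apply]
  have hNv : nrm v = Nat.card (𝓞 K ⧸ v.asIdeal) := by
    unfold nrm
    rw [Ideal.absNorm_apply, Submodule.cardQuot_apply]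
  have hgt : 1 < nrm v := by
    rw [hNv]
    have : Nontrivial (𝓞 K ⧸ v.asIdeal) := Ideal.Quotient.nontrivial_iff.2 v.isPrime.ne_top
    exact Finite.one_lt_card
  rw [← hNw, ← hNv, hN] at hcard
  nlinarith

theorem ur_of_unram (v : HeightOneSpectrum (𝓞 K)) (h2 : (2 : 𝓞 K) ∈ v.asIdeal)
    (h : ¬ ∃ w : Ideal (𝓞 K'), v.asIdeal.primesOver (𝓞 K') = {w} ∧
      v.asIdeal.map (algebraMap (𝓞 K) (𝓞 K')) = w ^ 2) : Ur v x := by
  rcases quad_types K K' hdeg v with ⟨hs, -⟩ | ⟨w, hw, hcase⟩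
  · have hL := LSq_of_splits K' hdeg x θ hθ v hs
    obtain ⟨r, hr⟩ := hL (multiplicity v.asIdeal (Ideal.span {(4 : 𝓞 K)}))
    refine ⟨r, hr.trans ?_⟩
    have h4 : (4 : 𝓞 K) ≠ 0 := by norm_num
    have h5 := v.intValuation_eq_exp_neg_multiplicity h4
    have h6 : v.valuation K (4 : K) = v.intValuation (4 : 𝓞 K) := by
      rw [← v.valuation_of_algebraMap (K := K)]
      congr 1
    rw [h6, h5]
  · rcases hcase with ⟨hm, -⟩ | ⟨hm, hN⟩
    · exact absurd ⟨w, hw, hm⟩ h
    · obtain ⟨a, b, t, n, ht, hta, hn⟩ := un_exists_eta K' hdeg x θ hθ hns v h2 hw hN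
      have hrel : 4 * b ^ 2 * (x : K) = (t : K) ^ 2 - 4 * (n : K) := by
        rw [hta, hn]
        ring
      have ht1 : v.valuation K (t : K) = 1 := v.valuation_eq_one_iff_notMem.2 ht
      have ht0 : (t : K) ≠ 0 := by
        intro h0
        rw [h0, map_zero] at ht1
        exact zero_ne_one ht1
      have hb0 : b ≠ 0 := by
        rintro rfl
        have h3 : (t : K) ^ 2 = 4 * (n : K) := by linear_combination (-1 : K) * hrel
        have h4 : t ^ 2 = 2 * (2 * n) := by
          apply RingOfIntegers.ext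
          have : ((t ^ 2 : 𝓞 K) : K) = (t : K) ^ 2 := rfl
          rw [this, h3]
          show (4 * (n : K)) = 2 * (2 * (n : K))
          ring
        have h5 : t ^ 2 ∈ v.asIdeal := by
          rw [h4]
          exact v.asIdeal.mul_mem_right _ h2
        exact ht (v.isPrime.mem_of_pow_mem 2 h5)
      refine ⟨Units.mk0 (2 * b / (t : K)) (div_ne_zero (mul_ne_zero two_ne_zero hb0) ht0), ?_⟩
      rw [Units.val_mk0]
      have h3 : (x : K) * (2 * b / (t : K)) ^ 2 - 1 = - (4 * (n : K) / (t : K) ^ 2) := by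
        field_simp
        linear_combination hrel
      rw [h3, Valuation.map_neg, map_div₀, map_mul, map_pow, ht1, one_pow, div_one]
      exact mul_le_of_le_one_right' (v.valuation_le_one n)

theorem unram_of_ur (v : HeightOneSpectrum (𝓞 K)) (h2 : (2 : 𝓞 K) ∈ v.asIdeal) (h : Ur v x) :
    ¬ ∃ w : Ideal (𝓞 K'), v.asIdeal.primesOver (𝓞 K') = {w} ∧
      v.asIdeal.map (algebraMap (𝓞 K) (𝓞 K')) = w ^ 2 := by
  rintro ⟨w, hw, hmap⟩
  obtain ⟨r, hr⟩ := h
  have hwm : w ∈ v.asIdeal.primesOver (𝓞 K') := by rw [hw]; exact Set.mem_singleton _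
  have hN : Ideal.absNorm w = nrm v := by
    rcases quad_types K K' hdeg v with ⟨hs, -⟩ | ⟨w', hw', hcase⟩
    · unfold Splits at hs
      rw [hw, Set.ncard_singleton] at hs
      omega
    · rw [hw] at hw'
      have : w = w' := Set.singleton_injective hw'
      subst this
      rcases hcase with ⟨-, hN⟩ | ⟨hm, -⟩
      · exact hN
      · exfalso
        rw [hmap] at hm
        have hp := (Ideal.prime_of_isPrime (qa_ne_bot hwm) hwm.1)
        have h3 : w * w = w * 1 := by rw [← pow_two, hm, mul_one]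
        have h4 := mul_left_cancel₀ hp.ne_zero h3
        exact hp.not_isUnit (h4 ▸ isUnit_one)
  set W : HeightOneSpectrum (𝓞 K') := qaH hwm with hWdef
  have hWa : W.asIdeal = w := rfl
  have hWp := W.prime
  have hval : ∀ y : K, W.valuation K' (algebraMap K K' y) = v.valuation K y ^ 2 := by
    intro y
    refine val_over (by norm_num) (J := ⊤) ?_ ?_ y
    · rw [hmap, hWa, ← Ideal.one_eq_top, mul_one]
    · rw [← Ideal.one_eq_top]
      exact fun h => hWp.not_isUnit (isUnit_of_dvd_one h)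
  obtain ⟨τ, hτ⟩ := exists_tau hdeg hθ hns
  have h20 : (2 : K') ≠ 0 := two_ne_zero
  set η : K' := (1 + algebraMap K K' (r : K) * θ) / 2 with hη
  have hτη : τ η = 1 - η := by
    rw [hη, map_div₀, map_add, map_mul, hτ, AlgEquiv.commutes, map_one, map_ofNat]
    field_simp
    ring
  have hprod : η * (η - 1) = algebraMap K K' (((x : K) * (r : K) ^ 2 - 1) / 4) := by
    rw [hη, map_div₀, map_sub, map_mul, map_pow, ← hθ, map_one, map_ofNat]
    field_simp
    ring
  have h40 : v.valuation K (4 : K) ≠ 0 := (Valuation.ne_zero_iff _).2 (by norm_num)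
  have hprodv : W.valuation K' (η * (η - 1)) ≤ 1 := by
    rw [hprod, hval, map_div₀]
    apply pow_le_one'
    exact div_le_one_of_le₀ hr zero_le
  have hη1 : W.valuation K' η ≤ 1 := by
    by_contra hcon
    push Not at hcon
    have h3 : W.valuation K' (η - 1) = W.valuation K' η := by
      apply Valuation.map_sub_eq_of_lt_left
      rwa [map_one]
    rw [map_mul, h3] at hprodv
    exact absurd hprodv (not_le.2 (one_lt_mul'' hcon hcon))
  obtain ⟨y, hy⟩ := W.exists_valuation_sub_lt_of_integer hη1 1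
  obtain ⟨a, ha⟩ := un_res_surj hwm hN y
  have hya : W.valuation K' ((y : K') - algebraMap K K' (a : K)) < 1 := by
    have h3 : ((y : K') - algebraMap K K' (a : K)) =
      algebraMap (𝓞 K') K' (y - algebraMap (𝓞 K) (𝓞 K') a) := by
      rw [map_sub]
      rfl
    rw [h3]
    exact (W.valuation_lt_one_iff_mem _).2 ha
  have hηa : W.valuation K' (η - algebraMap K K' (a : K)) < 1 := by
    have h3 : η - algebraMap K K' (a : K) =
      ((y : K') - algebraMap K K' (a : K)) - (algebraMap (𝓞 K') K' y - η) := by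
      show _ = ((y : K') - algebraMap K K' (a : K)) - ((y : K') - η)
      ring
    rw [h3]
    exact lt_of_le_of_lt (Valuation.map_sub _ _ _) (max_lt hya (by simpa using hy))
  have hηa' : W.valuation K' (1 - η - algebraMap K K' (a : K)) < 1 := by
    have h3 : 1 - η - algebraMap K K' (a : K) = τ (η - algebraMap K K' (a : K)) := by
      rw [map_sub, hτη, AlgEquiv.commutes]
    rw [h3, val_tau (by rw [hw]; rfl) τ]
    exact hηa
  have h2a : W.valuation K' (2 * algebraMap K K' (a : K)) < 1 := by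
    have h3 : 2 * algebraMap K K' (a : K) =
      algebraMap (𝓞 K') K' (algebraMap (𝓞 K) (𝓞 K') (2 * a)) := by
      rw [map_mul, map_mul, map_ofNat, map_ofNat]
      rfl
    rw [h3]
    refine (W.valuation_lt_one_iff_mem _).2 ?_
    exact (qa_mem_iff hwm _).2 (v.asIdeal.mul_mem_right _ h2)
  have hfin : W.valuation K' (1 : K') < 1 := by
    have h3 : (1 : K') = (η - algebraMap K K' (a : K)) + (1 - η - algebraMap K K' (a : K)) +
      2 * algebraMap K K' (a : K) := by ring
    rw [h3]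
    exact lt_of_le_of_lt (Valuation.map_add _ _ _)
      (max_lt (lt_of_le_of_lt (Valuation.map_add _ _ _) (max_lt hηa hηa')) h2a)
  rw [map_one] at hfin
  exact lt_irrefl _ hfin

end Pool.Agent.QD.N4
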