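import Pool.Agent.QD.N4.Odd
import Pool.Agent.QD.N4.Unr

/-!
# QD-N4-TyCongr: the type depends only on the local square class

`Ur_congr` PLAN: `Ur v x` with `r`; `(x / y)⁻¹` is a local square (`LSq_inv`): `s` with
`(x / y)⁻¹ s^2 - 1` of valuation at most that of `4` (choose `k` large); then
`y (r s)^2 - 1 = (x r^2 - 1) ((x/y)⁻¹ s^2) + ((x/y)⁻¹ s^2 - 1)`.
`ram_iff`: `unram_of_ur`, `ur_of_unram`.
`ty_congr'`: not over `2`: `ty_odd'` and `uK_congr`.  Over `2`: `Splits` iff `LSq`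
(`splits_of_LSq`, `LSq_of_splits`, `LSq_mul`), ramified iff not `Ur`; by `quad_types` `ty = 0` iff
ramified (norm `nrm v ≠ nrm v ^ 2`), `ty = -1` otherwise.
`ty_one'`: `splits_of_LSq`.
-/

namespace Pool.Agent.QD.N4

open NumberField IsDedekindDomain Pool.Agent.HWR

variable {K : Type} [Field K] [NumberField K]

private theorem tc_le_one {v : HeightOneSpectrum (𝓞 K)} {a : K} {k : ℕ} (h : closeOne v k a) :
    v.valuation K a ≤ 1 := by
  have h1 : a = (a - 1) + 1 := by ring
  rw [h1]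
  refine (v.valuation K).map_add_le (h.trans ?_) (by rw [map_one])
  rw [← WithZero.exp_zero, WithZero.exp_le_exp]
  omega

theorem Ur_congr (v : HeightOneSpectrum (𝓞 K)) {x y : Kˣ} (h : LSq v (x / y)) (hx : Ur v x) :
    Ur v y := by
  have h40 : (4 : K) ≠ 0 := by norm_num
  obtain ⟨r, hr⟩ := hx
  obtain ⟨k, hk⟩ : ∃ k : ℕ, ordK v (Units.mk0 (4 : K) h40) < k :=
    ⟨(ordK v (Units.mk0 (4 : K) h40)).toNat + 1, by omega⟩
  have h8 : WithZero.exp (-(k : ℤ)) ≤ v.valuation K 4 := by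
    by_contra hlt
    rw [not_le] at hlt
    have := (val_le_iff v (Units.mk0 (4 : K) h40) k).1 hlt.le
    omega
  obtain ⟨s, hs⟩ := LSq_inv v h k
  have h1 := tc_le_one hs
  unfold closeOne at hs
  refine ⟨r * s, ?_⟩
  have h2 : (y : K) * ((r * s : Kˣ) : K) ^ 2 - 1 =
      ((x : K) * (r : K) ^ 2 - 1) * ((((x / y)⁻¹ : Kˣ) : K) * (s : K) ^ 2) +
        ((((x / y)⁻¹ : Kˣ) : K) * (s : K) ^ 2 - 1) := by
    have hx0 := x.ne_zero
    have hy0 := y.ne_zero
    push_cast
    field_simp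
    ring
  rw [h2]
  refine (v.valuation K).map_add_le ?_ (hs.trans h8)
  rw [map_mul]
  calc _ ≤ v.valuation K (4 : K) * 1 := mul_le_mul' hr h1
    _ = _ := mul_one _

theorem ty_one' (K' : Type) [Field K'] [NumberField K'] [Algebra K K']
    (hdeg : Module.finrank K K' = 2) (x : Kˣ) (θ : K') (hθ : θ ^ 2 = algebraMap K K' (x : K))
    (hns : ¬ IsSquare x) (v : HeightOneSpectrum (𝓞 K)) (hx : LSq v x) : ty K K' v = 1 := by
  unfold ty
  rw [if_pos (splits_of_LSq K' hdeg x θ hθ hns v hx)]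

/-- over `2`: ramification and `Ur` -/
theorem ram_iff (K' : Type) [Field K'] [NumberField K'] [Algebra K K']
    (hdeg : Module.finrank K K' = 2) (x : Kˣ) (θ : K') (hθ : θ ^ 2 = algebraMap K K' (x : K))
    (hns : ¬ IsSquare x) (v : HeightOneSpectrum (𝓞 K)) (h2 : (2 : 𝓞 K) ∈ v.asIdeal) :
    (∃ w : Ideal (𝓞 K'), v.asIdeal.primesOver (𝓞 K') = {w} ∧
      v.asIdeal.map (algebraMap (𝓞 K) (𝓞 K')) = w ^ 2) ↔ ¬ Ur v x := by
  constructor
  · intro h hu
    exact unram_of_ur K' hdeg x θ hθ hns v h2 hu h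
  · intro h
    by_contra hc
    exact h (ur_of_unram K' hdeg x θ hθ hns v h2 hc)

private theorem tc_two_le (v : HeightOneSpectrum (𝓞 K)) : 2 ≤ nrm v := by
  have h0 : nrm v ≠ 0 := by
    intro h
    exact v.ne_bot (Ideal.absNorm_eq_zero_iff.1 h)
  have h1 : nrm v ≠ 1 := by
    intro h
    exact v.isPrime.ne_top (Ideal.absNorm_eq_one_iff.1 h)
  omega

/-- the type in terms of splitting and ramification -/
private theorem tc_ty (K' : Type) [Field K'] [NumberField K'] [Algebra K K']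
    (hdeg : Module.finrank K K' = 2) (v : HeightOneSpectrum (𝓞 K)) :
    open Classical in
    ty K K' v = if Splits K K' v then 1 else
      if ∃ w : Ideal (𝓞 K'), v.asIdeal.primesOver (𝓞 K') = {w} ∧
        v.asIdeal.map (algebraMap (𝓞 K) (𝓞 K')) = w ^ 2 then 0 else -1 := by
  classical
  have hq := tc_two_le v
  have hq2 : nrm v < nrm v ^ 2 := by nlinarith
  unfold ty
  by_cases hs : Splits K K' v
  · rw [if_pos hs, if_pos hs]
  · rw [if_neg hs, if_neg hs]
    rcases quad_types K K' hdeg v with h | ⟨w, hw, h | h⟩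
    · exact absurd h.1 hs
    · rw [if_neg, if_pos ⟨w, hw, h.1⟩]
      rintro ⟨w', hw', h'⟩
      rw [hw, Set.singleton_eq_singleton_iff] at hw'
      rw [← hw', h.2] at h'
      omega
    · rw [if_pos ⟨w, hw, h.2⟩, if_neg]
      rintro ⟨w', hw', h'⟩
      rw [hw, Set.singleton_eq_singleton_iff] at hw'
      rw [← hw', h.1] at h'
      have h3 := congrArg Ideal.absNorm h'
      rw [map_pow, h.2] at h3
      have h4 : 1 < nrm v ^ 2 := by omega
      nlinarith

theorem ty_congr' (K' : Type) [Field K'] [NumberField K'] [Algebra K K']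
    (hdeg : Module.finrank K K' = 2) (x : Kˣ) (θ : K') (hθ : θ ^ 2 = algebraMap K K' (x : K))
    (hns : ¬ IsSquare x)
    (K'' : Type) [Field K''] [NumberField K''] [Algebra K K''] (hdeg' : Module.finrank K K'' = 2)
    (y : Kˣ) (θ' : K'') (hθ' : θ' ^ 2 = algebraMap K K'' (y : K)) (hns' : ¬ IsSquare y)
    (v : HeightOneSpectrum (𝓞 K)) (h : LSq v (x / y)) : ty K K' v = ty K K'' v := by
  classical
  have h' : LSq v (y / x) := by
    have := LSq_inv v h
    rwa [inv_div] at this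
  by_cases h2 : (2 : 𝓞 K) ∈ v.asIdeal
  · rw [tc_ty K' hdeg v, tc_ty K'' hdeg' v, ram_iff K' hdeg x θ hθ hns v h2,
      ram_iff K'' hdeg' y θ' hθ' hns' v h2]
    have e1 : Splits K K' v ↔ Splits K K'' v := by
      constructor
      · intro hs
        have h3 := LSq_of_splits K' hdeg x θ hθ v hs
        refine splits_of_LSq K'' hdeg' y θ' hθ' hns' v ?_
        have h4 := LSq_mul v h' h3
        rwa [div_mul_cancel] at h4
      · intro hs
        have h3 := LSq_of_splits K'' hdeg' y θ' hθ' v hs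
        refine splits_of_LSq K' hdeg x θ hθ hns v ?_
        have h4 := LSq_mul v h h3
        rwa [div_mul_cancel] at h4
    have e2 : Ur v x ↔ Ur v y := ⟨fun hx => Ur_congr v h hx, fun hy => Ur_congr v h' hy⟩
    rw [e1, e2]
  · rw [ty_odd' K' hdeg x θ hθ hns v h2, ty_odd' K'' hdeg' y θ' hθ' hns' v h2]
    exact uK_congr v h

end Pool.Agent.QD.N4
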