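import Pool.Agent.QD.N4.DiffR
import Pool.Agent.QD.N4.TyCongr

/-!
# QD-N4-DiffC: the local different over `2` depends only on the local square class

PLAN. By `ram_iff` and `Ur_congr` `v` is ramified in both or in none of `K' = K(√x)`,
`K'' = K(√y)`.  In none: `dN_unram`.  Ramified: `v 𝓞 K' = W^2`, `v 𝓞 K'' = W'^2`, `N W = N W' = N v`
(`quad_types`).  `τ, τ'` from `exists_tau`.
Choose `z : K'` with `|z|_W = exp (-1)` (`valuation_exists_uniformizer`), `z = a + b θ`
(`exists_ab`).  `z - τ z = 2 b θ`, `z τ z = a^2 - b^2 x =: n`.  From `|τ z| = |z|` (`val_tau`) and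
`val_over` with `e = 2`: `|n|_v^2 = |n|_W = exp (-2)`, so `|n|_v = exp (-1)`; and
`|4 b^2 x|_v^2 = |2 b θ|_W^2 ≤ 1...`: `|2bθ|_W = |z - τz|_W ≤ exp (-1)` so `|4 b^2 x|_v ≤ 1` (in fact
`|4 b^2 x|_v = |z - τz|_W` because both are positive with equal squares).
Local square: choose `ρ` with `(y/x) ρ^2 - 1` of valuation `≤ exp (-M)`, `exp (-M) ≤ |4|_v exp (-2)`
(from `LSq v (x / y)` and `LSq_inv`).  Put `θ1 = ρ θ'`, `y1 = y ρ^2`, `z' = a + b θ1 : K''`.  Norm:
`z' τ' z' = a^2 - b^2 y1 = n - b^2 x (y1/x - 1)`, and `|b^2 x (y1/x - 1)|_v ≤ |4|⁻¹ |4| exp (-2)`, so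
`|z' τ' z'|_v = exp (-1)` and `|z'|_W' = exp (-1)` (`val_over`, `val_tau`).
`z' - τ' z' = 2 b θ1`, `|2 b θ1|_W'^2 = |4 b^2 y1|_v^2`, `|y1|_v = |x|_v`.  So
`|z' - τ'z'|_W' = |4 b^2 x|_v = |z - τ z|_W`, and `diff_val` for both fields gives equal
multiplicities, hence `dN K K' v = nrm v ^ d = dN K K'' v` (`finprod_mem_singleton`).
-/

set_option autoImplicit false

namespace Pool.Agent.QD.N4

open NumberField IsDedekindDomain Pool.Agent.HWR

variable {K : Type} [Field K] [NumberField K]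

/-- the place over a ramified `v` -/
theorem exists_W (K' : Type) [Field K'] [NumberField K'] [Algebra K K']
    (hdeg : Module.finrank K K' = 2) (v : HeightOneSpectrum (𝓞 K))
    (h : ∃ w : Ideal (𝓞 K'), v.asIdeal.primesOver (𝓞 K') = {w} ∧
      v.asIdeal.map (algebraMap (𝓞 K) (𝓞 K')) = w ^ 2) :
    ∃ W : HeightOneSpectrum (𝓞 K'), v.asIdeal.primesOver (𝓞 K') = {W.asIdeal} ∧
      v.asIdeal.map (algebraMap (𝓞 K) (𝓞 K')) = W.asIdeal ^ 2 ∧
      Ideal.absNorm W.asIdeal = nrm v := by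
  obtain ⟨w, hw1, hw2⟩ := h
  have hmem : w ∈ v.asIdeal.primesOver (𝓞 K') := by
    rw [hw1]
    exact Set.mem_singleton w
  have hwp : w.IsPrime := hmem.1
  have hover : w.LiesOver v.asIdeal := hmem.2
  have hw0 : w ≠ ⊥ := Ideal.ne_bot_of_mem_primesOver v.ne_bot hmem
  refine ⟨⟨w, hwp, hw0⟩, hw1, hw2, ?_⟩
  show Ideal.absNorm w = nrm v
  rcases quad_types K K' hdeg v with ⟨hs, _⟩ | ⟨w', hw', h'⟩
  · exfalso
    unfold Splits at hs
    rw [hw1, Set.ncard_singleton] at hs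
    omega
  · have e : w = w' := by
      rw [hw1] at hw'
      exact Set.singleton_injective hw'
    subst e
    rcases h' with ⟨_, h'⟩ | ⟨h', _⟩
    · exact h'
    · exfalso
      rw [hw2] at h'
      have h1 : w * w = w * 1 := by rw [mul_one, ← pow_two, h']
      have h2 : w = 1 := mul_left_cancel₀ hw0 h1
      exact hwp.ne_top (h2.trans Ideal.one_eq_top)

theorem sq_inj_wz {a b : WithZero (Multiplicative ℤ)} (h : a ^ 2 = b ^ 2) : a = b :=
  (pow_left_inj₀ zero_le zero_le two_ne_zero).1 h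

theorem exp_two_eq : (WithZero.exp (-1 : ℤ)) ^ 2 = WithZero.exp (-2 : ℤ) := by
  rw [← WithZero.exp_nsmul]
  norm_num

/-- the main computation in one of the two fields -/
theorem diff_calc (K' : Type) [Field K'] [NumberField K'] [Algebra K K']
    {x : K} {θ : K'} (hθ : θ ^ 2 = algebraMap K K' x)
    (τ : K' ≃ₐ[K] K') (hτ : τ θ = -θ) {v : HeightOneSpectrum (𝓞 K)}
    {W : HeightOneSpectrum (𝓞 K')}
    (hW : v.asIdeal.primesOver (𝓞 K') = {W.asIdeal})
    (hW2 : v.asIdeal.map (algebraMap (𝓞 K) (𝓞 K')) = W.asIdeal ^ 2) (a b : K) :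
    W.valuation K' (algebraMap K K' a + algebraMap K K' b * θ) ^ 2 =
        v.valuation K (a ^ 2 - b ^ 2 * x) ^ 2 ∧
    W.valuation K' ((algebraMap K K' a + algebraMap K K' b * θ) -
        τ (algebraMap K K' a + algebraMap K K' b * θ)) = v.valuation K (4 * b ^ 2 * x) := by
  have hover : ∀ y : K, W.valuation K' (algebraMap K K' y) = v.valuation K y ^ 2 := by
    intro y
    refine val_over (J := ⊤) (by norm_num) ?_ ?_ y
    · rw [hW2, Ideal.mul_top]
    · intro hd
      exact W.isPrime.ne_top (top_le_iff.1 (Ideal.le_of_dvd hd))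
  have hτz : τ (algebraMap K K' a + algebraMap K K' b * θ) =
      algebraMap K K' a - algebraMap K K' b * θ := by
    rw [map_add, map_mul, AlgEquiv.commutes, AlgEquiv.commutes, hτ]
    ring
  constructor
  · have h1 : (algebraMap K K' a + algebraMap K K' b * θ) *
        τ (algebraMap K K' a + algebraMap K K' b * θ) = algebraMap K K' (a ^ 2 - b ^ 2 * x) := by
      rw [hτz, map_sub, map_mul, map_pow, map_pow, ← hθ]
      ring
    have h2 := congrArg (W.valuation K') h1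
    rw [map_mul, val_tau hW τ, hover] at h2
    rw [← h2, pow_two]
  · apply sq_inj_wz
    rw [← map_pow, ← hover]
    congr 1
    rw [hτz, map_mul, map_mul, map_pow, ← hθ, map_ofNat]
    ring

theorem dN_congr (K' : Type) [Field K'] [NumberField K'] [Algebra K K']
    (hdeg : Module.finrank K K' = 2) (x : Kˣ) (θ : K') (hθ : θ ^ 2 = algebraMap K K' (x : K))
    (hns : ¬ IsSquare x)
    (K'' : Type) [Field K''] [NumberField K''] [Algebra K K''] (hdeg' : Module.finrank K K'' = 2)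
    (y : Kˣ) (θ' : K'') (hθ' : θ' ^ 2 = algebraMap K K'' (y : K)) (hns' : ¬ IsSquare y)
    (v : HeightOneSpectrum (𝓞 K)) (h2 : (2 : 𝓞 K) ∈ v.asIdeal) (h : LSq v (x / y)) :
    dN K K' v = dN K K'' v := by
  have hinv : LSq v (y / x) := by
    have := LSq_inv v h
    rwa [inv_div] at this
  by_cases hram : ∃ w : Ideal (𝓞 K'), v.asIdeal.primesOver (𝓞 K') = {w} ∧
      v.asIdeal.map (algebraMap (𝓞 K) (𝓞 K')) = w ^ 2
  swap
  · have hram' : ¬ ∃ w : Ideal (𝓞 K''), v.asIdeal.primesOver (𝓞 K'') = {w} ∧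
      v.asIdeal.map (algebraMap (𝓞 K) (𝓞 K'')) = w ^ 2 := by
      rw [ram_iff K' hdeg x θ hθ hns v h2, not_not] at hram
      rw [ram_iff K'' hdeg' y θ' hθ' hns' v h2, not_not]
      exact Ur_congr v h hram
    rw [dN_unram K K' hdeg v hram, dN_unram K K'' hdeg' v hram']
  have hram' : ∃ w : Ideal (𝓞 K''), v.asIdeal.primesOver (𝓞 K'') = {w} ∧
      v.asIdeal.map (algebraMap (𝓞 K) (𝓞 K'')) = w ^ 2 := by
    rw [ram_iff K' hdeg x θ hθ hns v h2] at hram
    rw [ram_iff K'' hdeg' y θ' hθ' hns' v h2]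
    exact fun hu => hram (Ur_congr v hinv hu)
  obtain ⟨W, hW, hW2, hWn⟩ := exists_W K' hdeg v hram
  obtain ⟨W', hW', hW2', hWn'⟩ := exists_W K'' hdeg' v hram'
  obtain ⟨τ, hτ⟩ := exists_tau hdeg hθ hns
  obtain ⟨τ', hτ'⟩ := exists_tau hdeg' hθ' hns'
  obtain ⟨z, hz⟩ := W.valuation_exists_uniformizer K'
  obtain ⟨a, b, hab⟩ := exists_ab hdeg hθ hns z
  obtain ⟨hc1, hc2⟩ := diff_calc K' hθ τ hτ hW hW2 a b
  rw [← hab] at hc1 hc2
  have hn : v.valuation K (a ^ 2 - b ^ 2 * (x : K)) = WithZero.exp (-1 : ℤ) := by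
    apply sq_inj_wz
    rw [← hc1, hz]
  have hd : v.valuation K (4 * b ^ 2 * (x : K)) ≤ WithZero.exp (-1 : ℤ) := by
    rw [← hc2]
    refine (Valuation.map_sub _ _ _).trans ?_
    rw [val_tau hW τ, hz, max_self]
  -- the square root of `y / x` up to high order
  have h4 : v.valuation K (4 : K) ≠ 0 := by
    rw [Valuation.ne_zero_iff]
    norm_num
  set m : ℤ := WithZero.log (v.valuation K (4 : K)) with hm
  have hm4 : v.valuation K (4 : K) = WithZero.exp m := (WithZero.exp_log h4).symm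
  obtain ⟨ρ, hρ⟩ := hinv ((1 - m).toNat)
  unfold closeOne at hρ
  have hMle : WithZero.exp (-((1 - m).toNat : ℤ)) ≤
      v.valuation K (4 : K) * WithZero.exp (-1 : ℤ) := by
    rw [hm4, ← WithZero.exp_add, WithZero.exp_le_exp]
    have := Int.self_le_toNat (1 - m)
    omega
  have hρ4 := hρ.trans hMle
  set q : K := ((y / x : Kˣ) : K) * (ρ : K) ^ 2 with hq
  have hx0 : (x : K) ≠ 0 := x.ne_zero
  have hqx : q * (x : K) = (y : K) * (ρ : K) ^ 2 := by
    rw [hq, Units.val_div_eq_div_val]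
    field_simp
  have hdiff : v.valuation K (b ^ 2 * (x : K) * (q - 1)) ≤ WithZero.exp (-2 : ℤ) := by
    have e : v.valuation K (4 : K) * v.valuation K (b ^ 2 * (x : K) * (q - 1)) =
        v.valuation K (4 * b ^ 2 * (x : K)) * v.valuation K (q - 1) := by
      rw [← map_mul, ← map_mul]
      congr 1
      ring
    have h5 : v.valuation K (4 : K) * v.valuation K (b ^ 2 * (x : K) * (q - 1)) ≤
        v.valuation K (4 : K) * WithZero.exp (-2 : ℤ) := by
      rw [e]
      calc v.valuation K (4 * b ^ 2 * (x : K)) * v.valuation K (q - 1)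
          ≤ WithZero.exp (-1 : ℤ) * (v.valuation K (4 : K) * WithZero.exp (-1 : ℤ)) :=
            mul_le_mul' hd hρ4
        _ = v.valuation K (4 : K) * WithZero.exp (-2 : ℤ) := by
            rw [← exp_two_eq, pow_two, mul_left_comm]
    exact le_of_mul_le_mul_left h5 (zero_lt_iff.2 h4)
  have hq1 : v.valuation K (q - 1) < 1 := by
    refine hρ4.trans_lt ?_
    have h41 : v.valuation K (4 : K) ≤ 1 := by
      have h41 := v.valuation_le_one (K := K) (4 : 𝓞 K)
      have e4 : algebraMap (𝓞 K) K 4 = 4 := map_ofNat (algebraMap (𝓞 K) K) 4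
      have h42 : v.valuation K (algebraMap (𝓞 K) K 4) ≤ 1 := h41
      rwa [e4] at h42
    calc v.valuation K (4 : K) * WithZero.exp (-1 : ℤ) ≤ 1 * WithZero.exp (-1 : ℤ) :=
          mul_le_mul' h41 le_rfl
      _ < 1 := by
          rw [one_mul, ← WithZero.exp_zero (M := ℤ), WithZero.exp_lt_exp]
          norm_num
  have hqv : v.valuation K q = 1 := by
    have e : q = 1 + (q - 1) := by ring
    rw [e]
    exact Valuation.map_one_add_of_lt _ hq1
  -- the second field
  have hθ1 : (algebraMap K K'' (ρ : K) * θ') ^ 2 =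
      algebraMap K K'' ((y : K) * (ρ : K) ^ 2) := by
    rw [mul_pow, hθ', map_mul, map_pow]
    ring
  have hτ1 : τ' (algebraMap K K'' (ρ : K) * θ') = -(algebraMap K K'' (ρ : K) * θ') := by
    rw [map_mul, AlgEquiv.commutes, hτ']
    ring
  obtain ⟨hc1', hc2'⟩ := diff_calc K'' hθ1 τ' hτ1 hW' hW2' a b
  set z' : K'' := algebraMap K K'' a + algebraMap K K'' b * (algebraMap K K'' (ρ : K) * θ')
    with hz'
  have hn' : v.valuation K (a ^ 2 - b ^ 2 * ((y : K) * (ρ : K) ^ 2)) =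
      WithZero.exp (-1 : ℤ) := by
    have e : a ^ 2 - b ^ 2 * ((y : K) * (ρ : K) ^ 2) =
        (a ^ 2 - b ^ 2 * (x : K)) - b ^ 2 * (x : K) * (q - 1) := by
      rw [← hqx]
      ring
    rw [e, Valuation.map_sub_eq_of_lt_left, hn]
    rw [hn]
    refine hdiff.trans_lt ?_
    rw [WithZero.exp_lt_exp]
    norm_num
  have hzv' : W'.valuation K'' z' = WithZero.exp (-1 : ℤ) := by
    apply sq_inj_wz
    rw [hc1', hn']
  have hdv := diff_val hdeg hθ hns τ hτ hW hW2 z hz
  have hdv' := diff_val hdeg' hθ' hns' τ' hτ' hW' hW2' z' hzv'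
  have hval : v.valuation K (4 * b ^ 2 * ((y : K) * (ρ : K) ^ 2)) =
      v.valuation K (4 * b ^ 2 * (x : K)) := by
    rw [← hqx]
    have e : 4 * b ^ 2 * (q * (x : K)) = 4 * b ^ 2 * (x : K) * q := by ring
    rw [e, map_mul, hqv, mul_one]
  rw [hc2] at hdv
  rw [hc2', hval, hdv] at hdv'
  have hmult : multiplicity W.asIdeal (differentIdeal (𝓞 K) (𝓞 K')) =
      multiplicity W'.asIdeal (differentIdeal (𝓞 K) (𝓞 K'')) := by
    have := WithZero.exp_injective hdv'
    omega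
  unfold dN
  rw [hW, hW', finprod_mem_singleton, finprod_mem_singleton, hWn, hWn', hmult]

end Pool.Agent.QD.N4
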