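import Pool.Agent.QD.N4.Val
import Pool.Agent.QD.N4.DiffA

/-!
# QD-N4-DiffR: the different at a ramified place

`v 𝓞 K' = W^2`, `z : K'` with `|z|_W = exp (-1)`.  Claim: `|z - τ z|_W = exp (-d)`, `d` = order of
`W` in the different.

PLAN. (1) Reduction to `z : 𝓞 K'`: there is `m : 𝓞 K` not in `v` with `m z ∈ 𝓞 K'`:
`exists_primeCompl_mul_eq_of_integer` (AdicValuation.lean) gives `b : 𝓞 K'` not in `W` with
`b z ∈ 𝓞 K'`; take `m = b τ(b)` (an element of `𝓞 K`: the norm; not in `v` because `W` is the only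
prime over `v` and is stable under `τ`).  `|m|_W = 1`, and `m z - τ(m z) = m (z - τ z)`.
(2) `z : 𝓞 K'`, `z ∈ W \ W^2`.  `z ∉ K` (its valuation is an odd power, `val_over` with `e = 2`), so
`K' = K(z)`, the minimal polynomial of `z` over `𝓞 K` is `T^2 - (z + τz) T + z τz`, its derivative
at `z` is `z - τ z`.  Mathlib (RingTheory/DedekindDomain/Different.lean):
`conductor_mul_differentIdeal (A := 𝓞 K) K K' z h : conductor (𝓞 K) z * differentIdeal (𝓞 K) (𝓞 K')
 = Ideal.span {aeval z (derivative (minpoly (𝓞 K) z))}`.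
(3) `W ∤ conductor (𝓞 K) z`: there is `α : 𝓞 K`, `α - 1 ∈ v`, with `α 𝓞 K' ⊆ 𝓞 K[z]`
(then `α ∈ conductor`, `α ∉ W`): Nakayama (`Submodule.exists_sub_one_mem_and_smul_eq_zero_of_fg_of_le_smul`
for the `𝓞 K`-module `𝓞 K' / 𝓞 K[z]`, or the version `..of_le_smul_of_le_jacobson..`): need
`𝓞 K' = 𝓞 K[z] + v 𝓞 K'`, i.e. every `y : 𝓞 K'` is `a + b z` modulo `W^2 = v 𝓞 K'` with `a, b : 𝓞 K`:
residue fields agree (`N W = N v` by `quad_types`, so `𝓞 K / v → 𝓞 K' / W` is bijective): `y - a ∈ W`;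
`W / W^2` is one-dimensional over `𝓞 K' / W` and `z` generates it (`W = W^2 + (z)`), so
`y - a ∈ c z + W^2` with `c : 𝓞 K'`, and `c ≡ b` mod `W`.
(4) So the orders of `W` in `(z - τ z)` and in the different agree; translate into valuations
(`intValuation_if_neg` or `intValuation_eq_exp_neg_multiplicity`).
-/

namespace Pool.Agent.QD.N4

open NumberField IsDedekindDomain Pool.Agent.HWR

variable {K : Type} [Field K] [NumberField K] {K' : Type} [Field K'] [NumberField K']
  [Algebra K K']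

/-- residue fields of degree one -/
private theorem dr_res_surj {v : HeightOneSpectrum (𝓞 K)} {w : Ideal (𝓞 K')}
    (hw : w ∈ v.asIdeal.primesOver (𝓞 K')) (hN : Ideal.absNorm w = nrm v) (y : 𝓞 K') :
    ∃ a : 𝓞 K, y - algebraMap (𝓞 K) (𝓞 K') a ∈ w := by
  have hle : v.asIdeal ≤ w.comap (algebraMap (𝓞 K) (𝓞 K')) := (qa_comap hw).ge
  set f : 𝓞 K ⧸ v.asIdeal →+* 𝓞 K' ⧸ w := Ideal.quotientMap w (algebraMap (𝓞 K) (𝓞 K')) hle with hf
  have hinj : Function.Injective f := by
    apply Ideal.quotientMap_injective'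
    exact (qa_comap hw).le
  have hfin : Finite (𝓞 K' ⧸ w) := Ideal.finiteQuotientOfFreeOfNeBot w (qa_ne_bot hw)
  have hcard : Nat.card (𝓞 K' ⧸ w) = Nat.card (𝓞 K ⧸ v.asIdeal) := by
    have h1 := hN
    unfold nrm at h1
    rwa [Ideal.absNorm_apply, Ideal.absNorm_apply, Submodule.cardQuot_apply,
      Submodule.cardQuot_apply] at h1
  have hbij : Function.Bijective f := hinj.bijective_of_nat_card_le hcard.le
  obtain ⟨b, hb⟩ := hbij.2 (Ideal.Quotient.mk w y)
  obtain ⟨a, rfl⟩ := Ideal.Quotient.mk_surjective b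
  refine ⟨a, ?_⟩
  rw [hf, Ideal.quotientMap_mk] at hb
  rw [← Ideal.Quotient.eq]
  exact hb.symm

/-- the norm of the prime over a ramified place -/
private theorem dr_norm (hdeg : Module.finrank K K' = 2) {v : HeightOneSpectrum (𝓞 K)}
    {W : HeightOneSpectrum (𝓞 K')} (hW : v.asIdeal.primesOver (𝓞 K') = {W.asIdeal})
    (hW2 : v.asIdeal.map (algebraMap (𝓞 K) (𝓞 K')) = W.asIdeal ^ 2) :
    Ideal.absNorm W.asIdeal = nrm v := by
  rcases quad_types K K' hdeg v with ⟨hs, -⟩ | ⟨w', hw', hcase⟩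
  · unfold Splits at hs
    rw [hW, Set.ncard_singleton] at hs
    omega
  · rw [hW] at hw'
    have : W.asIdeal = w' := Set.singleton_injective hw'
    subst this
    rcases hcase with ⟨-, hN⟩ | ⟨hm, -⟩
    · exact hN
    · exfalso
      rw [hW2] at hm
      have hp := W.prime
      have h3 : W.asIdeal * W.asIdeal = W.asIdeal * 1 := by rw [← pow_two, hm, mul_one]
      have h4 := mul_left_cancel₀ hp.ne_zero h3
      exact hp.not_isUnit (h4 ▸ isUnit_one)

/-- trace and norm of an integral element -/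
private theorem dr_tr_nm (hdeg : Module.finrank K K' = 2)
    {x : Kˣ} {θ : K'} (hθ : θ ^ 2 = algebraMap K K' (x : K)) (hns : ¬ IsSquare x)
    (τ : K' ≃ₐ[K] K') (hτ : τ θ = -θ) (η : 𝓞 K') : ∃ t n : 𝓞 K,
      algebraMap K K' (t : K) = (η : K') + τ (η : K') ∧
      algebraMap K K' (n : K) = (η : K') * τ (η : K') := by
  obtain ⟨a, b, hab⟩ := exists_ab hdeg hθ hns (η : K')
  have hint : IsIntegral ℤ (η : K') := RingOfIntegers.isIntegral_coe η
  have hintτ : IsIntegral ℤ (τ (η : K')) := hint.map τ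
  have hτη : τ (η : K') = algebraMap K K' a - algebraMap K K' b * θ := by
    rw [hab, map_add, map_mul, hτ, AlgEquiv.commutes, AlgEquiv.commutes]
    ring
  have e1 : algebraMap K K' (2 * a) = (η : K') + τ (η : K') := by
    rw [hτη, hab, map_mul, map_ofNat]
    ring
  have e2 : algebraMap K K' (a ^ 2 - b ^ 2 * (x : K)) = (η : K') * τ (η : K') := by
    rw [hτη, hab, map_sub, map_mul, map_pow, map_pow, ← hθ]
    ring
  have h1 : IsIntegral ℤ (algebraMap K K' (2 * a)) := by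
    rw [e1]
    exact hint.add hintτ
  have h2 : IsIntegral ℤ (algebraMap K K' (a ^ 2 - b ^ 2 * (x : K))) := by
    rw [e2]
    exact hint.mul hintτ
  have h1' : IsIntegral ℤ (2 * a) :=
    (isIntegral_algebraMap_iff (algebraMap K K').injective).1 h1
  have h2' : IsIntegral ℤ (a ^ 2 - b ^ 2 * (x : K)) :=
    (isIntegral_algebraMap_iff (algebraMap K K').injective).1 h2
  exact ⟨⟨2 * a, h1'⟩, ⟨a ^ 2 - b ^ 2 * (x : K), h2'⟩, e1, e2⟩

open Polynomial in
/-- the minimal polynomial of an integral element outside `K` -/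
private theorem dr_minpoly (z : 𝓞 K') (hz : ∀ y : 𝓞 K, algebraMap (𝓞 K) (𝓞 K') y ≠ z)
    (t n : 𝓞 K) (h : z ^ 2 - algebraMap (𝓞 K) (𝓞 K') t * z + algebraMap (𝓞 K) (𝓞 K') n = 0) :
    aeval z (derivative (minpoly (𝓞 K) z)) = 2 * z - algebraMap (𝓞 K) (𝓞 K') t := by
  have hdegP : (X ^ 2 - C t * X + C n : (𝓞 K)[X]).degree = 2 := by
    have : (X ^ 2 - C t * X + C n : (𝓞 K)[X]) = C 1 * X ^ 2 + C (-t) * X + C n := by
      rw [C_1, C_neg]
      ring
    rw [this, degree_quadratic one_ne_zero]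
  have hmonP : (X ^ 2 - C t * X + C n : (𝓞 K)[X]).Monic := by
    have : (X ^ 2 - C t * X + C n : (𝓞 K)[X]) = C 1 * X ^ 2 + C (-t) * X + C n := by
      rw [C_1, C_neg]
      ring
    rw [this, Monic, leadingCoeff_quadratic one_ne_zero]
  have hroot : aeval z (X ^ 2 - C t * X + C n : (𝓞 K)[X]) = 0 := by
    simp only [map_add, map_sub, map_mul, map_pow, aeval_X, aeval_C]
    exact h
  have hP : (X ^ 2 - C t * X + C n : (𝓞 K)[X]) = minpoly (𝓞 K) z := by
    refine IsIntegrallyClosed.minpoly.unique hmonP hroot fun Q hQ hQz => ?_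
    rw [hdegP]
    by_contra hlt
    push Not at hlt
    have hnd : Q.natDegree ≤ 1 := by
      have h1 : Q.degree = (Q.natDegree : WithBot ℕ) := degree_eq_natDegree hQ.ne_zero
      rw [h1] at hlt
      have h2 : Q.natDegree < 2 := by exact_mod_cast hlt
      omega
    rcases Nat.le_one_iff_eq_zero_or_eq_one.1 hnd with h0 | h1
    · have h2 : Q = 1 := (Polynomial.Monic.natDegree_eq_zero hQ).1 h0
      rw [h2, map_one] at hQz
      exact one_ne_zero hQz
    · have h2 : Q = X + C (Q.coeff 0) := hQ.eq_X_add_C h1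
      rw [h2, map_add, aeval_X, aeval_C] at hQz
      apply hz (-(Q.coeff 0))
      rw [map_neg]
      linear_combination (-1 : 𝓞 K') * hQz
  rw [← hP]
  have hd : derivative (X ^ 2 - C t * X + C n : (𝓞 K)[X]) = C 2 * X - C t := by
    rw [derivative_add, derivative_sub, derivative_C_mul, derivative_X_pow, derivative_C,
      derivative_X, add_zero, mul_one, pow_one, Nat.cast_ofNat]
  rw [hd, map_sub, map_mul, aeval_C, aeval_C, aeval_X, map_ofNat]

/-- The prime `W` does not divide the conductor of a uniformizer. -/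
private theorem dr_cond {v : HeightOneSpectrum (𝓞 K)} {W : HeightOneSpectrum (𝓞 K')}
    (hW : v.asIdeal.primesOver (𝓞 K') = {W.asIdeal})
    (hW2 : v.asIdeal.map (algebraMap (𝓞 K) (𝓞 K')) = W.asIdeal ^ 2)
    (hN : Ideal.absNorm W.asIdeal = nrm v) (z : 𝓞 K')
    (hz : W.intValuation z = WithZero.exp (-1 : ℤ)) :
    ¬ W.asIdeal ∣ conductor (𝓞 K) z := by
  have hwm : W.asIdeal ∈ v.asIdeal.primesOver (𝓞 K') := by rw [hW]; exact Set.mem_singleton _
  have hzW : z ∈ W.asIdeal := by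
    rw [← W.intValuation_lt_one_iff_mem, hz, ← WithZero.exp_zero, WithZero.exp_lt_exp]
    norm_num
  -- decomposition modulo `W^2`
  have hdec : ∀ y : 𝓞 K', ∃ a b : 𝓞 K,
      y - (algebraMap (𝓞 K) (𝓞 K') a + algebraMap (𝓞 K) (𝓞 K') b * z) ∈ W.asIdeal ^ 2 := by
    intro y
    obtain ⟨a, ha⟩ := dr_res_surj hwm hN y
    have h1 : W.intValuation (y - algebraMap (𝓞 K) (𝓞 K') a) ≤ W.intValuation z := by
      rw [hz]
      have := (W.intValuation_le_pow_iff_mem (y - algebraMap (𝓞 K) (𝓞 K') a) 1).2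
        (by rwa [pow_one])
      simpa using this
    obtain ⟨c, hc⟩ := W.exists_intValuation_mul_sub_lt h1 (Multiplicative.ofAdd (-2 : ℤ))
    have h2 : y - algebraMap (𝓞 K) (𝓞 K') a - c * z ∈ W.asIdeal ^ 2 := by
      rw [← W.intValuation_le_pow_iff_mem]
      exact hc.le
    obtain ⟨b, hb⟩ := dr_res_surj hwm hN c
    refine ⟨a, b, ?_⟩
    have h3 : y - (algebraMap (𝓞 K) (𝓞 K') a + algebraMap (𝓞 K) (𝓞 K') b * z) =
      (y - algebraMap (𝓞 K) (𝓞 K') a - c * z) + (c - algebraMap (𝓞 K) (𝓞 K') b) * z := by ring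
    rw [h3]
    refine Ideal.add_mem _ h2 ?_
    rw [pow_two]
    exact Ideal.mul_mem_mul hb hzW
  set N : Submodule (𝓞 K) (𝓞 K') := Subalgebra.toSubmodule (Algebra.adjoin (𝓞 K) {z}) with hNdef
  have hNak : (⊤ : Submodule (𝓞 K) (𝓞 K' ⧸ N)) ≤ v.asIdeal • (⊤ : Submodule (𝓞 K) (𝓞 K' ⧸ N)) := by
    have h1 : v.asIdeal • (⊤ : Submodule (𝓞 K) (𝓞 K' ⧸ N)) =
        (v.asIdeal • (⊤ : Submodule (𝓞 K) (𝓞 K'))).map N.mkQ := by
      rw [Submodule.map_smul'', Submodule.map_top, Submodule.range_mkQ]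
    rw [h1]
    intro u _
    obtain ⟨y, rfl⟩ := Submodule.mkQ_surjective N u
    obtain ⟨a, b, hab⟩ := hdec y
    refine ⟨y - (algebraMap (𝓞 K) (𝓞 K') a + algebraMap (𝓞 K) (𝓞 K') b * z), ?_, ?_⟩
    · rw [SetLike.mem_coe, Ideal.smul_top_eq_map, Submodule.restrictScalars_mem, hW2]
      exact hab
    · rw [map_sub, sub_eq_self, Submodule.mkQ_apply, Submodule.Quotient.mk_eq_zero, hNdef,
        Subalgebra.mem_toSubmodule]
      refine Subalgebra.add_mem _ (Subalgebra.algebraMap_mem _ a)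
        (Subalgebra.mul_mem _ (Subalgebra.algebraMap_mem _ b) ?_)
      exact Algebra.subset_adjoin (Set.mem_singleton z)
  have hfg : (⊤ : Submodule (𝓞 K) (𝓞 K' ⧸ N)).FG := Module.Finite.fg_top
  obtain ⟨α, hα1, hα⟩ :=
    Submodule.exists_sub_one_mem_and_smul_eq_zero_of_fg_of_le_smul v.asIdeal _ hfg hNak
  intro hdvd
  have hcond : algebraMap (𝓞 K) (𝓞 K') α ∈ conductor (𝓞 K) z := by
    rw [mem_conductor_iff]
    intro b
    have h1 := hα (N.mkQ b) trivial
    rw [← map_smul, Submodule.mkQ_apply, Submodule.Quotient.mk_eq_zero, hNdef,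
      Subalgebra.mem_toSubmodule, Algebra.smul_def] at h1
    exact h1
  have hαW : algebraMap (𝓞 K) (𝓞 K') α ∈ W.asIdeal := (Ideal.dvd_iff_le.1 hdvd) hcond
  have hαv : α ∈ v.asIdeal := (qa_mem_iff hwm α).1 hαW
  apply v.isPrime.ne_top
  rw [Ideal.eq_top_iff_one]
  have : (1 : 𝓞 K) = α - (α - 1) := by ring
  rw [this]
  exact Ideal.sub_mem _ hαv hα1

variable (hdeg : Module.finrank K K' = 2)
  {x : Kˣ} {θ : K'} (hθ : θ ^ 2 = algebraMap K K' (x : K)) (hns : ¬ IsSquare x)
  (τ : K' ≃ₐ[K] K') (hτ : τ θ = -θ)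

include hdeg hθ hns hτ

/-- The integral case. -/
private theorem dr_int {v : HeightOneSpectrum (𝓞 K)} {W : HeightOneSpectrum (𝓞 K')}
    (hW : v.asIdeal.primesOver (𝓞 K') = {W.asIdeal})
    (hW2 : v.asIdeal.map (algebraMap (𝓞 K) (𝓞 K')) = W.asIdeal ^ 2) (z : 𝓞 K')
    (hz : W.intValuation z = WithZero.exp (-1 : ℤ)) :
    W.valuation K' ((z : K') - τ (z : K')) =
      WithZero.exp (-(multiplicity W.asIdeal (differentIdeal (𝓞 K) (𝓞 K')) : ℤ)) := by
  have hfd : FiniteDimensional K K' := Module.finite_of_finrank_pos (by omega)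
  have hwm : W.asIdeal ∈ v.asIdeal.primesOver (𝓞 K') := by rw [hW]; exact Set.mem_singleton _
  have hN := dr_norm hdeg hW hW2
  have hzW : z ∈ W.asIdeal := by
    rw [← W.intValuation_lt_one_iff_mem, hz, ← WithZero.exp_zero, WithZero.exp_lt_exp]
    norm_num
  have hzW2 : z ∉ W.asIdeal ^ 2 := by
    rw [← W.intValuation_le_pow_iff_mem, hz, WithZero.exp_le_exp]
    norm_num
  have hzK : ∀ y : 𝓞 K, algebraMap (𝓞 K) (𝓞 K') y ≠ z := by
    rintro y rfl
    apply hzW2
    rw [← hW2]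
    exact Ideal.mem_map_of_mem _ ((qa_mem_iff hwm y).1 hzW)
  obtain ⟨t, n, ht, hn⟩ := dr_tr_nm hdeg hθ hns τ hτ z
  have hrel : z ^ 2 - algebraMap (𝓞 K) (𝓞 K') t * z + algebraMap (𝓞 K) (𝓞 K') n = 0 := by
    apply RingOfIntegers.ext
    show ((z : K') ^ 2 - algebraMap K K' (t : K) * (z : K') + algebraMap K K' (n : K)) = 0
    rw [ht, hn]
    ring
  have hmin := dr_minpoly z hzK t n hrel
  obtain ⟨a, b, hab⟩ := exists_ab hdeg hθ hns (z : K')
  have hb0 : b ≠ 0 := by
    rintro rfl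
    rw [map_zero, zero_mul, add_zero] at hab
    have hint : IsIntegral ℤ a := by
      have : IsIntegral ℤ (algebraMap K K' a) := by
        rw [← hab]
        exact RingOfIntegers.isIntegral_coe z
      exact (isIntegral_algebraMap_iff (algebraMap K K').injective).1 this
    apply hzK ⟨a, hint⟩
    apply RingOfIntegers.ext
    exact hab.symm
  have hadj : Algebra.adjoin K {algebraMap (𝓞 K') K' z} = ⊤ := by
    rw [eq_top_iff]
    intro u _
    obtain ⟨c, d, hcd⟩ := exists_ab hdeg hθ hns u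
    have hzmem : algebraMap (𝓞 K') K' z ∈ Algebra.adjoin K {algebraMap (𝓞 K') K' z} :=
      Algebra.subset_adjoin (Set.mem_singleton _)
    have hθe : θ = algebraMap K K' b⁻¹ * (algebraMap (𝓞 K') K' z - algebraMap K K' a) := by
      have h1 : algebraMap (𝓞 K') K' z = algebraMap K K' a + algebraMap K K' b * θ := hab
      have h2 : algebraMap K K' b ≠ 0 := by
        rwa [Ne, map_eq_zero_iff _ (algebraMap K K').injective]
      rw [h1, map_inv₀]
      field_simp
      ring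
    have hθmem : θ ∈ Algebra.adjoin K {algebraMap (𝓞 K') K' z} := by
      rw [hθe]
      exact Subalgebra.mul_mem _ (Subalgebra.algebraMap_mem _ _)
        (Subalgebra.sub_mem _ hzmem (Subalgebra.algebraMap_mem _ _))
    rw [hcd]
    exact Subalgebra.add_mem _ (Subalgebra.algebraMap_mem _ _)
      (Subalgebra.mul_mem _ (Subalgebra.algebraMap_mem _ _) hθmem)
  have hcd := conductor_mul_differentIdeal (𝓞 K) K K' z hadj
  rw [hmin] at hcd
  have hdiff : algebraMap (𝓞 K') K' (2 * z - algebraMap (𝓞 K) (𝓞 K') t) =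
      (z : K') - τ (z : K') := by
    show (2 * (z : K') - algebraMap K K' (t : K)) = _
    rw [ht]
    ring
  have hne : 2 * z - algebraMap (𝓞 K) (𝓞 K') t ≠ 0 := by
    intro h0
    rw [h0, map_zero, hab, map_add, map_mul, hτ, AlgEquiv.commutes, AlgEquiv.commutes] at hdiff
    have h1 : algebraMap K K' b ≠ 0 := by
      rwa [Ne, map_eq_zero_iff _ (algebraMap K K').injective]
    have h2 : θ ≠ 0 := by
      intro h3
      rw [h3, zero_pow (by norm_num)] at hθ
      exact x.ne_zero ((map_eq_zero_iff _ (algebraMap K K').injective).1 hθ.symm)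
    have h3 : 2 * (algebraMap K K' b * θ) = 0 := by linear_combination (-1 : K') * hdiff
    exact mul_ne_zero two_ne_zero (mul_ne_zero h1 h2) h3
  have hspan : Ideal.span {2 * z - algebraMap (𝓞 K) (𝓞 K') t} ≠ 0 := by
    rw [Ne, Ideal.zero_eq_bot, Ideal.span_singleton_eq_bot]
    exact hne
  have hfm : FiniteMultiplicity W.asIdeal
      (conductor (𝓞 K) z * differentIdeal (𝓞 K) (𝓞 K')) := by
    rw [hcd]
    exact FiniteMultiplicity.of_prime_left W.prime hspan
  have hmul : multiplicity W.asIdeal (Ideal.span {2 * z - algebraMap (𝓞 K) (𝓞 K') t}) =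
      multiplicity W.asIdeal (differentIdeal (𝓞 K) (𝓞 K')) := by
    rw [← hcd, multiplicity_mul W.prime hfm,
      multiplicity_eq_zero.2 (dr_cond hW hW2 hN z hz), zero_add]
  rw [← hdiff, W.valuation_of_algebraMap, W.intValuation_eq_exp_neg_multiplicity hne, hmul]

theorem diff_val {v : HeightOneSpectrum (𝓞 K)} {W : HeightOneSpectrum (𝓞 K')}
    (hW : v.asIdeal.primesOver (𝓞 K') = {W.asIdeal})
    (hW2 : v.asIdeal.map (algebraMap (𝓞 K) (𝓞 K')) = W.asIdeal ^ 2) (z : K')
    (hz : W.valuation K' z = WithZero.exp (-1 : ℤ)) :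
    W.valuation K' (z - τ z) =
      WithZero.exp (-(multiplicity W.asIdeal (differentIdeal (𝓞 K) (𝓞 K')) : ℤ)) := by
  have hz1 : W.valuation K' z ≤ 1 := by
    rw [hz, ← WithZero.exp_zero, WithZero.exp_le_exp]
    norm_num
  obtain ⟨n, ⟨d, hd⟩, hnd⟩ := W.exists_primeCompl_mul_eq_of_integer z hz1
  have hd1 : W.valuation K' (d : K') = 1 := W.valuation_eq_one_iff_notMem.2 hd
  obtain ⟨-, m, -, hm⟩ := dr_tr_nm hdeg hθ hns τ hτ d
  have hτd1 : W.valuation K' (τ (d : K')) = 1 := by rw [val_tau hW τ, hd1]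
  have hm1 : W.valuation K' (algebraMap K K' (m : K)) = 1 := by rw [hm, map_mul, hd1, hτd1, one_mul]
  have hint : IsIntegral ℤ (algebraMap K K' (m : K) * z) := by
    have e : algebraMap K K' (m : K) * z = τ (d : K') * (n : K') := by
      rw [hm]
      have h1 : z * (d : K') = (n : K') := hnd
      rw [← h1]
      ring
    rw [e]
    exact ((RingOfIntegers.isIntegral_coe d).map τ).mul (RingOfIntegers.isIntegral_coe n)
  have hZ : W.intValuation (⟨algebraMap K K' (m : K) * z, hint⟩ : 𝓞 K') = WithZero.exp (-1 : ℤ) := by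
    rw [← W.valuation_of_algebraMap (K := K')]
    show W.valuation K' (algebraMap K K' (m : K) * z) = _
    rw [map_mul, hm1, one_mul, hz]
  have key := dr_int hdeg hθ hns τ hτ hW hW2 ⟨algebraMap K K' (m : K) * z, hint⟩ hZ
  rw [← key]
  show _ = W.valuation K' (algebraMap K K' (m : K) * z - τ (algebraMap K K' (m : K) * z))
  rw [map_mul, AlgEquiv.commutes, ← mul_sub, map_mul, hm1, one_mul]

end Pool.Agent.QD.N4
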