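import Pool.Agent.QD.N4.DiffC
import Pool.Agent.HWR.SumNrm

/-!
# QD-N4-Disc: discriminants of `K(√x)`

`dN_eq_odd` PLAN: `v` not over `2`: `ordK v x` odd iff `ty K K' v = 0` (`ty_odd'`, definition of
`uK`), iff `v` is ramified (`quad_types`); `dN_odd`, `dN_unram`.
`disc_congr'` PLAN: `discr_dN` for both fields; split the finite product over all `v` into the
places over `2` (`dN_congr`; each `v` over `2` is in `S`) and the others (`dN_eq_odd`); the product
of `if Odd (ordK v x) then nrm v else 1` over `v` not over `2` is the `finprod` over the subtype.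
All products have finite support (`dN_finite`).  `|discr| = natAbs`.
`disc_one'`: over `2` the places split (`splits_of_LSq`), so are unramified, `dN_unram`.
-/

namespace Pool.Agent.QD.N4

open NumberField IsDedekindDomain Pool.Agent.HWR

variable {K : Type} [Field K] [NumberField K]

private theorem two_le_nrm (v : HeightOneSpectrum (𝓞 K)) : 2 ≤ nrm v := by
  have h0 := nrm_ne_zero v
  have h1 := nrm_ne_one v
  omega

private theorem not_splits_of_single (K' : Type) [Field K'] [NumberField K'] [Algebra K K']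
    (v : HeightOneSpectrum (𝓞 K)) (w : Ideal (𝓞 K'))
    (hw : v.asIdeal.primesOver (𝓞 K') = {w}) : ¬ Splits K K' v := by
  unfold Splits
  rw [hw, Set.ncard_singleton]
  omega

/-- the discriminant factor of `x` at `v` -/
private noncomputable def fx (x : Kˣ) (v : HeightOneSpectrum (𝓞 K)) : ℤ :=
  open Classical in if (2 : 𝓞 K) ∉ v.asIdeal ∧ Odd (ordK v x) then (nrm v : ℤ) else 1

private theorem finprod_fx (x : Kˣ) :
    ∏ᶠ v : {v : HeightOneSpectrum (𝓞 K) // (2 : 𝓞 K) ∉ v.asIdeal ∧ Odd (ordK v x)},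
        (nrm v.1 : ℤ) = ∏ᶠ v, fx x v := by
  classical
  have h1 := finprod_subtype_eq_finprod_cond (f := fun v : HeightOneSpectrum (𝓞 K) => (nrm v : ℤ))
    (fun v : HeightOneSpectrum (𝓞 K) => (2 : 𝓞 K) ∉ v.asIdeal ∧ Odd (ordK v x))
  rw [h1]
  refine finprod_congr fun v => ?_
  rw [finprod_eq_if]
  rfl

private theorem fx_over (x : Kˣ) (v : HeightOneSpectrum (𝓞 K)) (h : (2 : 𝓞 K) ∈ v.asIdeal) :
    fx x v = 1 := by
  unfold fx
  rw [if_neg]
  exact fun h1 => h1.1 h

private theorem discr_cast (K' : Type) [Field K'] [NumberField K'] [Algebra K K']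
    (hdeg : Module.finrank K K' = 2) :
    |NumberField.discr K'| = |NumberField.discr K| ^ 2 *
      ∏ᶠ v : HeightOneSpectrum (𝓞 K), ((dN K K' v : ℕ) : ℤ) := by
  have h1 := discr_dN K K' hdeg
  have h2 : ((∏ᶠ v : HeightOneSpectrum (𝓞 K), dN K K' v : ℕ) : ℤ) =
      ∏ᶠ v : HeightOneSpectrum (𝓞 K), ((dN K K' v : ℕ) : ℤ) :=
    MonoidHom.map_finprod_of_injective (Nat.castRingHom ℤ).toMonoidHom Nat.cast_injective _
  rw [Int.abs_eq_natAbs, h1, Int.abs_eq_natAbs, ← h2]
  push_cast
  rfl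

open Classical in
theorem dN_eq_odd (K' : Type) [Field K'] [NumberField K'] [Algebra K K']
    (hdeg : Module.finrank K K' = 2) (x : Kˣ) (θ : K') (hθ : θ ^ 2 = algebraMap K K' (x : K))
    (hns : ¬ IsSquare x) (v : HeightOneSpectrum (𝓞 K)) (h2 : (2 : 𝓞 K) ∉ v.asIdeal) :
    dN K K' v = if Odd (ordK v x) then nrm v else 1 := by
  have hty := ty_odd' K' hdeg x θ hθ hns v h2
  have hn := two_le_nrm v
  rcases quad_types K K' hdeg v with ⟨hs, _⟩ | ⟨w, hw, ⟨hm, hN⟩ | ⟨hm, hN⟩⟩
  · have h3 : ty K K' v = 1 := by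
      unfold ty
      rw [if_pos hs]
    have h4 : ¬ Odd (ordK v x) := by
      intro h
      rw [h3] at hty
      unfold uK at hty
      rw [if_pos h] at hty
      exact one_ne_zero hty
    rw [if_neg h4]
    refine dN_unram K K' hdeg v ?_
    rintro ⟨w, hw, _⟩
    exact not_splits_of_single K' v w hw hs
  · have h3 : ty K K' v = 0 := by
      unfold ty
      rw [if_neg (not_splits_of_single K' v w hw), if_neg]
      rintro ⟨w', hw', hN'⟩
      have h5 : w = w' := by
        rw [hw] at hw'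
        exact Set.singleton_eq_singleton_iff.mp hw'
      rw [← h5, hN] at hN'
      nlinarith
    have h4 : Odd (ordK v x) := by
      by_contra h
      rw [h3] at hty
      unfold uK at hty
      rw [if_neg h] at hty
      split_ifs at hty <;> omega
    rw [if_pos h4]
    exact dN_odd K K' hdeg v h2 ⟨w, hw, hm⟩
  · have h3 : ty K K' v = -1 := by
      unfold ty
      rw [if_neg (not_splits_of_single K' v w hw), if_pos ⟨w, hw, hN⟩]
    have h4 : ¬ Odd (ordK v x) := by
      intro h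
      rw [h3] at hty
      unfold uK at hty
      rw [if_pos h] at hty
      omega
    rw [if_neg h4]
    refine dN_unram K K' hdeg v ?_
    rintro ⟨w', hw', hm'⟩
    have h5 : w = w' := by
      rw [hw] at hw'
      exact Set.singleton_eq_singleton_iff.mp hw'
    rw [← h5, hm] at hm'
    have h6 := congrArg Ideal.absNorm hm'
    rw [map_pow, hN] at h6
    have h7 : 1 < nrm v ^ 2 := by nlinarith
    nlinarith

private theorem dN_fx (K' : Type) [Field K'] [NumberField K'] [Algebra K K']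
    (hdeg : Module.finrank K K' = 2) (x : Kˣ) (θ : K') (hθ : θ ^ 2 = algebraMap K K' (x : K))
    (hns : ¬ IsSquare x) (v : HeightOneSpectrum (𝓞 K)) (h2 : (2 : 𝓞 K) ∉ v.asIdeal) :
    ((dN K K' v : ℕ) : ℤ) = fx x v := by
  classical
  rw [dN_eq_odd K' hdeg x θ hθ hns v h2]
  unfold fx
  by_cases h : Odd (ordK v x)
  · rw [if_pos h, if_pos ⟨h2, h⟩]
  · rw [if_neg h, if_neg (fun h3 => h h3.2), Nat.cast_one]

private theorem dN_supp (K' : Type) [Field K'] [NumberField K'] [Algebra K K']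
    (hdeg : Module.finrank K K' = 2) :
    Function.HasFiniteMulSupport (fun v : HeightOneSpectrum (𝓞 K) => ((dN K K' v : ℕ) : ℤ)) := by
  refine (dN_finite K K' hdeg).subset ?_
  intro v hv h
  exact hv (by simp only [h, Nat.cast_one])

private theorem fx_supp (K' : Type) [Field K'] [NumberField K'] [Algebra K K']
    (hdeg : Module.finrank K K' = 2) (x : Kˣ) (θ : K') (hθ : θ ^ 2 = algebraMap K K' (x : K))
    (hns : ¬ IsSquare x) :
    Function.HasFiniteMulSupport (fun v : HeightOneSpectrum (𝓞 K) => fx x v) := by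
  refine (dN_finite K K' hdeg).subset ?_
  intro v hv h
  by_cases h2 : (2 : 𝓞 K) ∈ v.asIdeal
  · exact hv (fx_over x v h2)
  · apply hv
    change fx x v = 1
    rw [← dN_fx K' hdeg x θ hθ hns v h2, h, Nat.cast_one]

theorem disc_one' (K' : Type) [Field K'] [NumberField K'] [Algebra K K']
    (hdeg : Module.finrank K K' = 2) (x : Kˣ) (θ : K') (hθ : θ ^ 2 = algebraMap K K' (x : K))
    (hns : ¬ IsSquare x) (h : ∀ v : HeightOneSpectrum (𝓞 K), (2 : 𝓞 K) ∈ v.asIdeal → LSq v x) :
    |NumberField.discr K'| = |NumberField.discr K| ^ 2 *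
      ∏ᶠ v : {v : HeightOneSpectrum (𝓞 K) // (2 : 𝓞 K) ∉ v.asIdeal ∧ Odd (ordK v x)},
        (nrm v.1 : ℤ) := by
  rw [finprod_fx, discr_cast K' hdeg]
  congr 1
  refine finprod_congr fun v => ?_
  by_cases h2 : (2 : 𝓞 K) ∈ v.asIdeal
  · rw [fx_over x v h2]
    have hs := splits_of_LSq K' hdeg x θ hθ hns v (h v h2)
    have h3 : dN K K' v = 1 := by
      refine dN_unram K K' hdeg v ?_
      rintro ⟨w, hw, _⟩
      exact not_splits_of_single K' v w hw hs
    rw [h3, Nat.cast_one]
  · exact dN_fx K' hdeg x θ hθ hns v h2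

theorem disc_congr' (K' : Type) [Field K'] [NumberField K'] [Algebra K K']
    (hdeg : Module.finrank K K' = 2) (x : Kˣ) (θ : K') (hθ : θ ^ 2 = algebraMap K K' (x : K))
    (hns : ¬ IsSquare x)
    (K'' : Type) [Field K''] [NumberField K''] [Algebra K K''] (hdeg' : Module.finrank K K'' = 2)
    (y : Kˣ) (θ' : K'') (hθ' : θ' ^ 2 = algebraMap K K'' (y : K)) (hns' : ¬ IsSquare y)
    (h : ∀ v : HeightOneSpectrum (𝓞 K), (2 : 𝓞 K) ∈ v.asIdeal → LSq v (x / y)) :
    |NumberField.discr K'| *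
      ∏ᶠ v : {v : HeightOneSpectrum (𝓞 K) // (2 : 𝓞 K) ∉ v.asIdeal ∧ Odd (ordK v y)},
        (nrm v.1 : ℤ) =
    |NumberField.discr K''| *
      ∏ᶠ v : {v : HeightOneSpectrum (𝓞 K) // (2 : 𝓞 K) ∉ v.asIdeal ∧ Odd (ordK v x)},
        (nrm v.1 : ℤ) := by
  rw [finprod_fx, finprod_fx, discr_cast K' hdeg, discr_cast K'' hdeg', mul_assoc, mul_assoc,
    ← finprod_mul_distrib (dN_supp K' hdeg) (fx_supp K'' hdeg' y θ' hθ' hns'),
    ← finprod_mul_distrib (dN_supp K'' hdeg') (fx_supp K' hdeg x θ hθ hns)]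
  congr 1
  refine finprod_congr fun v => ?_
  by_cases h2 : (2 : 𝓞 K) ∈ v.asIdeal
  · rw [fx_over x v h2, fx_over y v h2,
      dN_congr K' hdeg x θ hθ hns K'' hdeg' y θ' hθ' hns' v h2 (h v h2)]
  · rw [dN_fx K' hdeg x θ hθ hns v h2, dN_fx K'' hdeg' y θ' hθ' hns' v h2, mul_comm]

end Pool.Agent.QD.N4
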