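import Pool.Agent.QD.ZDefs
import Pool.Agent.HWR.NormA
import Pool.Agent.HWR.Symbol

/-!
# QD-N4-Ord: orders and local squares of elements of `K^*`

PLAN.
`ordK_mul`: the valuation is multiplicative and nonzero on units, `WithZero.log_mul`.
`ordK_int`: `valuation_of_algebraMap`, `intValuation_if_neg` (or
`intValuation_eq_exp_neg_multiplicity`, `WithZero.log_exp`) and `ord_iff` (HWR/NormA: `δ ∈ v^k`
iff `k ≤ ord v δ`), `HeightOneSpectrum.intValuation_le_pow_iff_mem`.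
`val_le_iff`: `v.valuation K x ≤ exp (-k)` iff `k ≤ ordK v x` (`WithZero.log_le_log`,
`WithZero.le_log_iff_exp_le` or similar).
`int_rep`: write `x = n / d` with `n, d : 𝓞 K`, `m = d`, `δ = n d`.
`LSq_mul`: given `k`; if `x r^2 - 1` and `y s^2 - 1` have valuation at most `exp (-k)`, so has
`x y (r s)^2 - 1 = (x r^2 - 1) y s^2 + (y s^2 - 1)`, as `y s^2` has valuation at most `1`.
`LSq_sq`: `r = x⁻¹`.  `LSq_inv`: `x⁻¹ (x r)^2 = x r^2`.
`LSq_even`: `k = 1`: `x r^2 - 1` has valuation less than one, so `x r^2` has valuation `1`, so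
`ordK v x = -2 ordK v r`.
-/

namespace Pool.Agent.QD.N4

open NumberField IsDedekindDomain Pool.Agent.HWR

variable {K : Type} [Field K] [NumberField K] (v : HeightOneSpectrum (𝓞 K))

private theorem oo_ne (x : Kˣ) : v.valuation K (x : K) ≠ 0 :=
  (Valuation.ne_zero_iff _).2 x.ne_zero

theorem ordK_mul (x y : Kˣ) : ordK v (x * y) = ordK v x + ordK v y := by
  unfold ordK
  rw [Units.val_mul, map_mul, WithZero.log_mul (oo_ne v x) (oo_ne v y)]
  ring

theorem ordK_inv (x : Kˣ) : ordK v x⁻¹ = - ordK v x := by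
  unfold ordK
  rw [Units.val_inv_eq_inv_val, map_inv₀, WithZero.log_inv]

theorem ordK_pow (x : Kˣ) (n : ℕ) : ordK v (x ^ n) = n * ordK v x := by
  unfold ordK
  rw [Units.val_pow_eq_pow_val, map_pow, WithZero.log_pow, nsmul_eq_mul]
  ring

theorem ordK_int {x : Kˣ} {a : 𝓞 K} (h : (a : K) = x) : ordK v x = (ord v a : ℤ) := by
  have ha : a ≠ 0 := by
    rintro rfl
    exact x.ne_zero (by rw [← h]; simp)
  unfold ordK
  rw [← h]
  have h1 : v.valuation K (a : K) = v.intValuation a := v.valuation_of_algebraMap a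
  have h2 := v.intValuation_eq_exp_neg_multiplicity ha
  rw [h1, h2, WithZero.log_exp, neg_neg]
  congr 1
  refine le_antisymm ?_ ?_
  · rw [← ord_iff ha v, ← v.intValuation_le_pow_iff_mem, h2]
  · have h3 := (v.intValuation_le_pow_iff_mem a (ord v a)).2 ((ord_iff ha v _).2 le_rfl)
    rw [h2, WithZero.exp_le_exp] at h3
    omega

theorem val_le_iff (x : Kˣ) (k : ℤ) :
    v.valuation K (x : K) ≤ WithZero.exp (-k) ↔ k ≤ ordK v x := by
  unfold ordK
  rw [← WithZero.log_le_iff_le_exp (oo_ne v x)]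
  omega

theorem int_rep (x : Kˣ) : ∃ m δ : 𝓞 K, m ≠ 0 ∧ δ ≠ 0 ∧ (δ : K) = (m : K) ^ 2 * (x : K) := by
  obtain ⟨n, d, hd, hx⟩ := IsFractionRing.div_surjective (A := 𝓞 K) (x : K)
  have hd0 : d ≠ 0 := nonZeroDivisors.ne_zero hd
  have hdK : (d : K) ≠ 0 := by
    simpa using hd0
  have hx' : (n : K) / (d : K) = (x : K) := hx
  have hn0 : n ≠ 0 := by
    rintro rfl
    apply x.ne_zero
    rw [← hx']
    simp
  refine ⟨d, n * d, hd0, mul_ne_zero hn0 hd0, ?_⟩
  have h1 : ((n * d : 𝓞 K) : K) = (n : K) * (d : K) := by push_cast; ring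
  rw [← hx', h1]
  field_simp

private theorem oo_le_one {a : K} {k : ℕ} (h : closeOne v k a) : v.valuation K a ≤ 1 := by
  have h1 : a = (a - 1) + 1 := by ring
  rw [h1]
  refine (v.valuation K).map_add_le (h.trans ?_) (by rw [map_one])
  rw [← WithZero.exp_zero, WithZero.exp_le_exp]
  omega

theorem LSq_mul {x y : Kˣ} (hx : LSq v x) (hy : LSq v y) : LSq v (x * y) := by
  intro k
  obtain ⟨r, hr⟩ := hx k
  obtain ⟨s, hs⟩ := hy k
  refine ⟨r * s, ?_⟩
  have h1 := oo_le_one v hs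
  unfold closeOne at *
  have h2 : ((x * y : Kˣ) : K) * ((r * s : Kˣ) : K) ^ 2 - 1 =
      ((x : K) * (r : K) ^ 2 - 1) * ((y : K) * (s : K) ^ 2) + ((y : K) * (s : K) ^ 2 - 1) := by
    push_cast
    ring
  rw [h2]
  refine (v.valuation K).map_add_le ?_ hs
  rw [map_mul]
  calc _ ≤ WithZero.exp (-(k : ℤ)) * 1 := mul_le_mul' hr h1
    _ = _ := mul_one _

theorem LSq_inv {x : Kˣ} (hx : LSq v x) : LSq v x⁻¹ := by
  intro k
  obtain ⟨r, hr⟩ := hx k
  refine ⟨x * r, ?_⟩
  have h2 : ((x⁻¹ : Kˣ) : K) * ((x * r : Kˣ) : K) ^ 2 = (x : K) * (r : K) ^ 2 := by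
    have := x.ne_zero
    push_cast
    field_simp
  rw [h2]
  exact hr

theorem LSq_sq (x : Kˣ) : LSq v (x ^ 2) := by
  intro k
  refine ⟨x⁻¹, ?_⟩
  have h2 : ((x ^ 2 : Kˣ) : K) * ((x⁻¹ : Kˣ) : K) ^ 2 = 1 := by
    have := x.ne_zero
    push_cast
    field_simp
  rw [h2]
  unfold closeOne
  rw [sub_self, map_zero]
  exact zero_le

theorem LSq_even {x : Kˣ} (hx : LSq v x) : Even (ordK v x) := by
  obtain ⟨r, hr⟩ := hx 1
  have h1 : v.valuation K ((x : K) * (r : K) ^ 2) = 1 := by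
    have h2 : (x : K) * (r : K) ^ 2 = 1 + ((x : K) * (r : K) ^ 2 - 1) := by ring
    rw [h2]
    refine (v.valuation K).map_one_add_of_lt ?_
    refine lt_of_le_of_lt hr ?_
    rw [← WithZero.exp_zero, WithZero.exp_lt_exp]
    omega
  have h3 : ordK v (x * r ^ 2) = 0 := by
    unfold ordK
    push_cast
    rw [h1, WithZero.log_one, neg_zero]
  rw [ordK_mul, ordK_pow] at h3
  exact ⟨-ordK v r, by push_cast at h3; omega⟩

end Pool.Agent.QD.N4
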