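import Pool.Agent.QD.N4.Ord
import Pool.Agent.HWR.QuadAux

/-!
# QD-N4-Val: valuations in a quadratic extension

`val_over`: `v 𝓞 K' = W^e J` with `W` not dividing `J`: then `|y|_W = |y|_v^e` for `y : K`.
PLAN: for `y : 𝓞 K` nonzero this is `qa_ord_over` (HWR/QuadAux; `ordK_int`-type formula
`W.valuation K' a = exp (-(ord W a))` for integral nonzero `a`, `intValuation_if_neg` and
`ord_iff`, or directly from `ordK_int` for `K'`), and `y = a / b` in general.
`W.asIdeal ∈ v.asIdeal.primesOver` follows from `W ∣ v 𝓞 K'` (`e ≥ 1`; for maximal ideals: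
`v ≤ W ∩ 𝓞 K ≠ ⊤`).
`exists_tau`: `K' / K` is quadratic, so Galois (characteristic zero); as `x` is not a square in `K`,
`θ ∉ K`, some automorphism moves `θ`, so it maps `θ` to `-θ` (compare `qa_tau`).
`val_tau`: `W` the only prime over `v`: for integral `z` `qa_tau_pow` for `τ` and `τ⁻¹`
(`RingOfIntegers.mapAlgEquiv τ`) and `intValuation_le_pow_iff_mem` give `z ∈ W^k ↔ τ z ∈ W^k` for
all `k`, so equal valuations; in general `z = a / b`, `b : 𝓞 K'`.
`tau_add`, `tau_fix`: `z + τ z` and `z τ z` are in `K`, and `z - τ z = 2 b θ` when `z = a + b θ`.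
`exists_ab`: every `z : K'` is `a + b θ` (`1, θ` is a basis: linearly independent as `θ ∉ K`,
`hdeg`).
-/

namespace Pool.Agent.QD.N4

open NumberField IsDedekindDomain Pool.Agent.HWR

variable {K : Type} [Field K] [NumberField K] {K' : Type} [Field K'] [NumberField K']
  [Algebra K K']

private theorem va_int {F : Type} [Field F] [NumberField F] (v : HeightOneSpectrum (𝓞 F))
    {a : 𝓞 F} (ha : a ≠ 0) : v.valuation F (a : F) = WithZero.exp (-(ord v a : ℤ)) := by
  have h0 : v.valuation F (a : F) = v.intValuation a := v.valuation_of_algebraMap a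
  have h1 := v.intValuation_if_neg ha
  rw [h0, h1]
  have h2 : ∀ k : ℕ, k ≤ (Associates.mk v.asIdeal).count
      (Associates.mk (Ideal.span {a} : Ideal (𝓞 F))).factors ↔ k ≤ ord v a := by
    intro k
    rw [← ord_iff ha, ← v.intValuation_le_pow_iff_mem, h1, WithZero.exp_le_exp, neg_le_neg_iff,
      Nat.cast_le]
  have h3 := le_antisymm ((h2 _).1 le_rfl) ((h2 _).2 le_rfl)
  rw [h3]

private theorem va_ns {x : Kˣ} (hns : ¬ IsSquare x) (y : K) : y ^ 2 ≠ (x : K) := by
  intro h
  have hy : y ≠ 0 := by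
    rintro rfl
    rw [zero_pow two_ne_zero] at h
    exact x.ne_zero h.symm
  apply hns
  refine ⟨Units.mk0 y hy, ?_⟩
  ext
  rw [← h, Units.val_mul, Units.val_mk0, sq]

theorem val_over {v : HeightOneSpectrum (𝓞 K)} {W : HeightOneSpectrum (𝓞 K')} {e : ℕ}
    (he : 1 ≤ e) {J : Ideal (𝓞 K')}
    (h : v.asIdeal.map (algebraMap (𝓞 K) (𝓞 K')) = W.asIdeal ^ e * J) (hJ : ¬ W.asIdeal ∣ J)
    (y : K) : W.valuation K' (algebraMap K K' y) = v.valuation K y ^ e := by
  have hmem : W.asIdeal ∈ v.asIdeal.primesOver (𝓞 K') := by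
    refine ⟨W.isPrime, ⟨?_⟩⟩
    have h1 : v.asIdeal ≤ W.asIdeal.comap (algebraMap (𝓞 K) (𝓞 K')) := by
      rw [← Ideal.map_le_iff_le_comap, h]
      have h5 : W.asIdeal ^ e * J ≤ W.asIdeal ^ e := Ideal.mul_le_left
      have h6 : W.asIdeal ^ e ≤ W.asIdeal := Ideal.pow_le_self (Nat.one_le_iff_ne_zero.1 he)
      exact h5.trans h6
    have h2 : W.asIdeal.comap (algebraMap (𝓞 K) (𝓞 K')) ≠ ⊤ := by
      have := W.isPrime
      exact (Ideal.comap_isPrime _ _).ne_top
    exact v.isMaximal.eq_of_le h2 h1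
  have hqa : qaH hmem = W := rfl
  have key : ∀ a : 𝓞 K, a ≠ 0 →
      W.valuation K' (algebraMap K K' (a : K)) = v.valuation K (a : K) ^ e := by
    intro a ha
    have h1 := qa_ord_over hmem h hJ ha
    rw [hqa] at h1
    have ha' : algebraMap (𝓞 K) (𝓞 K') a ≠ 0 := by
      rwa [Ne, map_eq_zero_iff _ qa_inj]
    have h2 := va_int W ha'
    have h3 : ((algebraMap (𝓞 K) (𝓞 K') a : 𝓞 K') : K') = algebraMap K K' (a : K) := rfl
    rw [← h3, h2, va_int v ha, h1, ← WithZero.exp_nsmul]
    congr 1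
    rw [nsmul_eq_mul]
    push_cast
    ring
  obtain ⟨a, b, hb, rfl⟩ := IsFractionRing.div_surjective (A := 𝓞 K) y
  have hb0 : b ≠ 0 := nonZeroDivisors.ne_zero hb
  by_cases ha : a = 0
  · subst ha
    rw [map_zero, zero_div, map_zero, map_zero, map_zero, zero_pow (by omega)]
  · rw [map_div₀, map_div₀, map_div₀]
    rw [show (algebraMap (𝓞 K) K a : K) = (a : K) from rfl,
      show (algebraMap (𝓞 K) K b : K) = (b : K) from rfl, key a ha, key b hb0, div_pow]

theorem exists_tau (hdeg : Module.finrank K K' = 2) {x : Kˣ} {θ : K'}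
    (hθ : θ ^ 2 = algebraMap K K' (x : K)) (hns : ¬ IsSquare x) :
    ∃ τ : K' ≃ₐ[K] K', τ θ = -θ := by
  have : FiniteDimensional K K' := Module.finite_of_finrank_pos (by omega)
  have hq : Algebra.IsQuadraticExtension K K' := ⟨hdeg⟩
  have hG : IsGalois K K' := inferInstance
  have h1 : ∃ σ : K' ≃ₐ[K] K', σ θ ≠ θ := by
    by_contra hcon
    push Not at hcon
    have h2 : θ ∈ (⊥ : IntermediateField K K') :=
      (IsGalois.mem_bot_iff_fixed _).2 fun σ => hcon σ
    obtain ⟨y, hy⟩ := IntermediateField.mem_bot.1 h2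
    apply va_ns hns y
    apply (algebraMap K K').injective
    rw [map_pow, hy, hθ]
  obtain ⟨σ, hσ⟩ := h1
  refine ⟨σ, ?_⟩
  have h3 : (σ θ) ^ 2 = θ ^ 2 := by
    rw [← map_pow, hθ]
    exact AlgEquiv.commutes _ _
  rcases sq_eq_sq_iff_eq_or_eq_neg.1 h3 with h4 | h4
  · exact absurd h4 hσ
  · exact h4

theorem val_tau {v : HeightOneSpectrum (𝓞 K)} {W : HeightOneSpectrum (𝓞 K')}
    (hW : v.asIdeal.primesOver (𝓞 K') = {W.asIdeal}) (τ : K' ≃ₐ[K] K') (z : K') :
    W.valuation K' (τ z) = W.valuation K' z := by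
  have key : ∀ a : 𝓞 K', a ≠ 0 → W.valuation K' (τ (a : K')) = W.valuation K' (a : K') := by
    intro a ha
    have hτa : RingOfIntegers.mapAlgEquiv τ a ≠ 0 := by
      rwa [Ne, map_eq_zero_iff _ (RingOfIntegers.mapAlgEquiv τ).injective]
    have h1 : ((RingOfIntegers.mapAlgEquiv τ a : 𝓞 K') : K') = τ (a : K') := rfl
    have h2 : ∀ k : ℕ, k ≤ ord W (RingOfIntegers.mapAlgEquiv τ a) ↔ k ≤ ord W a := by
      intro k
      rw [← ord_iff hτa, ← ord_iff ha]
      constructor
      · intro h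
        have h3 := qa_tau_pow hW (RingOfIntegers.mapAlgEquiv τ).symm h
        rwa [AlgEquiv.symm_apply_apply] at h3
      · intro h
        exact qa_tau_pow hW (RingOfIntegers.mapAlgEquiv τ) h
    have h3 := le_antisymm ((h2 _).1 le_rfl) ((h2 _).2 le_rfl)
    rw [← h1, va_int W hτa, va_int W ha, h3]
  obtain ⟨a, b, hb, rfl⟩ := IsFractionRing.div_surjective (A := 𝓞 K') z
  have hb0 : b ≠ 0 := nonZeroDivisors.ne_zero hb
  by_cases ha : a = 0
  · subst ha
    rw [map_zero, zero_div, map_zero]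
  · rw [map_div₀, map_div₀, map_div₀]
    rw [show (algebraMap (𝓞 K') K' a : K') = (a : K') from rfl,
      show (algebraMap (𝓞 K') K' b : K') = (b : K') from rfl, key a ha, key b hb0]

theorem exists_ab (hdeg : Module.finrank K K' = 2) {x : Kˣ} {θ : K'}
    (hθ : θ ^ 2 = algebraMap K K' (x : K)) (hns : ¬ IsSquare x) (z : K') :
    ∃ a b : K, z = algebraMap K K' a + algebraMap K K' b * θ := by
  have hfd : FiniteDimensional K K' := Module.finite_of_finrank_pos (by omega)
  let f : (K × K) →ₗ[K] K' := (LinearMap.toSpanSingleton K K' 1).coprod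
    (LinearMap.toSpanSingleton K K' θ)
  have hf : ∀ p, f p = algebraMap K K' p.1 + algebraMap K K' p.2 * θ := by
    intro p
    simp [f, Algebra.smul_def]
  have hinj : Function.Injective f := by
    rw [injective_iff_map_eq_zero]
    rintro ⟨a, b⟩ h
    rw [hf] at h
    have hb : b = 0 := by
      by_contra hb
      have hb' : algebraMap K K' b ≠ 0 := by
        rwa [Ne, map_eq_zero_iff _ (algebraMap K K').injective]
      apply va_ns hns (-a / b)
      apply (algebraMap K K').injective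
      rw [← hθ, map_pow, map_div₀, map_neg]
      have h1 : θ = -algebraMap K K' a / algebraMap K K' b := by
        rw [eq_div_iff hb']
        linear_combination h
      rw [← h1]
    subst hb
    simp only [map_zero, zero_mul, add_zero] at h
    rw [map_eq_zero_iff _ (algebraMap K K').injective] at h
    rw [h]
    rfl
  have hsurj : Function.Surjective f :=
    (LinearMap.injective_iff_surjective_of_finrank_eq_finrank
      (by rw [Module.finrank_prod, Module.finrank_self, hdeg])).1 hinj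
  obtain ⟨p, hp⟩ := hsurj z
  exact ⟨p.1, p.2, by rw [← hp, hf]⟩

end Pool.Agent.QD.N4
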